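import Pool.Agent.Lib.MP_f80667_ag.Dk.Ld
import Pool.Agent.Lib.MP_f80667_ag.Dh.Gm

/-! Zero-cycles on diagonal hypersurfaces of degree four or of odd prime degree. -/

open ZC BE PE CV QS Polynomial IntermediateField IsDedekindDomain NumberField DH

namespace DK

section nf

variable {F : Type} [Field F] [NumberField F] {n d : ℕ}

/-- The prime numbers of the theorem: prime to `2 d`, and to `d - 1` if `d` is not `4`, with the condition at all places. -/
def Ls (d : ℕ) (a : Fin (n + 2) → F) : Set ℕ :=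
  {l | l.Prime ∧ ¬ l ∣ 2 * d ∧ (d ≠ 4 → ¬ l ∣ d - 1) ∧ ∀ v, Cd d a l v}

/-- **All places.** Proof: `exists_gd`; if `L.p ∣ d` then `locp` or `loc4`; otherwise `loc_good`. -/
theorem all_pl (hd : d = 4 ∨ (d.Prime ∧ d ≠ 2)) (hn : 2 ≤ n) {a : Fin (n + 2) → F}
    (ha : ∀ i, a i ≠ 0) (v : HeightOneSpectrum (𝓞 F)) {l : ℕ} (hl : l.Prime) (hld : ¬ l ∣ 2 * d)
    (hl1 : d ≠ 4 → ¬ l ∣ d - 1) (h : Cd d a l v) :
    Dq (Xd d a) (FK F v) (AlgebraicClosure (FK F v)) l := by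
  have : CharZero (FK F v) := charZero_of_injective_algebraMap (algebraMap F (FK F v)).injective
  have h2d : 2 ≤ d := by
    rcases hd with rfl | ⟨hd, -⟩
    · norm_num
    · exact hd.two_le
  have hl3 : ¬ l ∣ d := fun h' => hld (h'.mul_left 2)
  obtain ⟨L, -, hL⟩ := exists_gd (d := d) (by omega) ha v
  by_cases hp : L.p ∣ d
  · rcases hd with rfl | ⟨hdp, hd2⟩
    · have hl2 : l ≠ 2 := by
        rintro rfl
        exact hld (dvd_mul_right 2 4)
      have hp2 : L.p = 2 := by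
        have h1 : L.p ∣ 2 ^ 2 := hp
        exact (Nat.prime_dvd_prime_iff_eq L.pp Nat.prime_two).1 (L.pp.dvd_of_dvd_pow h1)
      exact loc4 hn hp2 ha hl hl2
    · have hpd : L.p = d := (Nat.prime_dvd_prime_iff_eq L.pp hdp).1 hp
      have hd4 : d ≠ 4 := by
        rintro rfl
        exact absurd hdp (by norm_num)
      refine locp hdp hd2 hn hpd ha hl fun h' => ?_
      rcases (Nat.Prime.dvd_mul hl).1 h' with h3 | h3
      · exact hld h3
      · exact hl1 hd4 h3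
  · exact loc_good h2d hn hp ha hl hl3 (hL l hl h)

/-- **Theorem.** Proof: `all_pl`, `dq_prime`, `glob`; `gp_of`. -/
theorem main_P (hd : d = 4 ∨ (d.Prime ∧ d ≠ 2)) (hn : 2 ≤ n) {a : Fin (n + 2) → F}
    (ha : ∀ i, a i ≠ 0) :
    (∀ v : HeightOneSpectrum (𝓞 F), ∀ m : ℕ, m ≠ 0 →
      (∀ l : ℕ, l.Prime → l ∣ m → ¬ l ∣ 2 * d ∧ (d ≠ 4 → ¬ l ∣ d - 1) ∧ Cd d a l v) →
        Dq (Xd d a) (FK F v) (AlgebraicClosure (FK F v)) m) ∧
      (∀ m : ℕ, m ≠ 0 → Sf (Ls d a) m → ∀ c : Fam (Xd d a), ∃ c' : Fam (Xd d a),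
        c.cl = m • c'.cl) ∧
      (∀ z : LHat (FA (Xd d a)), ImDeS (Ls d a) z) ∧
      ∀ l : ℕ, l.Prime → d * Module.finrank ℚ F + 1 < l → l ∈ Ls d a := by
  have h2d : 2 ≤ d := by
    rcases hd with rfl | ⟨hd, -⟩
    · norm_num
    · exact hd.two_le
  have hg := glob (V := Xd d a) (Λ := Ls d a) (fun h2 => h2.2.1 (dvd_mul_right 2 d))
    fun l hl hlp v => all_pl hd hn ha v hlp hl.2.1 hl.2.2.1 (hl.2.2.2 v)
  refine ⟨fun v m hm h => dq_prime hm fun l hl hlm =>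
    all_pl hd hn ha v hl (h l hl hlm).1 (h l hl hlm).2.1 (h l hl hlm).2.2, hg.1, hg.2,
    fun l hl hlt => ?_⟩
  have hpos : 1 ≤ Module.finrank ℚ F := Module.finrank_pos
  have h1 : d ≤ d * Module.finrank ℚ F := Nat.le_mul_of_pos_right d hpos
  refine ⟨hl, fun h' => ?_, fun _ h' => ?_, fun v => gp_of (by omega) hl hlt v⟩
  · rcases (Nat.Prime.dvd_mul hl).1 h' with h2 | h2
    · have h3 := Nat.le_of_dvd (by norm_num) h2
      omega
    · have h3 := Nat.le_of_dvd (by omega) h2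
      omega
  · have h3 := Nat.le_of_dvd (by omega) h'
    omega

end nf

end DK
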