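import Pool.Agent.Lib.MP_f80667_ag.Cv.MdL

/-! The ring of integers is complete. -/

open ZC BE PE CV IsLocalRing

namespace DK

/-- Proof: compare the instance for `OM L M` in `Cv/MdL.lean`, `M = ⊥` (`okBot`). -/
theorem cpl_ok {K Ω : Type} [Field K] [Field Ω] [Algebra K Ω] [CharZero K] [IsAlgClosure K Ω]
    (L : Ld K Ω) : IsAdicComplete (maximalIdeal (Ok L)) (Ok L) := by
  rw [← IsAdicComplete.congr_ringEquiv (maximalIdeal (Ok L)) (okBot L),
    map_ringEquiv_maximalIdeal]
  infer_instance

end DK
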