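import Pool.Agent.Lib.MP_f80667_ag.Dk.Rf

/-! The identity: `p` times a point of the Fermat curve is the sum of the fibres through it, up to principal cycles. -/

open ZC BE PE CV QS Polynomial TensorProduct DH

namespace DK

/-- The lines through the origin. Proof: every `(x, y) ≠ 0` is on exactly one of the `p + 1` lines. -/
theorem lines {p : ℕ} (hp : p.Prime) [NeZero p] {A : Type} [AddCommGroup A]
    (f : ZMod p → ZMod p → A) :
    ∑ a : ZMod p, ∑ x : ZMod p, f x (-(a * x)) + ∑ x : ZMod p, f 0 x =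
      p • f 0 0 + ∑ x : ZMod p, ∑ y : ZMod p, f x y := by
  classical
  have : Fact p.Prime := ⟨hp⟩
  rw [Finset.sum_comm]
  have h1 : ∀ g : ZMod p → A, ∑ x, g x = g 0 + ∑ x ∈ Finset.univ.erase 0, g x := fun g =>
    (Finset.add_sum_erase _ _ (Finset.mem_univ _)).symm
  rw [h1 fun x => ∑ a : ZMod p, f x (-(a * x)), h1 fun x => ∑ y : ZMod p, f x y]
  have h2 : ∑ a : ZMod p, f 0 (-(a * 0)) = p • f 0 0 := by
    have h3 : ∀ a : ZMod p, f 0 (-(a * 0)) = f 0 0 := fun a => by rw [mul_zero, neg_zero]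
    rw [Finset.sum_congr rfl fun a _ => h3 a, Finset.sum_const, Finset.card_univ, ZMod.card]
  have h3 : ∑ x ∈ Finset.univ.erase (0 : ZMod p), ∑ a : ZMod p, f x (-(a * x)) =
      ∑ x ∈ Finset.univ.erase (0 : ZMod p), ∑ y : ZMod p, f x y := by
    refine Finset.sum_congr rfl fun x hx => ?_
    have hx0 : x ≠ 0 := (Finset.mem_erase.1 hx).1
    have hb : Function.Bijective fun a : ZMod p => -(a * x) := by
      refine (Finite.injective_iff_bijective).1 fun a b hab => ?_
      exact mul_right_cancel₀ hx0 (neg_injective hab)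
    exact hb.sum_comp (f x)
  rw [h2, h3]
  abel

/-- The residues. -/
private theorem rg_split {p : ℕ} (hp : p.Prime) [NeZero p] {A : Type} [AddCommGroup A]
    (g : ZMod p → A) :
    ∑ a : ZMod p, g a = ∑ i : Fin (p - 2), g (((i : ℕ) + 1 : ℕ) : ZMod p) + g 0 + g (-1) := by
  have h1 : ∑ a : ZMod p, g a = ∑ k ∈ Finset.range p, g (k : ZMod p) := by
    refine Finset.sum_nbij' (fun a : ZMod p => a.val) (fun k : ℕ => (k : ZMod p)) ?_ ?_ ?_ ?_ ?_
    · intro a _
      exact Finset.mem_range.2 (ZMod.val_lt a)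
    · intro k _
      exact Finset.mem_univ _
    · intro a _
      exact ZMod.natCast_zmod_val a
    · intro k hk
      exact ZMod.val_cast_of_lt (Finset.mem_range.1 hk)
    · intro a _
      rw [ZMod.natCast_zmod_val]
  obtain ⟨q, hq⟩ : ∃ q, p = q + 2 := ⟨p - 2, by have := hp.two_le; omega⟩
  have h2 : ((q + 1 : ℕ) : ZMod p) = -1 := by
    have h3 : ((q + 2 : ℕ) : ZMod p) = 0 := by
      rw [← hq]
      exact ZMod.natCast_self p
    have h4 : ((q + 2 : ℕ) : ZMod p) = ((q + 1 : ℕ) : ZMod p) + 1 := by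
      push_cast
      ring
    rw [h4] at h3
    exact eq_neg_of_add_eq_zero_left h3
  have h5 : ∑ k ∈ Finset.range p, g (k : ZMod p) =
      ∑ k ∈ Finset.range (p - 2), g ((k + 1 : ℕ) : ZMod p) + g 0 + g (-1) := by
    have h6 : Finset.range p = Finset.range (q + 1 + 1) := congrArg Finset.range hq
    have h7 : Finset.range (p - 2) = Finset.range q := congrArg Finset.range (by omega)
    rw [h6, h7, Finset.sum_range_succ, Finset.sum_range_succ', h2, Nat.cast_zero]
  rw [h1, h5, ← Fin.sum_univ_eq_sum_range (fun k => g ((k + 1 : ℕ) : ZMod p)) (p - 2)]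

variable {M : Type} [Field M] [CharZero M] {p : ℕ} {ε : M} {D : Crv M} (c : Cu D p (Af p ε))
  (hp : p.Prime) (hε : ε ^ p = -1) {Ω : Type} [Field Ω] [Algebra M Ω] [IsAlgClosed Ω]

variable (M) in
/-- The curves. -/
noncomputable def Ci (i : Fin (p - 2)) : Crv M :=
  Ca M hp (a := i + 1) (Nat.succ_pos _) (by have := i.2; omega)

/-- The maps. -/
noncomputable def gi (i : Fin (p - 2)) : Gr D (Ci M hp i) :=
  ga c hp (Nat.succ_pos _) (by have := i.2; omega) hε

theorem gi_b (i : Fin (p - 2)) : (gi c hp hε i).b = sb c := rfl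

open Classical in
/-- A parametrisation of the roots of unity by the residues modulo `p`. -/
private theorem rg_roots (Ω : Type) [Field Ω] [CharZero Ω] [IsAlgClosed Ω] {p : ℕ} (hp : p.Prime)
    [NeZero p] :
    ∃ z : ZMod p → Ω, (∀ t, z t ^ p = 1) ∧ z 0 = 1 ∧ (∀ s t, z (s + t) = z s * z t) ∧
      Function.Injective z ∧ Finset.univ.image z = nthRootsFinset p (1 : Ω) := by
  obtain ⟨ζ, hζ⟩ := HasEnoughRootsOfUnity.exists_primitiveRoot Ω p
  have h5 : ζ ^ p = 1 := hζ.pow_eq_one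
  have hz5 : ∀ t : ZMod p, (ζ ^ t.val) ^ p = 1 := fun t => by
    rw [← pow_mul, mul_comm, pow_mul, h5, one_pow]
  have hinj : Function.Injective fun t : ZMod p => ζ ^ t.val := by
    intro s t h
    exact ZMod.val_injective p (hζ.pow_inj (ZMod.val_lt s) (ZMod.val_lt t) h)
  refine ⟨fun t => ζ ^ t.val, hz5, ?_, ?_, hinj, ?_⟩
  · change ζ ^ (0 : ZMod p).val = 1
    rw [ZMod.val_zero, pow_zero]
  · intro s t
    change ζ ^ (s + t).val = ζ ^ s.val * ζ ^ t.val
    rw [← pow_add, ZMod.val_add]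
    exact (pow_eq_pow_mod _ h5).symm
  · refine Finset.eq_of_subset_of_card_le ?_ ?_
    · intro x hx
      obtain ⟨t, -, rfl⟩ := Finset.mem_image.1 hx
      exact (mem_nthRootsFinset hp.pos _).2 (hz5 t)
    · rw [hζ.card_nthRootsFinset, Finset.card_image_of_injective _ hinj, Finset.card_univ,
        ZMod.card]

/-- The powers of a root of unity. -/
private theorem rg_pow {Ω : Type} [Field Ω] {p : ℕ} {z : ZMod p → Ω} (zp : ∀ t, z t ^ p = 1)
    (z0 : z 0 = 1) (za : ∀ s t, z (s + t) = z s * z t) {a : ℕ} (ha : a ≤ p) (t : ZMod p) :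
    z t ^ (p - a) = z (-((a : ZMod p) * t)) := by
  have h1 : ∀ k : ℕ, z t ^ k = z ((k : ZMod p) * t) := by
    intro k
    induction k with
    | zero => rw [pow_zero, Nat.cast_zero, zero_mul, z0]
    | succ k ih =>
      rw [pow_succ, ih, ← za]
      congr 1
      push_cast
      ring
  have h2 : z t ^ (p - a) * z t ^ a = 1 := by
    rw [← pow_add, Nat.sub_add_cancel ha, zp]
  have h3 : z (-((a : ZMod p) * t)) * z t ^ a = 1 := by
    rw [h1, ← za, neg_add_cancel, z0]
  have h4 : z t ^ a ≠ 0 := right_ne_zero_of_mul_eq_one h3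
  exact mul_right_cancel₀ h4 (h2.trans h3.symm)

/-- **The identity.** Proof: a primitive root `ζ`, `f x y = [zs c φ ![ζ ^ x, ζ ^ y, 1]]`: `lines` (`a` in `{1, .., p - 2}`:
`ga_psi`; `a = 0`: the multiplication of `c_0`; `a = - 1`: the multiplication of `c_0`, `c_1` by the same number, which is the
multiplication of `c_2` by the inverse (`zs_eq`); the last line: `c_1`); the sum over all `x`, `y` and these three lines are
multiples of `[∞]` modulo `Pc` by `line_pc` (for `φ` and for the points `zs c φ ![ζ ^ x, 1, 1]`, `zs_zs`); `psi_emp`, `fb_none`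
for the point at infinity (compare `id5` in `Dh/B5i.lean`). -/
theorem gi_id {φ : D.A →ₐ[M] Ω} (h : φ (sb c) ≠ 0) :
    p • ((Finsupp.single (some φ) 1 : D.V.pt Ω →₀ ℤ) - Finsupp.single (D.bp.o Ω) 1) -
      ∑ i, (gi c hp hε i).psi p (Finsupp.mapDomain (gi c hp hε i).f
        ((Finsupp.single (some φ) 1 : D.V.pt Ω →₀ ℤ) - Finsupp.single (D.bp.o Ω) 1)) ∈
      Pc D Ω := by
  classical
  have : NeZero p := ⟨hp.ne_zero⟩
  have : CharZero Ω := charZero_of_injective_algebraMap (algebraMap M Ω).injective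
  obtain ⟨z, zp, z0, za, zi, zim⟩ := rg_roots Ω hp
  have hd : 0 < p := hp.pos
  have hd2 : 2 ≤ p := hp.two_le
  -- sums over the roots of unity
  have hsum : ∀ g : Ω → (D.V.pt Ω →₀ ℤ), ∑ ζ ∈ nthRootsFinset p (1 : Ω), g ζ = ∑ t, g (z t) := by
    intro g
    rw [← zim, Finset.sum_image fun s _ t _ h => zi h]
  obtain ⟨f, hf⟩ : ∃ f : ZMod p → ZMod p → (D.V.pt Ω →₀ ℤ), ∀ s t, f s t =
      Finsupp.single (some (zs c φ ![z s, z t, 1]) : D.V.pt Ω) 1 := ⟨_, fun _ _ => rfl⟩
  have hv : ∀ s t : ZMod p, ∀ i, (![z s, z t, 1] : Fin 3 → Ω) i ^ p = 1 := by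
    intro s t i
    fin_cases i
    · exact zp s
    · exact zp t
    · exact one_pow p
  have hf0 : f 0 0 = (Finsupp.single (some φ) 1 : D.V.pt Ω →₀ ℤ) := by
    have h1 : (![z 0, z 0, 1] : Fin 3 → Ω) = fun _ => 1 := by
      funext i
      fin_cases i
      · exact z0
      · exact z0
      · rfl
    rw [hf, h1, zs_one c hε hd h]
    rfl
  -- the pull-backs
  have hpsi : ∀ i : Fin (p - 2), (gi c hp hε i).psi p (Finsupp.mapDomain (gi c hp hε i).f
      ((Finsupp.single (some φ) 1 : D.V.pt Ω →₀ ℤ) - Finsupp.single (D.bp.o Ω) 1)) =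
      ∑ t, f t (-((((i : ℕ) + 1 : ℕ) : ZMod p) * t)) - Finsupp.single (D.bp.o Ω) (p : ℤ) := by
    intro i
    have h1 := (Finsupp.mapDomain.addMonoidHom (M := ℤ) ((gi c hp hε i).f (L := Ω))).map_sub
      (Finsupp.single (some φ : D.V.pt Ω) 1) (Finsupp.single (D.bp.o Ω) 1)
    have h2 : Finsupp.mapDomain (gi c hp hε i).f
        ((Finsupp.single (some φ) 1 : D.V.pt Ω →₀ ℤ) - Finsupp.single (D.bp.o Ω) 1) =
        (Finsupp.single ((gi c hp hε i).f (some φ : D.V.pt Ω)) 1 : (Ci M hp i).V.pt Ω →₀ ℤ) -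
          (Finsupp.single (none : (Ci M hp i).V.pt Ω) 1 : (Ci M hp i).V.pt Ω →₀ ℤ) := by
      refine h1.trans ?_
      rw [Finsupp.mapDomain.addMonoidHom_apply, Finsupp.mapDomain.addMonoidHom_apply,
        Finsupp.mapDomain_single, Finsupp.mapDomain_single]
      have h3 : (gi c hp hε i).f (D.bp.o Ω) = (none : (Ci M hp i).V.pt Ω) :=
        (gi c hp hε i).f_not gn_none
      rw [h3]
    have h4 : (gi c hp hε i).psi p
        (Finsupp.single ((gi c hp hε i).f (some φ : D.V.pt Ω)) 1 : (Ci M hp i).V.pt Ω →₀ ℤ) =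
        ∑ ζ ∈ nthRootsFinset p (1 : Ω),
          (Finsupp.single (some (zs c φ (hz p (i + 1) ζ))) 1 : D.V.pt Ω →₀ ℤ) :=
      ga_psi c hp (Nat.succ_pos _) (by have := i.2; omega) hε h
    have h5' : (gi c hp hε i).psi p
        (Finsupp.single (none : (Ci M hp i).V.pt Ω) 1 : (Ci M hp i).V.pt Ω →₀ ℤ) =
        Finsupp.single (D.bp.o Ω) (p : ℤ) :=
      (gi c hp hε i).psi_emp p (gi c hp hε i).fb_none
    rw [h2, map_sub, h4, hsum, h5']
    congr 1
    refine Finset.sum_congr rfl fun t _ => ?_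
    have h6 : hz p ((i : ℕ) + 1) (z t) =
        ![z t, z (-((((i : ℕ) + 1 : ℕ) : ZMod p) * t)), 1] := by
      rw [hz, rg_pow zp z0 za (by have := i.2; omega) t]
    rw [hf, h6]
    rfl
  -- the three lines through the point
  have hone : ∀ (j : Fin 3) (t : ZMod p), ∀ i : Fin 3,
      (if i = j then z t else (1 : Ω)) ^ p = 1 := by
    intro j t i
    split_ifs
    · exact zp t
    · exact one_pow p
  have hline : ∀ {ψ : D.A →ₐ[M] Ω}, ψ (sb c) ≠ 0 → ∀ j : Fin 3,
      ∑ t, (Finsupp.single (some (zs c ψ fun i => if i = j then z t else 1)) 1 :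
        D.V.pt Ω →₀ ℤ) - Finsupp.single (D.bp.o Ω) (p : ℤ) ∈ Pc D Ω := by
    intro ψ hψ j
    have h1 := line_pc c hd2 hε hψ j
    rw [hsum] at h1
    exact h1
  have hM0 : ∑ t, (Finsupp.single (some (zs c φ fun i => if i = 0 then z t else 1)) 1 :
      D.V.pt Ω →₀ ℤ) = ∑ t, f t (-(0 * t)) := by
    refine Finset.sum_congr rfl fun t _ => ?_
    have e1 : (fun i : Fin 3 => if i = 0 then z t else 1) = ![z t, z (-(0 * t)), 1] := by
      rw [zero_mul, neg_zero]
      funext i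
      fin_cases i
      · rfl
      · exact z0.symm
      · rfl
    rw [hf, e1]
    rfl
  have hM1 : ∑ t, (Finsupp.single (some (zs c φ fun i => if i = 1 then z t else 1)) 1 :
      D.V.pt Ω →₀ ℤ) = ∑ t, f 0 t := by
    refine Finset.sum_congr rfl fun t _ => ?_
    have e1 : (fun i : Fin 3 => if i = 1 then z t else 1) = ![z 0, z t, 1] := by
      funext i
      fin_cases i
      · exact z0.symm
      · rfl
      · rfl
    rw [hf, e1]
    rfl
  have hM2 : ∑ t, (Finsupp.single (some (zs c φ fun i => if i = 2 then z t else 1)) 1 :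
      D.V.pt Ω →₀ ℤ) = ∑ t, f t (-(-1 * t)) := by
    refine Eq.trans ?_ (Equiv.sum_comp (Equiv.neg (ZMod p)) fun t => f t (-(-1 * t)))
    refine Finset.sum_congr rfl fun t _ => ?_
    have e0 : z (-t) * z t = 1 := by
      rw [← za, neg_add_cancel, z0]
    have e2 : (Equiv.neg (ZMod p)) t = -t := rfl
    have e3 : -(-1 * -t) = -t := by ring
    have e4 : ∀ i, (![z (-t), z (-t), 1] : Fin 3 → Ω) i = z (-t) * (if i = 2 then z t else 1) := by
      intro i
      fin_cases i
      · simp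
      · simp
      · simp [e0]
    rw [e2, e3, hf, (zs_eq c hε hd h (hone 2 t) (hv (-t) (-t))).2 ⟨z (-t), e4⟩]
    rfl
  -- the parallel lines
  have hP : ∀ s, ∑ t, f s t - Finsupp.single (D.bp.o Ω) (p : ℤ) ∈ Pc D Ω := by
    intro s
    have hv' : ∀ i, (![z s, 1, 1] : Fin 3 → Ω) i ^ p = 1 := by
      have h1 := hv s 0
      rw [z0] at h1
      exact h1
    have h1 := hline (zs_gn c hε hd h hv') 1
    have h2 : ∑ t, (Finsupp.single (some (zs c (zs c φ ![z s, 1, 1])
        fun i => if i = 1 then z t else 1)) 1 : D.V.pt Ω →₀ ℤ) = ∑ t, f s t := by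
      refine Finset.sum_congr rfl fun t _ => ?_
      have e1 : (fun i : Fin 3 => (if i = 1 then z t else 1) * (![z s, 1, 1] : Fin 3 → Ω) i) =
          ![z s, z t, 1] := by
        funext i
        fin_cases i
        · exact one_mul _
        · exact mul_one _
        · exact one_mul _
      rw [hf, zs_zs c hε hd h hv' (hone 1 t), e1]
      rfl
    rw [h2] at h1
    exact h1
  have h0 := hline h 0
  have h1 := hline h 1
  have h2 := hline h 2
  rw [hM0] at h0
  rw [hM1] at h1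
  rw [hM2] at h2
  have hs := lines hp f
  rw [rg_split hp fun a => ∑ x : ZMod p, f x (-(a * x))] at hs
  have hS : ∑ s, (∑ t, f s t - Finsupp.single (D.bp.o Ω) (p : ℤ)) ∈ Pc D Ω :=
    sum_mem fun s _ => hP s
  have e5 : (Finsupp.single (D.bp.o Ω) (p : ℤ) : D.V.pt Ω →₀ ℤ) =
      p • Finsupp.single (D.bp.o Ω) 1 := by
    rw [Finsupp.smul_single, nsmul_eq_mul, mul_one]
  have key : p • ((Finsupp.single (some φ) 1 : D.V.pt Ω →₀ ℤ) - Finsupp.single (D.bp.o Ω) 1) -
      ∑ i, (gi c hp hε i).psi p (Finsupp.mapDomain (gi c hp hε i).f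
        ((Finsupp.single (some φ) 1 : D.V.pt Ω →₀ ℤ) - Finsupp.single (D.bp.o Ω) 1)) =
      (∑ t, f t (-(0 * t)) - Finsupp.single (D.bp.o Ω) (p : ℤ)) +
      (∑ t, f 0 t - Finsupp.single (D.bp.o Ω) (p : ℤ)) +
      (∑ t, f t (-(-1 * t)) - Finsupp.single (D.bp.o Ω) (p : ℤ)) -
      ∑ s, (∑ t, f s t - Finsupp.single (D.bp.o Ω) (p : ℤ)) := by
    rw [Finset.sum_congr rfl fun i _ => hpsi i, Finset.sum_sub_distrib, Finset.sum_sub_distrib,
      Finset.sum_const, Finset.sum_const, Finset.card_univ, Finset.card_univ, ZMod.card,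
      Fintype.card_fin, e5, smul_sub, ← hf0]
    have e6 : ∃ q, p = q + 2 := ⟨p - 2, by omega⟩
    have e7 : p • p • (Finsupp.single (D.bp.o Ω) 1 : D.V.pt Ω →₀ ℤ) =
        (p - 2) • p • (Finsupp.single (D.bp.o Ω) 1 : D.V.pt Ω →₀ ℤ) +
          (2 : ℕ) • p • (Finsupp.single (D.bp.o Ω) 1 : D.V.pt Ω →₀ ℤ) := by
      rw [← add_smul]
      congr 1
      omega
    have hs' : p • f 0 0 = ∑ i : Fin (p - 2), ∑ t, f t (-((((i : ℕ) + 1 : ℕ) : ZMod p) * t)) +
        ∑ t, f t (-(0 * t)) + ∑ t, f t (-(-1 * t)) + ∑ t, f 0 t - ∑ s, ∑ t, f s t := by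
      rw [hs]
      abel
    rw [hs', e7, two_nsmul]
    abel
  rw [key]
  exact sub_mem (add_mem (add_mem h0 h1) h2) hS

end DK
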