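import Pool.Agent.Lib.MP_f80667_ag.Dk.Me
import Pool.Agent.Lib.MP_f80667_ag.Dk.La
import Pool.Agent.Lib.MP_f80667_ag.Dk.Rg

/-! Good reduction of the curves `C_a` over the ring of integers. -/

open ZC BE PE CV QS Polynomial IntermediateField DH IsLocalRing

namespace DK

/-- The numbers for all curves. -/
structure Rq (M : Type) [Field M] (p : ℕ) where
  l : M
  π : M
  s : Fin (p - 2) → M
  t : Fin (p - 2) → M
  hl : l ^ (p - 1) = p
  hπ : π ^ 2 = l ^ p
  hs : ∀ i : Fin (p - 2), (((i : ℕ) : M) + 2) * s i ^ p = -(((i : ℕ) : M) + 1)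
  ht : ∀ i, t i ^ p = 1 + s i ^ p

variable {M : Type} [Field M] [CharZero M] {p : ℕ} (hp : p.Prime) {Ω : Type} [Field Ω]
  [Algebra M Ω] [IsAlgClosure M Ω] (L : Ld M Ω)

/-- The numbers are integral. Proof: `L.nm` of the numbers: `nm (i + 1) = nm (i + 2) = 1` (`L.nat_unit`), so `nm (s i) = 1`,
`nm (t i) = 1`. -/
theorem exists_rp (hL : L.p = p) (R : Rq M p) (i : Fin (p - 2)) :
    Nonempty (Rp (Ok L) p (i + 1)) := by
  have hp3 : 3 ≤ p := by
    have := i.2
    omega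
  have key : ∀ (x : M) (n : ℕ), n ≠ 0 → L.nm (algebraMap M Ω x) ^ n ≤ 1 → x ∈ Ok L :=
    fun x n hn h => mem_Ok.2 ((pow_le_one_iff_of_nonneg (L.nonneg _) hn).1 h)
  have hnat : ∀ n : ℕ, 0 < n → n < p → L.nm (algebraMap M Ω (n : M)) = 1 := by
    intro n h0 h1
    rw [map_natCast]
    refine L.nat_unit fun h2 => ?_
    rw [hL] at h2
    exact absurd (Nat.le_of_dvd h0 h2) (not_le.2 h1)
  have hl : L.nm (algebraMap M Ω R.l) ^ (p - 1) ≤ 1 := by
    rw [← L.pow, ← map_pow, R.hl, map_natCast]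
    exact L.nat_le p
  have hl1 : L.nm (algebraMap M Ω R.l) ≤ 1 := key _ _ (by omega) hl
  have hπ : L.nm (algebraMap M Ω R.π) ^ 2 ≤ 1 := by
    rw [← L.pow, ← map_pow, R.hπ, map_pow, L.pow]
    exact pow_le_one₀ (L.nonneg _) hl1
  have hs : L.nm (algebraMap M Ω (R.s i)) ^ p ≤ 1 := by
    have h1 := congrArg (fun x => L.nm (algebraMap M Ω x)) (R.hs i)
    have h2 : (((i : ℕ) : M) + 2) = ((i + 2 : ℕ) : M) := by push_cast; ring
    have h3 : (((i : ℕ) : M) + 1) = ((i + 1 : ℕ) : M) := by push_cast; ring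
    rw [h2, h3, map_mul, L.mul, map_neg, L.neg, hnat _ (by omega) (by have := i.2; omega),
      hnat _ (by omega) (by have := i.2; omega), one_mul, map_pow, L.pow] at h1
    exact h1.le
  have ht : L.nm (algebraMap M Ω (R.t i)) ^ p ≤ 1 := by
    rw [← L.pow, ← map_pow, R.ht, map_add, map_one]
    refine (L.add _ _).trans (max_le L.one.le ?_)
    rw [map_pow, L.pow]
    exact hs
  refine ⟨⟨⟨R.l, key _ _ (by omega) hl⟩, ⟨R.π, key _ _ two_ne_zero hπ⟩,
    ⟨R.s i, key _ _ (by omega) hs⟩, ⟨R.t i, key _ _ (by omega) ht⟩, ?_, ?_, ?_, ?_⟩⟩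
  · refine Subtype.ext ?_
    push_cast
    exact R.hl
  · refine Subtype.ext ?_
    push_cast
    exact R.hπ
  · refine Subtype.ext ?_
    push_cast
    have h1 := R.hs i
    have h2 : (((i : ℕ) : M) + 1 + 1) = ((i : ℕ) : M) + 2 := by ring
    rw [h2]
    exact h1
  · refine Subtype.ext ?_
    push_cast
    exact R.ht i

/-- **Good reduction.** Proof: `exists_rp`, `cpl_ok`, `dvrOk`, `mod_ca`. -/
theorem mod_ci (hL : L.p = p) (R : Rq M p) (i : Fin (p - 2)) :
    Nonempty (Mod (Ci M hp i) (Ok L) M) := by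
  obtain ⟨R'⟩ := exists_rp L hL R i
  have h1 := cpl_ok L
  refine mod_ca M R' hp _ _ ?_
  refine (max_iff L (algebraMap M Ω) (Ok L) (fun _ => Iff.rfl) _).2 ?_
  have h2 := L.lt
  rw [hL] at h2
  have h3 : algebraMap M Ω (((p : Ok L)) : M) = (p : Ω) := by
    have h4 : (((p : Ok L)) : M) = (p : M) := map_natCast (Ok L).subtype p
    rw [h4, map_natCast]
  rw [h3]
  exact h2

end DK
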