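import Pool.Agent.Lib.MP_f80667_ag.Dk.Lb
import Pool.Agent.Lib.MP_f80667_ag.Dk.Lc
import Pool.Agent.Lib.MP_f80667_ag.Dh.L5

/-! The local theorem for hypersurfaces of odd prime degree `p` at the places over `p`. -/

open ZC BE PE CV QS Polynomial IntermediateField DH

namespace DK

variable {F : Type} [Field F] {n p : ℕ} {a : Fin (n + 2) → F} {K : Type} [Field K] [CharZero K]
  [Algebra F K] {Ω : Type} [Field Ω] [Algebra K Ω] [Algebra F Ω] [IsScalarTower F K Ω]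
  [IsAlgClosure K Ω] {L : Ld K Ω}

/-- The numbers and the roots in one extension. Proof: `exists_rt` (`N = ⊥`), then `exists_roots` with `D = 2 p (p - 1)`: first `l`
(exponent `p - 1`) and the `s i`, `t i` (exponent `p`, of `- (i + 1) / (i + 2)`, `1 / (i + 2)`), then `π` (exponent `2`, of
`l ^ p`); `Rt.up`. -/
theorem exists_rq (hp : p.Prime) (h2 : p ≠ 2) (ha : ∀ i, a i ≠ 0) :
    ∃ N' : IntermediateField K Ω, FiniteDimensional K N' ∧ Nonempty (Rt p a N') ∧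
      Nonempty (Rq N' p) ∧ Pf (2 * p * (p - 1)) (Module.finrank K N') := by
  have hc : IsAlgClosed Ω := IsAlgClosure.isAlgClosed K
  have hz : CharZero Ω := charZero_of_injective_algebraMap (algebraMap K Ω).injective
  have h3 : 2 < p := lt_of_le_of_ne hp.two_le (Ne.symm h2)
  have hnat : ∀ (N : IntermediateField K Ω) (k : ℕ), (k : Ω) ∈ N := fun N k =>
    IntermediateField.natCast_mem N k
  obtain ⟨N₁, l, -, hf₁, hl, hl2, k₁, hk₁, hp₁⟩ :=
    exists_root (⊥ : IntermediateField K Ω) (d := p - 1) (by omega) (S := ((p : ℕ) : Ω)) (hnat _ p)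
  obtain ⟨N₂, π, h₂, hf₂, hπ, hπ2, k₂, hk₂, hp₂⟩ :=
    exists_root N₁ (d := 2) two_pos (S := l ^ p) (pow_mem hl p)
  obtain ⟨N₃, s, h₃, hf₃, hs, k₃, hk₃, hp₃⟩ :=
    exists_roots N₂ (Finset.univ : Finset (Fin (p - 2))) (fun _ => p) (fun _ _ => hp.pos)
      (fun i => -(((i : ℕ) + 1 : ℕ) : Ω) / (((i : ℕ) + 2 : ℕ) : Ω))
      (fun i _ => div_mem (neg_mem (hnat _ _)) (hnat _ _)) (D := p) (fun _ _ => dvd_rfl)
  obtain ⟨N₄, t, h₄, hf₄, ht, k₄, hk₄, hp₄⟩ :=
    exists_roots N₃ (Finset.univ : Finset (Fin (p - 2))) (fun _ => p) (fun _ _ => hp.pos)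
      (fun i => 1 + s i ^ p)
      (fun i hi => add_mem (one_mem _) (pow_mem (hs i hi).1 p)) (D := p) (fun _ _ => dvd_rfl)
  obtain ⟨N', h₅, hf₅, hT, k₅, hk₅, hp₅⟩ := exists_rt (d := p) hp.pos ha N₄
  have hlN : l ∈ N' := h₅ (h₄ (h₃ (h₂ hl)))
  have hπN : π ∈ N' := h₅ (h₄ (h₃ hπ))
  have hsN : ∀ i, s i ∈ N' := fun i => h₅ (h₄ (hs i (Finset.mem_univ i)).1)
  have htN : ∀ i, t i ∈ N' := fun i => h₅ (ht i (Finset.mem_univ i)).1
  have hss : ∀ i : Fin (p - 2), (((i : ℕ) : Ω) + 2) * s i ^ p = -(((i : ℕ) : Ω) + 1) := by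
    intro i
    have h6 : s i ^ p = -(((i : ℕ) + 1 : ℕ) : Ω) / (((i : ℕ) + 2 : ℕ) : Ω) :=
      (hs i (Finset.mem_univ i)).2
    have h7 : (((i : ℕ) + 2 : ℕ) : Ω) ≠ 0 := Nat.cast_ne_zero.2 (by omega)
    rw [h6]
    push_cast at h7 ⊢
    rw [mul_div_cancel₀ _ h7]
  refine ⟨N', hf₅, hT, ⟨?_⟩, ?_⟩
  · exact
      { l := ⟨l, hlN⟩
        π := ⟨π, hπN⟩
        s := fun i => ⟨s i, hsN i⟩
        t := fun i => ⟨t i, htN i⟩
        hl := by
          apply Subtype.ext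
          push_cast
          exact hl2
        hπ := Subtype.ext hπ2
        hs := fun i => by
          apply Subtype.ext
          push_cast
          exact hss i
        ht := fun i => Subtype.ext (ht i (Finset.mem_univ i)).2 }
  · have d1 : p - 1 ∣ 2 * p * (p - 1) := Dvd.intro_left _ rfl
    have d2 : 2 ∣ 2 * p * (p - 1) := by
      rw [mul_assoc]
      exact Dvd.intro _ rfl
    have d3 : p ∣ 2 * p * (p - 1) := by
      rw [mul_comm 2 p, mul_assoc]
      exact Dvd.intro _ rfl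
    rw [hk₅, hk₄, hk₃, hk₂, hk₁, IntermediateField.finrank_bot, one_mul]
    exact ((((hp₁.mono d1).mul (hp₂.mono d2)).mul (hp₃.mono d3)).mul (hp₄.mono d3)).mul
      (hp₅.mono d3)

/-- **The local theorem for odd prime degree, `v` over the degree.** Proof: `exists_rq`, `L.exists_bsL`, `exists_fer`, `mod_ci`,
`dvnmp`, `dvG_of` (`exPr`), `con`, `dm_desc` (compare `loc5` in `Dh/L5.lean`). -/
theorem locp (hp : p.Prime) (h2 : p ≠ 2) (hn : 2 ≤ n) (hL : L.p = p) (ha : ∀ i, a i ≠ 0) {l : ℕ}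
    (hl : l.Prime) (h : ¬ l ∣ 2 * p * (p - 1)) : Dl (Xd p a) K Ω l := by
  obtain ⟨N', hf, ⟨T⟩, ⟨R⟩, hpf⟩ := exists_rq (K := K) (Ω := Ω) hp h2 ha
  obtain ⟨L', hp', -⟩ := L.exists_bsL N'
  have hcl : IsAlgClosure N' Ω := ⟨IsAlgClosure.isAlgClosed K, inferInstance⟩
  have hcz : CharZero N' := charZero_of_injective_algebraMap (algebraMap K N').injective
  obtain ⟨D, ⟨c⟩⟩ := exists_fer (M := N') (d := p) hp.two_le T.hε
  have hpp : L'.p = p := hp'.trans hL
  have hlp : ¬ l ∣ p := fun hd => h ((hd.mul_left 2).mul_right (p - 1))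
  have hne : l ≠ p := fun he => hlp (by rw [he])
  obtain ⟨hd, hn'⟩ := dvnmp c hp L' h2 T.hε (fun i => mod_ci hp L' hpp R i) hl hne
    (by rw [hpp]; exact hne)
  have hG : DvG (fun _ : Fin n => D.V) N' Ω l :=
    dvG_of (L := L') (C := fun _ : Fin n => D) (fun _ => exPr D) (fun _ => hd) (fun _ => hn')
  have hcon : Dl (Xd p a) N' Ω l := con T c hl hlp hp.two_le hp.pos hn hG
  exact dm_desc fct N' (hpf.coprime hl h) hcon

end DK
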