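import Pool.Agent.Lib.MP_f80667_ag.Dh.Bg

/-!
A rational map from a curve `D` to a curve `E` which is regular at the points of `D` where `b ≠ 0`, given by a homomorphism
of the affine ring of `E` to the localization of the affine ring of `D` at `b`. The other points go to infinity.
-/

open ZC BE PE CV QS Polynomial DH

namespace DK

/-- A rational map. -/
structure Gr {M : Type} [Field M] (D E : Crv M) where
  b : D.A
  ne : b ≠ 0
  h : E.A →ₐ[M] Localization.Away b

namespace Gr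

variable {M : Type} [Field M] {D E : Crv M} (g : Gr D E) {L : Type} [Field L] [Algebra M L]

/-- `y = b ^ k * (pull-back of x)`. -/
def Rl (x : E.A) (y : D.A) (k : ℕ) : Prop :=
  algebraMap D.A (Localization.Away g.b) y = algebraMap D.A (Localization.Away g.b) g.b ^ k * g.h x

/-- Proof: `IsLocalization.Away.surj`. -/
theorem exists_rl (x : E.A) : ∃ (y : D.A) (k : ℕ), g.Rl x y k := by
  obtain ⟨n, a, h⟩ := IsLocalization.Away.surj g.b (g.h x)
  exact ⟨a, n, by rw [Rl, ← h, mul_comm]⟩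

/-- Proof: lift `φ` to the localization and compose with `g.h`. -/
theorem exists_f {φ : D.A →ₐ[M] L} (h : φ g.b ≠ 0) : ∃ ψ : E.A →ₐ[M] L,
    ∀ x y k, g.Rl x y k → φ y = φ g.b ^ k * ψ x := by
  have hu : IsUnit (φ g.b) := isUnit_iff_ne_zero.2 h
  have h1 : ∀ y : Submonoid.powers g.b, IsUnit (φ y) := by
    rintro ⟨_, n, rfl⟩
    rw [map_pow]
    exact hu.pow n
  refine ⟨(IsLocalization.liftAlgHom (M := Submonoid.powers g.b) (S := Localization.Away g.b)
    (f := φ) h1).comp g.h, fun x y k hr => ?_⟩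
  have h2 := congrArg (IsLocalization.liftAlgHom (M := Submonoid.powers g.b)
    (S := Localization.Away g.b) (f := φ) h1) hr
  rw [map_mul, map_pow] at h2
  have h3 : ∀ z : D.A, IsLocalization.liftAlgHom (M := Submonoid.powers g.b)
      (S := Localization.Away g.b) (f := φ) h1 (algebraMap D.A (Localization.Away g.b) z) = φ z :=
    fun z => IsLocalization.lift_eq _ z
  rw [h3, h3] at h2
  exact h2

open Classical in
/-- The map. -/
noncomputable def f (P : D.V.pt L) : E.V.pt L :=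
  if h : Gn g.b P then some (g.exists_f h.choose_spec.2).choose else none

theorem f_not {P : D.V.pt L} (h : ¬ Gn g.b P) : g.f P = none := dif_neg h

/-- The value. -/
theorem f_gn {φ : D.A →ₐ[M] L} (h : φ g.b ≠ 0) : ∃ ψ : E.A →ₐ[M] L,
    g.f (some φ : D.V.pt L) = some ψ ∧ ∀ x y k, g.Rl x y k → φ y = φ g.b ^ k * ψ x := by
  have h1 : Gn g.b (some φ : D.V.pt L) := gn_some.2 h
  have h2 : h1.choose = φ := (Option.some_injective _ h1.choose_spec.1).symm
  have h3 := (g.exists_f h1.choose_spec.2).choose_spec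
  refine ⟨(g.exists_f h1.choose_spec.2).choose, dif_pos h1, fun x y k hr => ?_⟩
  have h4 := h3 x y k hr
  have h5 : ∀ z, h1.choose z = φ z := fun z => DFunLike.congr_fun h2 z
  rw [← h5 y, ← h5 g.b]
  exact h4

/-- Uniqueness. -/
theorem f_uniq {φ : D.A →ₐ[M] L} (h : φ g.b ≠ 0) {ψ ψ' : E.A →ₐ[M] L}
    (h1 : ∀ x y k, g.Rl x y k → φ y = φ g.b ^ k * ψ x)
    (h2 : ∀ x y k, g.Rl x y k → φ y = φ g.b ^ k * ψ' x) : ψ = ψ' := by
  refine AlgHom.ext fun x => ?_
  obtain ⟨y, k, hr⟩ := g.exists_rl x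
  have h3 := (h1 x y k hr).symm.trans (h2 x y k hr)
  exact mul_left_cancel₀ (pow_ne_zero k h) h3

/-- Naturality. -/
theorem f_map {N : Type} [Field N] [Algebra M N] (σ : L →ₐ[M] N) (P : D.V.pt L) :
    E.V.map σ (g.f P) = g.f (D.V.map σ P) := by
  by_cases hP : Gn g.b P
  · obtain ⟨φ, rfl, hφ⟩ := hP
    obtain ⟨ψ, h1, h2⟩ := g.f_gn hφ
    have h3 : (σ.comp φ) g.b ≠ 0 := fun h => hφ ((map_eq_zero σ).1 h)
    obtain ⟨ψ', h4, h5⟩ := g.f_gn h3
    have h6 : D.V.map σ (some φ : D.V.pt L) = (some (σ.comp φ) : D.V.pt N) := rfl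
    rw [h6, h4, h1]
    change (some (σ.comp ψ) : E.V.pt N) = some ψ'
    congr 1
    refine g.f_uniq h3 (fun x y k hr => ?_) h5
    change σ (φ y) = σ (φ g.b) ^ k * σ (ψ x)
    rw [h2 x y k hr, map_mul, map_pow]
  · have h1 : ¬ Gn g.b (D.V.map σ P) := fun h => hP ((gn_map σ P).1 h)
    rw [g.f_not hP, g.f_not h1]
    rfl

end Gr

end DK
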