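import Pool.Agent.Lib.MP_f80667_ag.Dk.Gb

/-! The orders of the pull-back of a function. -/

open ZC BE PE CV QS Polynomial TensorProduct DH

namespace DK

section bot

variable {F : Type} [Field F] {C : Crv F} {Ω : Type} [Field Ω] [Algebra F Ω]

private theorem idl_ne_bot (φ : C.A →ₐ[F] Ω) {z w : C.V.pt Ω →₀ ℤ} (hz : Efc z)
    (hw : Finsupp.single (some φ) 1 = w) : CV.idl C z ≠ ⊥ := by
  intro h
  have h1 : Efc w := by
    rw [← hw]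
    exact efc_single φ zero_le_one
  have h2 : CV.idl C (z + w) = CV.idl C z := by
    rw [idl_add hz.1 h1.1, h]
    exact Submodule.bot_mul _
  have h3 := idl_inj (hz.add h1) hz h2
  have h5 : w = 0 := by
    have h4 : z + w = z + 0 := by rw [h3, add_zero]
    exact add_left_cancel h4
  rw [← hw] at h5
  exact one_ne_zero (Finsupp.single_eq_zero.1 h5)

private theorem vo_bot (φ : C.A →ₐ[F] Ω) : vo φ (0 : Ω ⊗[F] C.A) = 0 := by
  unfold vo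
  have h : cy (Ideal.span {(0 : Ω ⊗[F] C.A)}) = 0 := by
    unfold cy
    refine dif_neg ?_
    rintro ⟨z, hz, h⟩
    exact idl_ne_bot φ hz rfl (h.trans (Ideal.span_singleton_eq_bot.2 rfl))
  rw [h]
  rfl

end bot

namespace Gr

variable {M : Type} [Field M] {D E : Crv M} {g : Gr D E}
  {Ω : Type} [Field Ω] [Algebra M Ω] {h h' : Ω ⊗[M] E.A} {H H' : Ω ⊗[M] D.A} {k k' : ℕ}

variable [IsAlgClosed Ω]

omit [IsAlgClosed Ω] in
private theorem tb_ne (g : Gr D E) : ((1 : Ω) ⊗ₜ[M] g.b : Ω ⊗[M] D.A) ≠ 0 := by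
  intro h
  have h1 := D.dgO_one Ω g.b
  rw [h, (D.dgO Ω).zero] at h1
  exact g.ne ((D.G.bot _).1 h1.symm)

/-- Uniqueness. Proof: `eq_of_pts` with `b`. -/
theorem Pb.uniq (hb : g.Pb h H k) (hb' : g.Pb h H' k) : H = H' := by
  refine eq_of_pts (tb_ne g) fun φ hφ => ?_
  rw [vx_tmul, one_mul] at hφ
  obtain ⟨ψ, hψ, -⟩ := g.f_gn hφ
  rw [hb φ ψ hφ hψ, hb' φ ψ hφ hψ]

/-- The factorisation of a pull-back. -/
private theorem core {q Q} {j : ℕ} (hh : h ≠ 0) (hb : g.Pb h H k) (hq : g.Pb q Q j)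
    {φ : D.A →ₐ[M] Ω} {ψ : E.A →ₐ[M] Ω} (hφ : φ g.b ≠ 0)
    (hψ : g.f (some φ : D.V.pt Ω) = some ψ) (hv : vo ψ q = 1) :
    ∃ (m : ℕ) (U V : Ω ⊗[M] D.A), vo ψ h = m ∧ vx φ U ≠ 0 ∧ vx φ V ≠ 0 ∧
      U * H = V * Q ^ m := by
  obtain ⟨m, s, t, hm, hs, ht, hst⟩ := vo_fac hh hv
  obtain ⟨S, kS, hS⟩ := exists_pb g s
  obtain ⟨T, kT, hT⟩ := exists_pb g t
  have hB : vx φ ((1 : Ω) ⊗ₜ[M] g.b : Ω ⊗[M] D.A) ≠ 0 := by
    rw [vx_tmul, one_mul]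
    exact hφ
  have h1 := (hS.mul hb).up (kT + m * j)
  have h2 := (hT.mul (hq.pow m)).up (kS + k)
  rw [hst, add_comm (kS + k) (kT + m * j)] at h1
  have h3 := h1.uniq h2
  refine ⟨m, (1 ⊗ₜ g.b) ^ (kT + m * j) * S, (1 ⊗ₜ g.b) ^ (kS + k) * T, hm, ?_, ?_, ?_⟩
  · rw [map_mul, map_pow, hS φ ψ hφ hψ]
    exact mul_ne_zero (pow_ne_zero _ hB) (mul_ne_zero (pow_ne_zero _ hφ) hs)
  · rw [map_mul, map_pow, hT φ ψ hφ hψ]
    exact mul_ne_zero (pow_ne_zero _ hB) (mul_ne_zero (pow_ne_zero _ hφ) ht)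
  · rw [mul_assoc, h3, mul_assoc]

/-- The orders of a pull-back. Proof: let `q` be the function of `Pa` at `φ` and `q₀` a uniformizer at `ψ`
(`exists_unif`); `s h = t q₀ ^ m`, `s' q = t' q₀ ^ j` (`vo_fac`, `q ≠ 0` because its pull-back is not `0`); pull back (`Pb.mul`,
`Pb.up`, `Pb.uniq`), the pull-backs of `s`, `t`, .. do not vanish at `φ`, `b` neither: `1 = vo φ Q = j * vo φ Q₀`, so
`vo φ Q₀ = 1` and `vo φ H = m`. In the same way `H ≠ 0`. -/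
theorem Pb.vo (hp : g.Pa Ω) (hh : h ≠ 0) (hb : g.Pb h H k) {φ : D.A →ₐ[M] Ω}
    {ψ : E.A →ₐ[M] Ω} (hφ : φ g.b ≠ 0) (hψ : g.f (some φ : D.V.pt Ω) = some ψ) :
    H ≠ 0 ∧ DH.vo φ H = DH.vo ψ h := by
  have := D.domO Ω
  obtain ⟨q, Q, j, hq, hq0, hQ⟩ := hp φ hφ
  have hQ0 : Q ≠ 0 := by
    rintro rfl
    rw [vo_bot] at hQ
    exact zero_ne_one hQ
  have hqn : q ≠ 0 := by
    rintro rfl
    refine hQ0 (hq.uniq (H' := 0) fun φ' ψ' _ _ => ?_)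
    rw [map_zero, map_zero, mul_zero]
  obtain ⟨r, hr, -, hr1⟩ := exists_unif (Ω := Ω) ψ
  obtain ⟨R, l, hR⟩ := exists_pb g r
  obtain ⟨m, U, V, hm, hU, hV, hUV⟩ := core hqn hq hR hφ hψ hr1
  have hne : ∀ W : Ω ⊗[M] D.A, vx φ W ≠ 0 → W ≠ 0 := by
    rintro W hW rfl
    exact hW (map_zero _)
  have hm0 : m ≠ 0 := by
    rintro rfl
    rw [Nat.cast_zero, vo_zero hqn] at hm
    exact hm (hq0 ψ hψ)
  have hRm : R ^ m ≠ 0 := by
    intro h0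
    rw [h0, mul_zero] at hUV
    exact mul_ne_zero (hne U hU) hQ0 hUV
  have hR0 : R ≠ 0 := by
    rintro rfl
    exact hRm (zero_pow hm0)
  have hRv : DH.vo φ R = 1 := by
    have h1 := congrArg (DH.vo φ) hUV
    rw [vo_mul (hne U hU) hQ0, vo_mul (hne V hV) hRm, vo_pow hR0, hQ, (vo_zero (hne U hU)).2 hU,
      (vo_zero (hne V hV)).2 hV, zero_add, zero_add] at h1
    exact Int.eq_one_of_mul_eq_one_left (vo_nonneg φ R) h1.symm
  obtain ⟨m', U', V', hm', hU', hV', hUV'⟩ := core hh hb hR hφ hψ hr1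
  have hRm' : R ^ m' ≠ 0 := pow_ne_zero _ hR0
  have hH : H ≠ 0 := by
    rintro rfl
    rw [mul_zero] at hUV'
    exact mul_ne_zero (hne V' hV') hRm' hUV'.symm
  refine ⟨hH, ?_⟩
  have h1 := congrArg (DH.vo φ) hUV'
  rw [vo_mul (hne U' hU') hH, vo_mul (hne V' hV') hRm', vo_pow hR0, hRv,
    (vo_zero (hne U' hU')).2 hU', (vo_zero (hne V' hV')).2 hV', zero_add, zero_add, mul_one] at h1
  rw [h1, hm']

/-- Proof: `Pb.vo` at any point with `b ≠ 0` (`eq_of_pts`). -/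
theorem Pb.ne (hp : g.Pa Ω) (hh : h ≠ 0) (hb : g.Pb h H k) : H ≠ 0 := by
  have := D.domO Ω
  by_contra h0
  have h1 : ∀ φ : D.A →ₐ[M] Ω, φ g.b = 0 := by
    intro φ
    by_contra hφ
    obtain ⟨ψ, hψ, -⟩ := g.f_gn hφ
    exact (Pb.vo hp hh hb hφ hψ).1 h0
  have h2 : (0 : Ω ⊗[M] D.A) = 1 := by
    refine eq_of_pts (tb_ne g) fun φ hφ => ?_
    rw [vx_tmul, one_mul] at hφ
    exact absurd (h1 φ) hφ
  exact zero_ne_one h2

end Gr

end DK
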