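import Pool.Agent.Lib.MP_f80667_ag.Dk.Ge
import Pool.Agent.Lib.MP_f80667_ag.Dh.Ba

/-! The pull-back of a principal cycle, up to the points where `b = 0`. -/

open ZC BE PE CV QS Polynomial TensorProduct DH

namespace DK

variable {M : Type} [Field M] {D E : Crv M} {Ω : Type} [Field Ω] [Algebra M Ω]

private theorem ba_deg (C : Crv M) (x : C.V.pt Ω) (n : ℤ) :
    C.V.deg Ω (Finsupp.single x n) = n :=
  Finsupp.liftAddHom_apply_single _ _ _

variable (g : Gr D E) [IsAlgClosed Ω]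

/-- **Pull-back of principal cycles.** Proof: `pc_split`: `z = cy h - cy h' + k [∞]`; pull-backs `H`, `H'` with the same
exponent (`exists_pb`, `Pb.up`); `w = cy H - cy H' + k' [∞]` of degree `0` is in `Pc` (`pc_of_rel` or `pc_split` backwards:
`pc_span`), and `w - psi z` vanishes at the finite points with `b ≠ 0` (`psi_apply`, `Pb.vo`): `pc_exc`. -/
theorem psi_pc (hp : g.Pa Ω) {k : ℕ} (hk : ∀ φ : D.A →ₐ[M] Ω, φ g.b = 0 →
    k • ((Finsupp.single (some φ) 1 : D.V.pt Ω →₀ ℤ) - Finsupp.single (D.bp.o Ω) 1) ∈ Pc D Ω)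
    (r : ℤ) {z : E.V.pt Ω →₀ ℤ} (hz : z ∈ Pc E Ω) : k • g.psi r z ∈ Pc D Ω := by
  have hdz : D.V.deg Ω (g.psi r z) = 0 := by
    rw [g.psi_deg r z, deg_Pc hz, mul_zero]
  obtain ⟨h, h', kk, hh, hh', hzs⟩ := pc_split hz
  obtain ⟨H, k1, hH⟩ := Gr.exists_pb g h
  obtain ⟨H', k2, hH'⟩ := Gr.exists_pb g h'
  have hH0 : H ≠ 0 := hH.ne hp hh
  have hH0' : H' ≠ 0 := hH'.ne hp hh'
  obtain ⟨m, hm⟩ := (D.dgO Ω).exists_nat hH0
  obtain ⟨m', hm'⟩ := (D.dgO Ω).exists_nat hH0'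
  obtain ⟨w, hw⟩ : ∃ w : D.V.pt Ω →₀ ℤ, w = (cy (Ideal.span {H}) -
      Finsupp.single (D.bp.o Ω) (m : ℤ)) - (cy (Ideal.span {H'}) -
      Finsupp.single (D.bp.o Ω) (m' : ℤ)) := ⟨_, rfl⟩
  have hwP : w ∈ Pc D Ω := by
    rw [hw]
    exact AddSubgroup.sub_mem _ (pc_span hm) (pc_span hm')
  have hs : ∀ (C : Crv M) (j : ℤ) (φ : C.A →ₐ[M] Ω),
      (Finsupp.single (C.bp.o Ω) j : C.V.pt Ω →₀ ℤ) (some φ) = 0 := fun C j φ =>
    Finsupp.single_eq_of_ne (by exact Option.some_ne_none φ)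
  have hv : k • (g.psi r z - w) ∈ Pc D Ω := by
    refine pc_exc hk ?_ fun φ hφ => ?_
    · rw [map_sub, hdz, deg_Pc hwP, sub_zero]
    · obtain ⟨ψ, hψ, -⟩ := g.f_gn hφ
      have h1 : g.psi r z (some φ) = vo ψ h - vo ψ h' := by
        rw [g.psi_apply hp r z φ, if_pos hφ, hψ, hzs, Finsupp.add_apply, Finsupp.sub_apply,
          hs E, add_zero]
        rfl
      have h2 : w (some φ) = vo φ H - vo φ H' := by
        rw [hw, Finsupp.sub_apply, Finsupp.sub_apply, Finsupp.sub_apply, hs D, hs D, sub_zero,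
          sub_zero]
        rfl
      rw [Finsupp.sub_apply, h1, h2, (hH.vo hp hh hφ hψ).2, (hH'.vo hp hh' hφ hψ).2, sub_self]
  have h3 : k • g.psi r z = k • (g.psi r z - w) + k • w := by
    rw [← smul_add, sub_add_cancel]
  rw [h3]
  exact AddSubgroup.add_mem _ hv (AddSubgroup.nsmul_mem _ hwP k)

end DK
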