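import Pool.Agent.Lib.MP_f80667_ag.Dk.Rd

/-! The maps to the curves `C_a` are unramified where `b ≠ 0`. -/

open ZC BE PE CV QS Polynomial TensorProduct DH

namespace DK

variable {M : Type} [Field M] [CharZero M] {p a : ℕ} {ε : M} {D : Crv M} (c : Cu D p (Af p ε))
  (hp : p.Prime) (ha : 0 < a) (h : a + 1 < p) (hε : ε ^ p = -1)
  {Ω : Type} [Field Ω] [Algebra M Ω] [IsAlgClosed Ω]

omit [CharZero M] [IsAlgClosed Ω] in
private theorem re_tm (w : Ω) (y : D.A) : w ⊗ₜ[M] y =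
    algebraMap Ω (Ω ⊗[M] D.A) w * ((1 : Ω) ⊗ₜ[M] y) := by
  rw [Algebra.TensorProduct.algebraMap_apply, Algebra.TensorProduct.tmul_mul_tmul, one_mul, mul_one]
  rfl

omit [CharZero M] [IsAlgClosed Ω] in
private theorem re_ne {φ : D.A →ₐ[M] Ω} {f : Ω ⊗[M] D.A} (h : vo φ f = 1) : f ≠ 0 := by
  rintro rfl
  have h1 : ¬ ∃ z : D.V.pt Ω →₀ ℤ, Efc z ∧ idl D z = Ideal.span {(0 : Ω ⊗[M] D.A)} := by
    rintro ⟨z, -, hz⟩
    refine idl_ne_bot z ?_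
    rw [hz]
    exact Ideal.span_singleton_eq_bot.2 rfl
  unfold vo CV.cy at h
  rw [dif_neg h1] at h
  exact zero_ne_one h

/-- **Unramified.** Proof: `h = 1 ⊗ u - κ ⊗ 1`, `κ = (φ(c_0) / φ(c_2)) ^ p`, with the pull-back
`H = (c_0 c_1) ^ p (c_0 ^ p - κ c_2 ^ p)`, `k = p` (`exists_hom`, `pb_rl` or `ga_val`); `φ` does not vanish at `c_0`, `c_1`:
`vo_pw`, `vo_gl`. -/
theorem ga_pa : (ga c hp ha h hε).Pa Ω := by
  intro φ hφ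
  have hb : φ (sb c) ≠ 0 := hφ
  have hsc := (sb_val c φ).1 hb
  obtain ⟨κ, hκ⟩ : ∃ κ : Ω, κ = (φ (sc c 0) / φ (sc c 2)) ^ p := ⟨_, rfl⟩
  obtain ⟨U, hU⟩ : ∃ U : (Ca M hp ha h).A, U = uu M p a := ⟨_, rfl⟩
  have hval : ∀ (χ : D.A →ₐ[M] Ω) (ψ : (Ca M hp ha h).A →ₐ[M] Ω), χ (sb c) ≠ 0 →
      (ga c hp ha h hε).f (some χ : D.V.pt Ω) = some ψ →
      ψ U = (χ (sc c 0) / χ (sc c 2)) ^ p := by
    intro χ ψ hχ hf
    obtain ⟨ψ', h1, h3⟩ := ga_val c hp ha h hε hχ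
    obtain rfl : ψ' = ψ := Option.some_injective _ (h1.symm.trans hf)
    have h4 := h3 ⟨(p, 0), by change p ≡ a * 0 [MOD p]; rw [mul_zero]; exact Nat.mod_self p⟩
    rw [pow_zero, mul_one] at h4
    rw [hU]
    exact h4
  have hsb : sb c = sc c 0 * sc c 1 * sc c 2 := Fin.prod_univ_three _
  refine ⟨(1 : Ω) ⊗ₜ[M] U - κ ⊗ₜ[M] (1 : (Ca M hp ha h).A),
    (1 : Ω) ⊗ₜ[M] ((sc c 0 * sc c 1) ^ p * sc c 0 ^ p) -
      κ ⊗ₜ[M] ((sc c 0 * sc c 1) ^ p * sc c 2 ^ p), p, ?_, ?_, ?_⟩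
  · intro χ ψ hχ hf
    have h5 : χ (sb c) ≠ 0 := hχ
    have h4 := hval χ ψ h5 hf
    have h6 : (ga c hp ha h hε).b = sb c := rfl
    have h7 := (sb_val c χ).1 h5 2
    rw [map_sub, map_sub, vx_tmul, vx_tmul, vx_tmul, vx_tmul, h6, h4, map_one, hsb]
    simp only [map_mul, map_pow, div_pow, mul_pow]
    field_simp
  · intro ψ hf
    rw [map_sub, vx_tmul, vx_tmul, hval φ ψ hb hf, map_one, hκ]
    ring
  · have hne : (2 : Fin 3) ≠ 0 := by decide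
    have hpw := vo_pw c hp.two_le hε hne (hsc 2) (hsc 0)
    rw [vo_gl c hp.two_le hε hb hne] at hpw
    have hpw0 := re_ne hpw
    have hf1 : vx φ ((1 : Ω) ⊗ₜ[M] ((sc c 0 * sc c 1) ^ p)) ≠ 0 := by
      rw [vx_tmul, one_mul, map_pow, map_mul]
      exact pow_ne_zero _ (mul_ne_zero (hsc _) (hsc _))
    have hf0 : (1 : Ω) ⊗ₜ[M] ((sc c 0 * sc c 1) ^ p) ≠ 0 := by
      intro h
      rw [h, map_zero] at hf1
      exact hf1 rfl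
    obtain ⟨C, hC⟩ : ∃ C : Ω, C = (φ (sc c 2))⁻¹ ^ p := ⟨_, rfl⟩
    have hC0 : C ≠ 0 := by
      rw [hC]
      exact pow_ne_zero _ (inv_ne_zero (hsc 2))
    have key : (1 : Ω) ⊗ₜ[M] ((sc c 0 * sc c 1) ^ p * sc c 0 ^ p) -
        κ ⊗ₜ[M] ((sc c 0 * sc c 1) ^ p * sc c 2 ^ p) =
        C • (((1 : Ω) ⊗ₜ[M] ((sc c 0 * sc c 1) ^ p)) *
          ((φ (sc c 2) ^ p) ⊗ₜ[M] (sc c 0 ^ p) - (φ (sc c 0) ^ p) ⊗ₜ[M] (sc c 2 ^ p))) := by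
      have hm : ∀ x y : D.A, (1 : Ω) ⊗ₜ[M] (x * y) = ((1 : Ω) ⊗ₜ[M] x) * ((1 : Ω) ⊗ₜ[M] y) :=
        fun x y => map_mul (Algebra.TensorProduct.includeRight : D.A →ₐ[M] Ω ⊗[M] D.A) x y
      have h1 : C * φ (sc c 2) ^ p = 1 := by
        rw [hC, ← mul_pow, inv_mul_cancel₀ (hsc 2), one_pow]
      have h3 : κ = C * φ (sc c 0) ^ p := by
        rw [hκ, hC, div_pow, inv_pow]
        ring
      rw [re_tm κ, re_tm (φ (sc c 2) ^ p), re_tm (φ (sc c 0) ^ p), hm, hm, Algebra.smul_def, h3,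
        map_mul]
      have h4 : algebraMap Ω (Ω ⊗[M] D.A) C * algebraMap Ω (Ω ⊗[M] D.A) (φ (sc c 2) ^ p) = 1 := by
        rw [← map_mul, h1, map_one]
      generalize algebraMap Ω (Ω ⊗[M] D.A) C = s at *
      generalize algebraMap Ω (Ω ⊗[M] D.A) (φ (sc c 2) ^ p) = t at *
      generalize algebraMap Ω (Ω ⊗[M] D.A) (φ (sc c 0) ^ p) = y at *
      generalize (1 : Ω) ⊗ₜ[M] ((sc c 0 * sc c 1) ^ p) = X at *
      generalize (1 : Ω) ⊗ₜ[M] (sc c 0 ^ p) = Y at *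
      generalize (1 : Ω) ⊗ₜ[M] (sc c 2 ^ p) = Z at *
      linear_combination (-X * Y) * h4
    have i1 : IsDomain (Ω ⊗[M] D.A) := D.domO Ω
    rw [key, vo_smul hC0, vo_mul hf0 hpw0, (vo_zero hf0).2 hf1, hpw, zero_add]

end DK
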