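import Pool.Agent.Lib.MP_f80667_ag.Dk.Th
import Pool.Agent.Lib.MP_f80667_ag.Dk.Re
import Pool.Agent.Lib.MP_f80667_ag.Dk.Rg

/-! Transfer from the curves `C_a` to the Fermat curve. -/

open ZC BE PE CV QS Polynomial IntermediateField DH

namespace DK

variable {M : Type} [Field M] [CharZero M] {p : ℕ} {ε : M} {D : Crv M} (c : Cu D p (Af p ε))
  (hp : p.Prime) {Ω : Type} [Field Ω] [Algebra M Ω] [IsAlgClosure M Ω] (L : Ld M Ω)

include c in
/-- Proof: `tg_of` with `b = sb c`, `gi`, `r = p`, `k = q = p`: `ga_pa`, `exc_pc`, `gi_id`; `Tg.dvL`, `Tg.nmL`; `dvL_of`, `nmL_of`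
for the curves. -/
theorem dvnmp (h2 : p ≠ 2) (hε : ε ^ p = -1) (m : ∀ i, Nonempty (Mod (Ci M hp i) (Ok L) M))
    {l : ℕ} (hl : l.Prime) (hlp : l ≠ p) (h : l ≠ L.p) : DvL L D l ∧ NmL L D l := by
  have hac : IsAlgClosed Ω := IsAlgClosure.isAlgClosed M
  obtain ⟨T⟩ : Nonempty (Tg D (Ci M hp) M Ω p p) :=
    ⟨tg_of (K := M) (sb c) (gi c hp hε) (fun i => gi_b c hp hε i)
      (fun i => ga_pa c hp _ _ hε) (p : ℤ) p p (fun φ hφ => exc_pc c hp.two_le hε hφ)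
      (fun φ hφ => nsmul_mem (gi_id c hp hε hφ) p)⟩
  have hco : Nat.Coprime (p * p) l := by
    have h1 : Nat.Coprime p l := (Nat.coprime_primes hp hl).2 hlp.symm
    exact Nat.Coprime.mul_left h1 h1
  exact ⟨T.dvL hco fun i => dvL_of (m i).some hl h, T.nmL hco fun i => nmL_of (m i).some hl h⟩

end DK
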