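import Pool.Agent.Lib.MP_f80667_ag.Dk.Rc

/-!
The model of the curve `v ^ p = u ^ a (1 + u)` in residue characteristic `p`: `u = s₀ ^ p + π z`,
`v = s₀ ^ a t₀ (1 + l w)` with `(a + 1) s₀ ^ p = - a` (the critical point), `t₀ ^ p = 1 + s₀ ^ p`, `l ^ (p - 1) = p`,
`π ^ 2 = l ^ p`. The ring `Rm` is generated over `O` by `z`, `w` and the monomials `s ^ i t ^ j` with `i, j < p`.
-/

open TensorProduct IsLocalRing CV Polynomial

namespace DK

/-- The numbers. -/
structure Rp (O : Type) [CommRing O] (p a : ℕ) where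
  l : O
  π : O
  s : O
  t : O
  hl : l ^ (p - 1) = p
  hπ : π ^ 2 = l ^ p
  hs : ((a : O) + 1) * s ^ p = -a
  ht : t ^ p = 1 + s ^ p

section num

variable {O : Type} [CommRing O] [IsLocalRing O] {p a : ℕ} (hp : p.Prime)
  (hm : (p : O) ∈ maximalIdeal O)

include hp hm in
/-- Numbers prime to `p` are units. -/
theorem nat_unit {n : ℕ} (hn : ¬ p ∣ n) : IsUnit (n : O) := by
  by_contra hu
  have h1 : (n : O) ∈ maximalIdeal O := (mem_maximalIdeal _).2 hu
  have hc : IsCoprime (p : ℤ) (n : ℤ) := by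
    rw [Nat.isCoprime_iff_coprime]
    exact (Nat.Prime.coprime_iff_not_dvd hp).2 hn
  obtain ⟨x, y, hxy⟩ := hc
  have h2 : (x : O) * (p : O) + (y : O) * (n : O) = 1 := by
    have h3 := congrArg (Int.cast : ℤ → O) hxy
    push_cast at h3
    exact h3
  refine (Ideal.ne_top_iff_one _).1 (maximalIdeal.isMaximal O).ne_top ?_
  rw [← h2]
  exact Ideal.add_mem _ (Ideal.mul_mem_left _ _ hm) (Ideal.mul_mem_left _ _ h1)

variable (R : Rp O p a)

include hp hm in
theorem Rp.l_mem : R.l ∈ maximalIdeal O := by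
  refine (maximalIdeal.isMaximal O).isPrime.mem_of_pow_mem (p - 1) ?_
  rw [R.hl]
  exact hm

include hp hm in
theorem Rp.π_mem : R.π ∈ maximalIdeal O := by
  refine (maximalIdeal.isMaximal O).isPrime.mem_of_pow_mem 2 ?_
  rw [R.hπ]
  exact Ideal.pow_mem_of_mem _ (R.l_mem hp hm) p hp.pos

include hp hm in
theorem Rp.s_unit (ha : 0 < a) (h : a + 1 < p) : IsUnit R.s := by
  have h1 : IsUnit (a : O) := nat_unit hp hm fun hd => absurd (Nat.le_of_dvd ha hd) (by omega)
  have h2 : IsUnit (((a : O) + 1) * R.s ^ p) := by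
    rw [R.hs]
    exact h1.neg
  exact (isUnit_pow_iff hp.ne_zero).1 (isUnit_of_mul_isUnit_right h2)

include hp hm in
/-- Proof: `(a + 1) t ^ p = 1`. -/
theorem Rp.t_unit (ha : 0 < a) (h : a + 1 < p) : IsUnit R.t := by
  have h1 : ((a : O) + 1) * R.t ^ p = 1 := by
    rw [R.ht, mul_add, R.hs]
    ring
  exact (isUnit_pow_iff hp.ne_zero).1 (IsUnit.of_mul_eq_one _ ((mul_comm _ _).trans h1))

end num

variable {O : Type} (K : Type) [CommRing O] [Field K] [Algebra O K] {p a : ℕ} (R : Rp O p a)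

/-- The function `z`. -/
noncomputable def zM : Aa K p a :=
  (algebraMap O K R.π)⁻¹ • (uu K p a - algebraMap K (Aa K p a) (algebraMap O K (R.s ^ p)))

/-- The function `w`. -/
noncomputable def wM : Aa K p a :=
  (algebraMap O K R.l)⁻¹ • ((algebraMap O K (R.s ^ a * R.t))⁻¹ • vv K p a - 1)

/-- The ring of the model. -/
noncomputable def Rm : Subalgebra O (Aa K p a) :=
  Algebra.adjoin O ({zM K R, wM K R} ∪
    {x | ∃ q : Ex p a, (q : ℕ × ℕ).1 < p ∧ (q : ℕ × ℕ).2 < p ∧ x = mon K q})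

/-- The function `z` in the model. -/
noncomputable def zR : Rm K R := ⟨zM K R, Algebra.subset_adjoin (Or.inl (Or.inl rfl))⟩

/-- The function `w` in the model. -/
noncomputable def wR : Rm K R := ⟨wM K R, Algebra.subset_adjoin (Or.inl (Or.inr rfl))⟩

/-- Proof: the set of generators is finite. -/
theorem rm_ft : Algebra.FiniteType O (Rm K R) := by
  classical
  refine (Subalgebra.fg_iff_finiteType _).1 (Subalgebra.fg_def.2 ⟨_, ?_, rfl⟩)
  refine ((Set.finite_singleton _).insert _).union ?_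
  let f : ℕ × ℕ → Aa K p a := fun q => if hq : q ∈ Ex p a then mon K ⟨q, hq⟩ else 0
  refine ((Finset.range p ×ˢ Finset.range p).finite_toSet.image f).subset ?_
  rintro x ⟨q, h1, h2, rfl⟩
  refine ⟨(q : ℕ × ℕ), Finset.mem_coe.2 (Finset.mem_product.2
    ⟨Finset.mem_range.2 h1, Finset.mem_range.2 h2⟩), ?_⟩
  exact dif_pos q.2

private theorem ma_tower (x : O) :
    algebraMap O (Aa K p a) x = algebraMap K (Aa K p a) (algebraMap O K x) :=
  IsScalarTower.algebraMap_apply O K (Aa K p a) x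

variable [IsDomain O] [IsDiscreteValuationRing O] [IsFractionRing O K] [CharZero K]
  (hp : p.Prime) (ha : 0 < a) (h : a + 1 < p) (hm : (p : O) ∈ maximalIdeal O)

include R hp in
omit [IsDomain O] [IsDiscreteValuationRing O] [IsFractionRing O K] in
private theorem ma_l : algebraMap O K R.l ≠ 0 := by
  intro h0
  have h1 := congrArg (algebraMap O K) R.hl
  have h2 : p - 1 ≠ 0 := by
    have := hp.two_le
    omega
  rw [map_pow, h0, zero_pow h2, map_natCast] at h1
  exact hp.ne_zero (Nat.cast_eq_zero.1 h1.symm)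

include R hp in
omit [IsDomain O] [IsDiscreteValuationRing O] [IsFractionRing O K] in
private theorem ma_π : algebraMap O K R.π ≠ 0 := by
  intro h0
  have h1 := congrArg (algebraMap O K) R.hπ
  rw [map_pow, h0, zero_pow two_ne_zero, map_pow] at h1
  exact ma_l K R hp (eq_zero_of_pow_eq_zero h1.symm)

include hp ha h hm in
theorem uu_eq : uu K p a = algebraMap O (Aa K p a) (R.s ^ p) + algebraMap O (Aa K p a) R.π * zM K R := by
  have h1 := ma_π K R hp
  rw [ma_tower (O := O) K (R.s ^ p), ma_tower (O := O) K R.π, ← Algebra.smul_def (algebraMap O K R.π) (zM K R), zM, smul_smul,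
    mul_inv_cancel₀ h1, one_smul, add_sub_cancel]

include hp ha h hm in
theorem vv_eq : vv K p a =
    algebraMap O (Aa K p a) (R.s ^ a * R.t) * (1 + algebraMap O (Aa K p a) R.l * wM K R) := by
  have h1 := ma_l K R hp
  have h2 : algebraMap O K (R.s ^ a * R.t) ≠ 0 :=
    ((((R.s_unit hp hm ha h).pow a).mul (R.t_unit hp hm ha h)).map (algebraMap O K)).ne_zero
  rw [ma_tower (O := O) K (R.s ^ a * R.t), ma_tower (O := O) K R.l,
    ← Algebra.smul_def (algebraMap O K R.l) (wM K R), wM, smul_smul,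
    mul_inv_cancel₀ h1, one_smul, add_sub_cancel, ← Algebra.smul_def, smul_smul,
    mul_inv_cancel₀ h2, one_smul]

end DK
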