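import Mathlib

/-! The Taylor expansion at the critical point. -/

open Polynomial

namespace DK

private theorem mb_aux {R : Type*} [CommRing R] (U V x : R) (n : ℕ) : ∃ G : R,
    2 * (U + V * x) ^ (n + 2) = 2 * U ^ (n + 2) + 2 * (n + 2) * U ^ (n + 1) * V * x +
      (n + 2) * (n + 1) * U ^ n * V ^ 2 * x ^ 2 + x ^ 3 * G := by
  induction n with
  | zero => exact ⟨0, by push_cast; ring⟩
  | succ n ih =>
    obtain ⟨G, hG⟩ := ih
    refine ⟨(n + 2) * (n + 1) * U ^ n * V ^ 3 + G * (U + V * x), ?_⟩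
    have e : 2 * (U + V * x) ^ (n + 1 + 2) = 2 * (U + V * x) ^ (n + 2) * (U + V * x) := by ring
    rw [e, hG]
    push_cast
    ring

/-- The Taylor expansion at the critical point: `(1 + x / x₀) ^ a (1 + x / (1 + x₀))` with `1 / x₀ = - (a + 1) / a`,
`1 / (1 + x₀) = a + 1`: the linear term is `0`, the quadratic term is `- (a + 1) ^ 3 / (2 a)`. Multiplied by `a ^ a`. -/
theorem taylor (a : ℕ) (ha : 0 < a) : ∃ G : ℤ[X],
    2 * ((C (a : ℤ) - C ((a : ℤ) + 1) * X) ^ a * (1 + C ((a : ℤ) + 1) * X)) =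
      C (2 * (a : ℤ) ^ a) - C ((a : ℤ) ^ (a - 1) * ((a : ℤ) + 1) ^ 3) * X ^ 2 + X ^ 3 * G := by
  rcases Nat.lt_or_ge a 2 with h | h
  · obtain rfl : a = 1 := by omega
    refine ⟨0, ?_⟩
    simp only [Nat.cast_one, map_mul, map_pow, map_add, map_one, map_ofNat, Nat.sub_self, pow_zero,
      pow_one]
    ring
  · obtain ⟨n, rfl⟩ : ∃ n, a = n + 2 := ⟨a - 2, by omega⟩
    obtain ⟨G, hG⟩ := mb_aux ((n : ℤ[X]) + 2) (-((n : ℤ[X]) + 3)) X n
    refine ⟨G * (1 + ((n : ℤ[X]) + 3) * X) +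
      ((n : ℤ[X]) + 2) * ((n : ℤ[X]) + 1) * ((n : ℤ[X]) + 2) ^ n * ((n : ℤ[X]) + 3) ^ 3, ?_⟩
    have e1 : n + 2 - 1 = n + 1 := by omega
    rw [e1]
    simp only [Nat.cast_add, Nat.cast_ofNat, map_mul, map_pow, map_add, map_one, map_ofNat,
      map_natCast]
    have e2 : (n : ℤ[X]) + 2 - ((n : ℤ[X]) + 2 + 1) * X =
        (n : ℤ[X]) + 2 + -((n : ℤ[X]) + 3) * X := by ring
    rw [e2, ← mul_assoc, hG]
    ring

end DK
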