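import Pool.Agent.Lib.MP_f80667_ag.Cv.SeB

/-! The curve `z ^ 2 = κ (w ^ p + w)`, the special fibre of the model. -/

open CV Polynomial

namespace DK

/-- The polynomial of the special fibre. -/
noncomputable def qa (k : Type) [Field k] (p a : ℕ) : k[X] :=
  C (-(2 * a) / ((a : k) + 1) ^ 3) * (X ^ p + X)

section spec

variable {k : Type} [Field k] {p a : ℕ} (hp : p.Prime) (ha : 0 < a) (h : a + 1 < p)
  (hk : (p : k) = 0)

include hp hk in
private theorem mc_ne {n : ℕ} (hn : 0 < n) (hnp : n < p) : (n : k) ≠ 0 := by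
  intro h0
  have hc : n.Coprime p :=
    ((Nat.Prime.coprime_iff_not_dvd hp).2 (Nat.not_dvd_of_pos_of_lt hn hnp)).symm
  obtain ⟨x, y, hxy⟩ := Nat.isCoprime_iff_coprime.2 hc
  have h1 := congrArg (Int.cast (R := k)) hxy
  push_cast at h1
  rw [h0, hk, mul_zero, mul_zero, add_zero] at h1
  exact zero_ne_one h1

include hp ha h hk

private theorem mc_kap : -(2 * (a : k)) / ((a : k) + 1) ^ 3 ≠ 0 := by
  have h1 : (a : k) ≠ 0 := mc_ne hp hk ha (by omega)
  have h2 : ((2 : ℕ) : k) ≠ 0 := mc_ne hp hk (by norm_num) (by omega)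
  have h3 : ((a + 1 : ℕ) : k) ≠ 0 := mc_ne hp hk (by omega) h
  push_cast at h2 h3
  exact div_ne_zero (neg_ne_zero.2 (mul_ne_zero h2 h1)) (pow_ne_zero 3 h3)

theorem qa_deg : (qa k p a).natDegree = p ∧ IsUnit (qa k p a).leadingCoeff := by
  have h0 := mc_kap hp ha h hk
  have h1 : (X ^ p + X : k[X]).natDegree = p := by
    rw [natDegree_add_eq_left_of_natDegree_lt, natDegree_X_pow]
    rw [natDegree_X_pow, natDegree_X]
    exact hp.one_lt
  have h3 : (qa k p a).natDegree = p := by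
    rw [qa, natDegree_C_mul h0, h1]
  refine ⟨h3, isUnit_iff_ne_zero.2 (leadingCoeff_ne_zero.2 ?_)⟩
  intro h4
  rw [h4, natDegree_zero] at h3
  exact hp.ne_zero h3.symm

/-- Proof: `Se.smooth`: the derivative of `qa` is a constant. -/
theorem qa_smooth : Algebra.Smooth k (Se.Rg 2 (qa k p a)) := by
  have h0 := mc_kap hp ha h hk
  have h2 : ((2 : ℕ) : k) ≠ 0 := mc_ne hp hk (by norm_num) (by omega)
  refine Se.smooth (by norm_num) (isUnit_iff_ne_zero.2 h2)
    ⟨0, C (-(2 * (a : k)) / ((a : k) + 1) ^ 3)⁻¹, ?_⟩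
  have h3 : derivative (qa k p a) = C (-(2 * (a : k)) / ((a : k) + 1) ^ 3) := by
    rw [qa, derivative_C_mul, derivative_add, derivative_X_pow, derivative_X, hk, C_0, zero_mul,
      zero_add, mul_one]
  rw [h3, zero_mul, zero_add, ← C_mul, inv_mul_cancel₀ h0, C_1]

/-- Proof: `Se.tb`. -/
theorem exists_tb2 : ∃ T : Mt k (Se.Rg 2 (qa k p a)), T.S = Se.idx 2 p := by
  obtain ⟨h1, h2⟩ := qa_deg hp ha h hk
  have hd : 0 < (qa k p a).natDegree := by
    rw [h1]
    exact hp.pos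
  have hco : Nat.Coprime 2 (qa k p a).natDegree := by
    rw [h1]
    exact (Nat.coprime_primes Nat.prime_two hp).2 (by omega)
  refine ⟨Se.tb (by norm_num) hd hco h2, ?_⟩
  have h3 : (Se.tb (S := k) (n := 2) (by norm_num) hd hco h2).S =
      Se.idx 2 (qa k p a).natDegree := rfl
  rw [h3, h1]

end spec

end DK
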