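import Pool.Agent.Lib.MP_f80667_ag.Dk.Ra
import Pool.Agent.Lib.MP_f80667_ag.Cv.SeA

/-! The genus: the number of gaps. -/

open CV

namespace DK

private theorem md_ne {p a : ℕ} [Fact p.Prime] (h : a + 1 < p) : (a : ZMod p) + 1 ≠ 0 := by
  intro h0
  have h1 : ((a + 1 : ℕ) : ZMod p) = 0 := by
    push_cast
    exact h0
  rw [ZMod.natCast_eq_zero_iff] at h1
  exact absurd (Nat.le_of_dvd (Nat.succ_pos a) h1) (by omega)

/-- the second exponent of the degree `m` -/
private noncomputable def mdJ (p a m : ℕ) [Fact p.Prime] : ℕ :=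
  ((m : ZMod p) / ((a : ZMod p) + 1)).val

private theorem mdJ_lt (p a m : ℕ) [Fact p.Prime] : mdJ p a m < p := ZMod.val_lt _

private theorem mdJ_cast (p a m : ℕ) [Fact p.Prime] :
    ((mdJ p a m : ℕ) : ZMod p) = (m : ZMod p) / ((a : ZMod p) + 1) := by
  unfold mdJ
  exact ZMod.natCast_zmod_val _

private theorem mdJ_mem {p a m : ℕ} [Fact p.Prime] (h : a + 1 < p) :
    m ∈ Sx p a ↔ mdJ p a m ≤ m := by
  have h0 := md_ne (p := p) h
  constructor
  · intro hm
    obtain ⟨q, hq, hm⟩ := mem_Sx.1 hm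
    rw [mem_Ex, ← ZMod.natCast_eq_natCast_iff, Nat.cast_mul] at hq
    have h1 : (m : ZMod p) / ((a : ZMod p) + 1) = ((q.2 : ℕ) : ZMod p) := by
      rw [div_eq_iff h0, ← hm, Nat.cast_add, hq]
      ring
    have h2 : mdJ p a m = q.2 % p := by
      unfold mdJ
      rw [h1, ZMod.val_natCast]
    rw [h2]
    have := Nat.mod_le q.2 p
    omega
  · intro hJ
    refine mem_Sx.2 ⟨(m - mdJ p a m, mdJ p a m), ?_, Nat.sub_add_cancel hJ⟩
    rw [mem_Ex, ← ZMod.natCast_eq_natCast_iff]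
    change ((m - mdJ p a m : ℕ) : ZMod p) = ((a * mdJ p a m : ℕ) : ZMod p)
    rw [Nat.cast_sub hJ, Nat.cast_mul, mdJ_cast]
    field_simp
    ring

private theorem md_cast_ne {p m : ℕ} (h0 : 0 < m) (hm : m < p) : (m : ZMod p) ≠ 0 := by
  intro h
  rw [ZMod.natCast_eq_zero_iff] at h
  exact absurd (Nat.le_of_dvd h0 h) (by omega)

private theorem mdJ_zero (p a : ℕ) [Fact p.Prime] : mdJ p a 0 = 0 := by
  unfold mdJ
  rw [Nat.cast_zero, zero_div, ZMod.val_zero]

private theorem mdJ_neg {p a m : ℕ} [Fact p.Prime] (h : a + 1 < p) (hm0 : 0 < m) (hm : m < p) :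
    mdJ p a (p - m) = p - mdJ p a m := by
  have h0 := md_ne (p := p) h
  have h1 : (m : ZMod p) / ((a : ZMod p) + 1) ≠ 0 := div_ne_zero (md_cast_ne hm0 hm) h0
  unfold mdJ
  have h2 : ((p - m : ℕ) : ZMod p) / ((a : ZMod p) + 1) =
      -((m : ZMod p) / ((a : ZMod p) + 1)) := by
    rw [Nat.cast_sub hm.le, ZMod.natCast_self, zero_sub, neg_div]
  rw [h2, ZMod.neg_val, if_neg h1]

private theorem mdJ_ne {p a m : ℕ} [Fact p.Prime] (ha : 0 < a) (h : a + 1 < p) (hm0 : 0 < m)
    (hm : m < p) : mdJ p a m ≠ m := by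
  intro he
  have h0 := md_ne (p := p) h
  have h1 := mdJ_cast p a m
  rw [he, eq_div_iff h0] at h1
  have h2 : (m : ZMod p) * (a : ZMod p) = 0 := by linear_combination h1
  rcases mul_eq_zero.1 h2 with h3 | h3
  · exact md_cast_ne hm0 hm h3
  · exact md_cast_ne ha (by omega) h3

private theorem md_count (T : AddSubmonoid ℕ) (n : ℕ) (hT : ∀ m, m ∉ T → m ≤ n) :
    {k : ℕ | k ∈ T ∧ k ≤ n}.ncard + {m : ℕ | m ∉ T}.ncard = n + 1 := by
  classical
  have h1 : {k : ℕ | k ∈ T ∧ k ≤ n} = ((Finset.range (n + 1)).filter fun k => k ∈ T : Finset ℕ) := by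
    ext k
    rw [Finset.mem_coe, Finset.mem_filter, Finset.mem_range, Set.mem_setOf_eq]
    constructor
    · rintro ⟨h2, h3⟩
      exact ⟨by omega, h2⟩
    · rintro ⟨h2, h3⟩
      exact ⟨h3, by omega⟩
  have h2 : {m : ℕ | m ∉ T} = ((Finset.range (n + 1)).filter fun k => ¬ k ∈ T : Finset ℕ) := by
    ext k
    rw [Finset.mem_coe, Finset.mem_filter, Finset.mem_range, Set.mem_setOf_eq]
    constructor
    · intro h3
      have := hT k h3
      exact ⟨by omega, h3⟩
    · rintro ⟨h3, h4⟩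
      exact h4
  rw [h1, h2, Set.ncard_coe_finset, Set.ncard_coe_finset]
  have h3 := Finset.card_filter_add_card_filter_not (s := Finset.range (n + 1)) (fun k => k ∈ T)
  rw [Finset.card_range] at h3
  exact h3

private theorem md_sx_le {p a : ℕ} (hp : p.Prime) (h : a + 1 < p) {m : ℕ} (hm : m ∉ Sx p a) :
    m < p := by
  by_contra hc
  exact hm (sx_large hp h (by omega))

private theorem md_idx {p m : ℕ} (hp : p.Prime) (h2 : p ≠ 2) :
    m ∉ Se.idx 2 p ↔ ∃ k, k < (p - 1) / 2 ∧ m = 2 * k + 1 := by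
  obtain ⟨c, hc⟩ := hp.odd_of_ne_two h2
  rw [Se.mem_idx]
  constructor
  · intro hm
    rcases Nat.even_or_odd' m with ⟨k, hk | hk⟩
    · exact absurd ⟨k, 0, by rw [hk, mul_zero, add_zero]⟩ hm
    · refine ⟨k, ?_, hk⟩
      by_contra hlt
      refine hm ⟨k - c, 1, ?_⟩
      have : c ≤ k := by omega
      omega
  · rintro ⟨k, hk, rfl⟩ ⟨i, j, hij⟩
    rcases Nat.eq_zero_or_pos j with rfl | hj
    · omega
    · have h3 : p ≤ p * j := Nat.le_mul_of_pos_right p hj
      omega

/-- The number of gaps of `Sx p a` is `(p - 1) / 2`. Proof: `sx_uniq`: the degrees congruent to `(a + 1) j` modulo `p` are the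
`w_j + p k`, `w_j = (a j mod p) + j`, so the gaps are the numbers `w_j - p` for the `j` in `{1, .., p - 1}` with `w_j ≥ p`;
`w_j + w_(p - j) = 2 p` and `w_j ≠ p`, so this is half of the `j`. -/
theorem sx_gap {p a : ℕ} (hp : p.Prime) (ha : 0 < a) (h : a + 1 < p) :
    {m : ℕ | m ∉ Sx p a}.ncard = (p - 1) / 2 := by
  classical
  have hF : Fact p.Prime := ⟨hp⟩
  obtain ⟨A, hA⟩ : ∃ A : Finset ℕ, A = (Finset.range p).filter fun m => m < mdJ p a m := ⟨_, rfl⟩
  obtain ⟨B, hB⟩ : ∃ B : Finset ℕ, B = (Finset.range p).filter fun m => mdJ p a m < m := ⟨_, rfl⟩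
  have hmA : ∀ m, m ∈ A ↔ m < p ∧ m < mdJ p a m := fun m => by
    rw [hA, Finset.mem_filter, Finset.mem_range]
  have hmB : ∀ m, m ∈ B ↔ m < p ∧ mdJ p a m < m := fun m => by
    rw [hB, Finset.mem_filter, Finset.mem_range]
  have h1 : {m : ℕ | m ∉ Sx p a} = (A : Set ℕ) := by
    ext m
    rw [Finset.mem_coe, hmA, Set.mem_setOf_eq]
    constructor
    · intro hm
      refine ⟨md_sx_le hp h hm, ?_⟩
      rw [mdJ_mem h, not_le] at hm
      exact hm
    · rintro ⟨-, hm⟩ h2
      exact absurd ((mdJ_mem h).1 h2) (not_le.2 hm)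
  rw [h1, Set.ncard_coe_finset]
  have hApos : ∀ m ∈ A, 0 < m := fun m hm => by
    rcases Nat.eq_zero_or_pos m with rfl | h2
    · have h3 := ((hmA 0).1 hm).2
      rw [mdJ_zero] at h3
      exact absurd h3 (lt_irrefl 0)
    · exact h2
  have hcard : A.card = B.card := by
    refine Finset.card_nbij' (fun m => p - m) (fun m => p - m) ?_ ?_ ?_ ?_
    · intro m hm
      have h2 := (hmA m).1 (Finset.mem_coe.1 hm)
      have h3 := hApos m (Finset.mem_coe.1 hm)
      have h4 := mdJ_neg h h3 h2.1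
      have h5 := mdJ_lt p a m
      refine Finset.mem_coe.2 ((hmB _).2 ?_)
      change p - m < p ∧ mdJ p a (p - m) < p - m
      rw [h4]
      omega
    · intro m hm
      have h2 := (hmB m).1 (Finset.mem_coe.1 hm)
      have h4 := mdJ_neg h (show 0 < m by omega) h2.1
      refine Finset.mem_coe.2 ((hmA _).2 ?_)
      change p - m < p ∧ p - m < mdJ p a (p - m)
      rw [h4]
      omega
    · intro m hm
      have h2 := (hmA m).1 (Finset.mem_coe.1 hm)
      change p - (p - m) = m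
      omega
    · intro m hm
      have h2 := (hmB m).1 (Finset.mem_coe.1 hm)
      change p - (p - m) = m
      omega
  have h2 : ((Finset.range p).filter fun m => ¬ m < mdJ p a m) = insert 0 B := by
    ext m
    rw [Finset.mem_filter, Finset.mem_range, Finset.mem_insert, hmB]
    constructor
    · rintro ⟨h3, h4⟩
      rcases Nat.eq_zero_or_pos m with h5 | h5
      · exact Or.inl h5
      · have h6 := mdJ_ne ha h h5 h3
        exact Or.inr ⟨h3, by omega⟩
    · rintro (rfl | ⟨h3, h4⟩)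
      · rw [mdJ_zero]
        exact ⟨hp.pos, lt_irrefl 0⟩
      · exact ⟨h3, by omega⟩
  have h3 := Finset.card_filter_add_card_filter_not (s := Finset.range p)
    (fun m => m < mdJ p a m)
  rw [h2, Finset.card_range, ← hA, Finset.card_insert_of_notMem (fun h4 => by
    have h5 := ((hmB 0).1 h4).2
    omega)] at h3
  omega

/-- The gaps of `2 i + p j` are the odd numbers less than `p`. -/
theorem idx_gap {p : ℕ} (hp : p.Prime) (h2 : p ≠ 2) : {m : ℕ | m ∉ Se.idx 2 p}.ncard = (p - 1) / 2 := by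
  classical
  have h1 : {m : ℕ | m ∉ Se.idx 2 p} =
      ((Finset.range ((p - 1) / 2)).image fun k => 2 * k + 1 : Finset ℕ) := by
    ext m
    rw [Finset.mem_coe, Finset.mem_image, Set.mem_setOf_eq, md_idx hp h2]
    constructor
    · rintro ⟨k, hk, rfl⟩
      exact ⟨k, Finset.mem_range.2 hk, rfl⟩
    · rintro ⟨k, hk, rfl⟩
      exact ⟨k, Finset.mem_range.1 hk, rfl⟩
  rw [h1, Set.ncard_coe_finset, Finset.card_image_of_injective _ (fun x y hxy => by
    have h3 : 2 * x + 1 = 2 * y + 1 := hxy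
    omega), Finset.card_range]

/-- Proof: `sx_gap`, `idx_gap`; all gaps are less than `p`. -/
theorem gen_eq {p a : ℕ} (hp : p.Prime) (ha : 0 < a) (h : a + 1 < p) {n : ℕ} (hn : p ≤ n) :
    {k : ℕ | k ∈ Sx p a ∧ k ≤ n}.ncard = {k : ℕ | k ∈ Se.idx 2 p ∧ k ≤ n}.ncard := by
  have h2 : p ≠ 2 := by omega
  have h3 := md_count (Sx p a) n fun m hm => by
    have := md_sx_le hp h hm
    omega
  have h4 := md_count (Se.idx 2 p) n fun m hm => by
    obtain ⟨k, hk, rfl⟩ := (md_idx hp h2).1 hm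
    omega
  rw [sx_gap hp ha h] at h3
  rw [idx_gap hp h2] at h4
  omega

end DK
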