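import Pool.Agent.Lib.MP_f80667_ag.Dk.Mi

/-! The monomials are constant modulo the maximal ideal. -/

open TensorProduct IsLocalRing CV Polynomial

namespace DK

private theorem mm_gen {A : Type} [CommRing A] {e s t b l z w M : A} {i j a p m : ℕ}
    (hs : IsUnit s) (hb : e ∣ b) (hl : e ∣ l) (hm : a * j = i + p * m)
    (key : (s ^ p + b * z) ^ m * M = (s ^ a * t * (1 + l * w)) ^ j) :
    e ∣ M - s ^ i * t ^ j := by
  have h1 : e ∣ (s ^ p + b * z) ^ m - (s ^ p) ^ m := by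
    refine dvd_trans ?_ (sub_dvd_pow_sub_pow _ _ m)
    rw [add_sub_cancel_left]
    exact hb.mul_right z
  have h2 : e ∣ (s ^ a * t * (1 + l * w)) ^ j - (s ^ a * t) ^ j := by
    refine dvd_trans ?_ (sub_dvd_pow_sub_pow _ _ j)
    have h3 : s ^ a * t * (1 + l * w) - s ^ a * t = l * (s ^ a * t * w) := by ring
    rw [h3]
    exact hl.mul_right _
  have h4 : s ^ (p * m) * (M - s ^ i * t ^ j) =
      ((s ^ a * t * (1 + l * w)) ^ j - (s ^ a * t) ^ j) -
        ((s ^ p + b * z) ^ m - (s ^ p) ^ m) * M := by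
    have h5 : (s ^ a * t) ^ j = s ^ (p * m) * (s ^ i * t ^ j) := by
      rw [mul_pow, ← pow_mul, hm, pow_add]
      ring
    rw [← key, h5, pow_mul]
    ring
  rw [← (hs.pow (p * m)).dvd_mul_left, h4]
  exact dvd_sub h2 (h1.mul_right M)

variable {O : Type} (K : Type) [CommRing O] [Field K] [Algebra O K] {p a : ℕ} (R : Rp O p a)
  [IsDomain O] [IsDiscreteValuationRing O] [IsFractionRing O K] [CharZero K]
  (hp : p.Prime) (ha : 0 < a) (h : a + 1 < p) (hm : (p : O) ∈ maximalIdeal O)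
  {ϖ : O} (hϖ : Irreducible ϖ)

include hp ha h hm hϖ in
/-- **The monomials are constant modulo the maximal ideal.** Proof: `i = a j - p m` or `i + p m = a j`: `u ^ m * mon (i, j) = v ^ j`,
`u` is congruent to `s₀ ^ p`, `v` to `s₀ ^ a t₀`, `s₀` is a unit. -/
theorem rel_mon (q : Ex p a) (h1 : (q : ℕ × ℕ).1 < p) (h2 : (q : ℕ × ℕ).2 < p) :
    ∃ y : Rm K R, mon K q - algebraMap O (Aa K p a) (R.s ^ (q : ℕ × ℕ).1 * R.t ^ (q : ℕ × ℕ).2) =
      ϖ • (y : Aa K p a) := by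
  obtain ⟨q, hq⟩ := q
  obtain ⟨i, j⟩ := q
  change i < p at h1
  change j < p at h2
  have hij : i ≡ a * j [MOD p] := hq
  change ∃ y : Rm K R, mon K ⟨(i, j), hq⟩ - algebraMap O (Aa K p a) (R.s ^ i * R.t ^ j) =
      ϖ • (y : Aa K p a)
  obtain ⟨m, hmd⟩ : ∃ m, a * j = i + p * m := by
    refine ⟨a * j / p, ?_⟩
    have h3 : i = a * j % p := by
      have h4 : i % p = a * j % p := hij
      rwa [Nat.mod_eq_of_lt h1] at h4
    have h5 := Nat.mod_add_div (a * j) p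
    rw [← h3] at h5
    exact h5.symm
  -- the elements of the model
  obtain ⟨M, hM⟩ : ∃ M : Rm K R, (M : Aa K p a) = mon K ⟨(i, j), hq⟩ :=
    ⟨⟨mon K ⟨(i, j), hq⟩, Algebra.subset_adjoin (Or.inr ⟨⟨(i, j), hq⟩, h1, h2, rfl⟩)⟩, rfl⟩
  have hmax : ∀ x ∈ maximalIdeal O, algebraMap O (Rm K R) ϖ ∣ algebraMap O (Rm K R) x := by
    intro x hx
    rw [hϖ.maximalIdeal_eq, Ideal.mem_span_singleton] at hx
    exact map_dvd _ hx
  have hUc : (((algebraMap O (Rm K R) R.s) ^ p + algebraMap O (Rm K R) R.π * zR K R : Rm K R) :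
      Aa K p a) = uu K p a := by
    rw [uu_eq K R hp ha h hm, ← map_pow]
    rfl
  have hVc : (((algebraMap O (Rm K R) R.s) ^ a * algebraMap O (Rm K R) R.t *
      (1 + algebraMap O (Rm K R) R.l * wR K R) : Rm K R) : Aa K p a) = vv K p a := by
    rw [vv_eq K R hp ha h hm, ← map_pow, ← map_mul]
    rfl
  have key : ((algebraMap O (Rm K R) R.s) ^ p + algebraMap O (Rm K R) R.π * zR K R) ^ m * M =
      ((algebraMap O (Rm K R) R.s) ^ a * algebraMap O (Rm K R) R.t *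
      (1 + algebraMap O (Rm K R) R.l * wR K R)) ^ j := by
    refine Subtype.ext ?_
    rw [MulMemClass.coe_mul, SubmonoidClass.coe_pow, SubmonoidClass.coe_pow, hUc, hVc, hM]
    refine Subtype.ext ?_
    change (sx K p ^ p * tx K p ^ 0) ^ m * (sx K p ^ i * tx K p ^ j) =
      (sx K p ^ a * tx K p ^ 1) ^ j
    have e1 : (sx K p ^ a * tx K p ^ 1) ^ j = sx K p ^ (a * j) * tx K p ^ j := by
      rw [pow_one, mul_pow, ← pow_mul]
    have e2 : (sx K p ^ p * tx K p ^ 0) ^ m = sx K p ^ (p * m) := by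
      rw [pow_zero, mul_one, ← pow_mul]
    rw [e1, e2, hmd, pow_add]
    ring
  obtain ⟨y, hy⟩ := mm_gen ((Rp.s_unit hp hm R ha h).map (algebraMap O (Rm K R)))
    (hmax _ (Rp.π_mem hp hm R)) (hmax _ (Rp.l_mem hp hm R)) hmd key
  refine ⟨y, ?_⟩
  have h6 := congrArg (fun x : Rm K R => (x : Aa K p a)) hy
  rw [← map_pow, ← map_pow, ← map_mul] at h6
  change (M : Aa K p a) - algebraMap O (Aa K p a) (R.s ^ i * R.t ^ j) =
    algebraMap O (Aa K p a) ϖ * (y : Aa K p a) at h6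
  rw [← hM, h6, Algebra.smul_def]

end DK
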