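import Pool.Agent.Lib.MP_f80667_ag.Cv.Dg

/-! The fibres of a torsion free algebra over a discrete valuation ring. -/

open TensorProduct IsLocalRing CV

namespace DK

variable {O K R : Type} [CommRing O] [IsDomain O] [IsDiscreteValuationRing O] [Field K]
  [Algebra O K] [IsFractionRing O K] [CommRing R] [Algebra O R]

/-- The elements which are `0` in the special fibre. -/
theorem red_zero {ϖ : O} (hϖ : Irreducible ϖ) {x : R} :
    (1 : ResidueField O) ⊗ₜ[O] x = 0 ↔ ∃ y : R, x = ϖ • y := by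
  have h1 : TensorProduct.quotTensorEquivQuotSMul R (maximalIdeal O)
      ((Ideal.Quotient.mk (maximalIdeal O) 1) ⊗ₜ[O] x) = Submodule.Quotient.mk ((1 : O) • x) :=
    TensorProduct.quotTensorEquivQuotSMul_mk_tmul _ _ _
  rw [one_smul, map_one] at h1
  have h2 : (1 : ResidueField O) ⊗ₜ[O] x = 0 ↔
      (1 : O ⧸ maximalIdeal O) ⊗ₜ[O] x = 0 := Iff.rfl
  rw [h2, ← (TensorProduct.quotTensorEquivQuotSMul R (maximalIdeal O)).map_eq_zero_iff, h1,
    Submodule.Quotient.mk_eq_zero, hϖ.maximalIdeal_eq, Submodule.ideal_span_singleton_smul,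
    Submodule.mem_smul_pointwise_iff_exists]
  constructor
  · rintro ⟨w, -, h⟩
    exact ⟨w, h.symm⟩
  · rintro ⟨w, h⟩
    exact ⟨w, Submodule.mem_top, h.symm⟩

/-- Every element of the special fibre comes from `R`. -/
theorem red_surj (y : ResidueField O ⊗[O] R) : ∃ x : R, y = (1 : ResidueField O) ⊗ₜ[O] x := by
  induction y using TensorProduct.induction_on with
  | zero => exact ⟨0, by rw [tmul_zero]⟩
  | tmul c x =>
    obtain ⟨a, rfl⟩ := residue_surjective c
    refine ⟨a • x, ?_⟩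
    rw [tmul_smul, smul_tmul', Algebra.smul_def, mul_one]
    rfl
  | add y z hy hz =>
    obtain ⟨x, rfl⟩ := hy
    obtain ⟨w, rfl⟩ := hz
    exact ⟨x + w, by rw [tmul_add]⟩

/-- The elements of the generic fibre. -/
theorem gen_surj (y : K ⊗[O] R) : ∃ (c : O) (x : R), c ≠ 0 ∧
    algebraMap O K c • y = (1 : K) ⊗ₜ[O] x := by
  induction y using TensorProduct.induction_on with
  | zero => exact ⟨1, 0, one_ne_zero, by rw [tmul_zero, smul_zero]⟩
  | tmul k x =>
    obtain ⟨a, c, hc, rfl⟩ := IsFractionRing.div_surjective (A := O) k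
    have hc0 : c ≠ 0 := nonZeroDivisors.ne_zero hc
    have hc' : algebraMap O K c ≠ 0 := by
      rwa [Ne, FaithfulSMul.algebraMap_eq_zero_iff]
    refine ⟨c, a • x, hc0, ?_⟩
    rw [smul_tmul', smul_eq_mul, mul_div_cancel₀ _ hc', tmul_smul, smul_tmul', Algebra.smul_def,
      mul_one]
  | add y z hy hz =>
    obtain ⟨c, x, hc, hx⟩ := hy
    obtain ⟨d, w, hd, hw⟩ := hz
    refine ⟨c * d, d • x + c • w, mul_ne_zero hc hd, ?_⟩
    rw [tmul_add, tmul_smul, tmul_smul, ← hx, ← hw, ← algebraMap_smul K d, ← algebraMap_smul K c,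
      smul_smul, smul_smul, map_mul, smul_add, mul_comm (algebraMap O K d)]

theorem gen_inj (htf : ∀ (c : O) (x : R), c ≠ 0 → c • x = 0 → x = 0) {x : R}
    (h : (1 : K) ⊗ₜ[O] x = 0) : x = 0 := by
  have h1 : IsLocalizedModule (nonZeroDivisors O) (TensorProduct.mk O K R 1) :=
    (isLocalizedModule_iff_isBaseChange (nonZeroDivisors O) K _).2
      (TensorProduct.isBaseChange O R K)
  have h2 : TensorProduct.mk O K R 1 x = 0 := h
  rw [IsLocalizedModule.eq_zero_iff (nonZeroDivisors O)] at h2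
  obtain ⟨c, hc⟩ := h2
  exact htf c x (nonZeroDivisors.ne_zero c.2) hc

end DK
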