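import Pool.Agent.Lib.MP_f80667_ag.Dk.Mz
import Pool.Agent.Lib.MP_f80667_ag.Dk.Mm
import Pool.Agent.Lib.MP_f80667_ag.Dk.Mc
import Pool.Agent.Lib.MP_f80667_ag.Dk.Na

/-! The surjection to the special fibre of the model. -/

open TensorProduct IsLocalRing CV Polynomial

namespace DK

variable {O : Type} (K : Type) [CommRing O] [Field K] [Algebra O K] {p a : ℕ} (R : Rp O p a)
  [IsDomain O] [IsDiscreteValuationRing O] [IsFractionRing O K] [CharZero K]
  (hp : p.Prime) (ha : 0 < a) (h : a + 1 < p) (hm : (p : O) ∈ maximalIdeal O)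

include hp ha h hm in
/-- **The surjection.** Proof: `Se.lift` with the images `1 ⊗ w`, `1 ⊗ z` (`rel_zw`, `red_zero`: `(a + 1) ^ 3 z ^ 2 = - 2 a (w ^ p + w)`);
surjective: `Rm` is generated by `z`, `w` and monomials whose images are constants (`rel_mon`). -/
theorem exists_beta : ∃ β : Se.Rg 2 (qa (ResidueField O) p a) →ₐ[ResidueField O]
    ResidueField O ⊗[O] (Rm K R), Function.Surjective β := by
  obtain ⟨ϖ, hϖ⟩ := IsDiscreteValuationRing.exists_irreducible O
  obtain ⟨y, hy⟩ := rel_zw K R hp ha h hm hϖ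
  obtain ⟨ι, hι⟩ : ∃ ι : Rm K R →ₐ[O] ResidueField O ⊗[O] (Rm K R),
      ∀ x, ι x = (1 : ResidueField O) ⊗ₜ[O] x :=
    ⟨Algebra.TensorProduct.includeRight, fun _ => rfl⟩
  have h0 : ι (ϖ • y) = 0 := by
    rw [hι]
    exact (red_zero hϖ).2 ⟨y, rfl⟩
  rw [← hy] at h0
  simp only [map_add, map_mul, map_pow, map_natCast, map_ofNat, map_one] at h0
  have hc : ((a : ResidueField O) + 1) ≠ 0 := by
    have h1 : IsUnit (((a + 1 : ℕ) : O)) := by
      refine nat_unit hp hm fun h2 => ?_
      have := Nat.le_of_dvd (Nat.succ_pos a) h2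
      omega
    have h2 := (h1.map (residue O)).ne_zero
    rw [map_natCast] at h2
    exact_mod_cast h2
  have hZ : ι (zR K R) ^ 2 = aeval (ι (wR K R)) (qa (ResidueField O) p a) := by
    unfold qa
    rw [map_mul, aeval_C, map_add, map_pow, aeval_X]
    have h1 : algebraMap (ResidueField O) (ResidueField O ⊗[O] (Rm K R))
        ((((a : ResidueField O) + 1) ^ 3)⁻¹) *
        ((a : ResidueField O ⊗[O] (Rm K R)) + 1) ^ 3 = 1 := by
      have h2 : ((a : ResidueField O ⊗[O] (Rm K R)) + 1) ^ 3 =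
          algebraMap (ResidueField O) (ResidueField O ⊗[O] (Rm K R))
            (((a : ResidueField O) + 1) ^ 3) := by
        rw [map_pow, map_add, map_natCast, map_one]
      rw [h2, ← map_mul, inv_mul_cancel₀ (pow_ne_zero 3 hc), map_one]
    have h3 : algebraMap (ResidueField O) (ResidueField O ⊗[O] (Rm K R))
        (-(2 * a) / ((a : ResidueField O) + 1) ^ 3) =
        -(2 * (a : ResidueField O ⊗[O] (Rm K R))) *
          algebraMap (ResidueField O) (ResidueField O ⊗[O] (Rm K R))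
            ((((a : ResidueField O) + 1) ^ 3)⁻¹) := by
      rw [div_eq_mul_inv, map_mul, map_neg, map_mul, map_ofNat, map_natCast]
    rw [h3]
    linear_combination algebraMap (ResidueField O) (ResidueField O ⊗[O] (Rm K R))
        ((((a : ResidueField O) + 1) ^ 3)⁻¹) * h0 - ι (zR K R) ^ 2 * h1
  refine ⟨Se.lift hZ, ?_⟩
  have key : ∀ (x : Aa K p a) (hx : x ∈ Rm K R), ι ⟨x, hx⟩ ∈ (Se.lift hZ).range := by
    intro x hx
    refine Algebra.adjoin_induction (p := fun x hx => ι ⟨x, hx⟩ ∈ (Se.lift hZ).range)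
      ?_ ?_ ?_ ?_ hx
    · rintro x ((hx | hx) | ⟨q, h1, h2, hx⟩)
      · subst hx
        exact ⟨Se.gu 2 _, Se.lift_gu hZ⟩
      · have hx' : x = wM K R := hx
        subst hx'
        exact ⟨Se.gx 2 _, Se.lift_gx hZ⟩
      · subst hx
        obtain ⟨v, hv⟩ := rel_mon K R hp ha h hm hϖ q h1 h2
        have h3 : (⟨mon K q, Algebra.subset_adjoin (Or.inr ⟨q, h1, h2, rfl⟩)⟩ : Rm K R) =
            algebraMap O (Rm K R) (R.s ^ (q : ℕ × ℕ).1 * R.t ^ (q : ℕ × ℕ).2) + ϖ • v := by
          apply Subtype.ext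
          have h4 : mon K q = algebraMap O (Aa K p a)
              (R.s ^ (q : ℕ × ℕ).1 * R.t ^ (q : ℕ × ℕ).2) + ϖ • (v : Aa K p a) := by
            rw [← hv]
            ring
          exact h4
        rw [h3, map_add]
        have h5 : ι (ϖ • v) = 0 := by
          rw [hι]
          exact (red_zero hϖ).2 ⟨v, rfl⟩
        rw [h5, add_zero, AlgHom.commutes]
        have h6 : algebraMap O (ResidueField O ⊗[O] (Rm K R))
            (R.s ^ (q : ℕ × ℕ).1 * R.t ^ (q : ℕ × ℕ).2) =
            algebraMap (ResidueField O) (ResidueField O ⊗[O] (Rm K R))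
              (algebraMap O (ResidueField O) (R.s ^ (q : ℕ × ℕ).1 * R.t ^ (q : ℕ × ℕ).2)) :=
          IsScalarTower.algebraMap_apply _ _ _ _
        rw [h6]
        exact Subalgebra.algebraMap_mem _ _
    · intro r
      have h5 : ι ⟨algebraMap O (Aa K p a) r, Subalgebra.algebraMap_mem _ r⟩ =
          algebraMap O (ResidueField O ⊗[O] (Rm K R)) r := ι.commutes r
      rw [h5, IsScalarTower.algebraMap_apply O (ResidueField O) (ResidueField O ⊗[O] (Rm K R))]
      exact Subalgebra.algebraMap_mem _ _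
    · intro x y hx hy h1 h2
      have h3 : ι ⟨x + y, add_mem hx hy⟩ = ι ⟨x, hx⟩ + ι ⟨y, hy⟩ := by
        rw [← map_add]
        rfl
      rw [h3]
      exact add_mem h1 h2
    · intro x y hx hy h1 h2
      have h3 : ι ⟨x * y, mul_mem hx hy⟩ = ι ⟨x, hx⟩ * ι ⟨y, hy⟩ := by
        rw [← map_mul]
        rfl
      rw [h3]
      exact mul_mem h1 h2
  intro t
  obtain ⟨x, rfl⟩ := red_surj t
  rw [← hι]
  exact key x.1 x.2

end DK
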