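import Pool.Agent.Lib.MP_f80667_ag.Cv.Mt
import Pool.Agent.Lib.MP_f80667_ag.Cv.DgQ

/-! The dimension of the space of the elements of bounded degree. -/

open CV Module

namespace DK

/-- The dimension of the space of the elements of degree at most `n`. Proof: the basis elements `T.e k`, `k ≤ n`. -/
theorem mt_rank {K A : Type} [Field K] [CommRing A] [Algebra K A] (T : Mt K A) (n : ℕ) :
    finrank K (T.dg.L n) = {k : ℕ | k ∈ T.S ∧ k ≤ n}.ncard := by
  have hL : T.dg.L n = T.L n := by
    ext x
    exact T.d_le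
  rw [hL]
  let I : Type := {k : T.S // (k : ℕ) < n + 1}
  have hinj : Function.Injective (fun i : I => (⟨(i.1 : ℕ), i.2⟩ : Fin (n + 1))) := by
    intro i j hij
    have h1 : (i.1 : ℕ) = (j.1 : ℕ) := congrArg Fin.val hij
    exact Subtype.ext (Subtype.ext h1)
  haveI : Finite I := Finite.of_injective _ hinj
  letI : Fintype I := Fintype.ofFinite I
  let b : I → A := fun i => T.e i.1
  have hb : LinearIndependent K b :=
    T.e.linearIndependent.comp (fun i : I => i.1) Subtype.val_injective
  have hr : T.L n = Submodule.span K (Set.range b) := by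
    change Submodule.span K (T.e '' {k | (k : ℕ) < n + 1}) = _
    congr 1
    ext x
    constructor
    · rintro ⟨k, hk, rfl⟩
      exact ⟨⟨k, hk⟩, rfl⟩
    · rintro ⟨i, rfl⟩
      exact ⟨i.1, i.2, rfl⟩
  rw [hr, finrank_span_eq_card hb, ← Nat.card_eq_fintype_card, ← Nat.card_coe_set_eq]
  refine Nat.card_congr
    { toFun := fun i => ⟨(i.1 : ℕ), i.1.2, Nat.lt_succ_iff.1 i.2⟩
      invFun := fun k => ⟨⟨k.1, k.2.1⟩, Nat.lt_succ_iff.2 k.2.2⟩
      left_inv := fun i => rfl
      right_inv := fun k => rfl }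

end DK
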