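import Pool.Agent.Lib.MP_f80667_ag.Dk.Na
import Pool.Agent.Lib.MP_f80667_ag.Cv.Defs
import Pool.Agent.Lib.MP_f80667_ag.Cv.DgQ

/-! Algebras over a complete discrete valuation ring with an integral point. -/

open TensorProduct IsLocalRing CV

namespace DK

variable {O K R : Type} [CommRing O] [IsDomain O] [IsDiscreteValuationRing O] [Field K]
  [Algebra O K] [IsFractionRing O K] [CommRing R] [Algebra O R]
  (htf : ∀ (c : O) (x : R), c ≠ 0 → c • x = 0 → x = 0)

omit [IsDomain O] [IsDiscreteValuationRing O] in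
private theorem nd_tmul (A : Type) [CommRing A] [Algebra O A] (c : O) (x : R) :
    (1 : A) ⊗ₜ[O] (c • x) = algebraMap O A c • ((1 : A) ⊗ₜ[O] x) := by
  rw [algebraMap_smul, TensorProduct.tmul_smul]

private theorem nd_mem {M : Type} [AddCommGroup M] [Module O M] {ϖ : O} (hϖ : Irreducible ϖ)
    (n : ℕ) (x : M) : x ∈ ((maximalIdeal O) ^ n • ⊤ : Submodule O M) ↔ ∃ w, x = ϖ ^ n • w := by
  rw [hϖ.maximalIdeal_eq, Ideal.span_singleton_pow, Submodule.ideal_span_singleton_smul,
    Submodule.mem_smul_pointwise_iff_exists]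
  constructor
  · rintro ⟨w, -, h⟩
    exact ⟨w, h.symm⟩
  · rintro ⟨w, h⟩
    exact ⟨w, Submodule.mem_top, h.symm⟩

private theorem nd_prec [IsAdicComplete (maximalIdeal O) O] (m : ℕ) :
    IsPrecomplete (maximalIdeal O) (Fin m → O) := by
  obtain ⟨ϖ, hϖ⟩ := IsDiscreteValuationRing.exists_irreducible O
  constructor
  intro f hf
  have h1 : ∀ i, ∃ L : O, ∀ n, f n i ≡ L [SMOD ((maximalIdeal O) ^ n • ⊤ : Submodule O O)] := by
    intro i
    refine IsPrecomplete.prec' (fun n => f n i) fun {a b} hab => ?_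
    have h2 := hf hab
    rw [SModEq.sub_mem, nd_mem hϖ] at h2 ⊢
    obtain ⟨w, hw⟩ := h2
    exact ⟨w i, congrFun hw i⟩
  choose L hL using h1
  refine ⟨L, fun n => ?_⟩
  rw [SModEq.sub_mem, nd_mem hϖ]
  have h3 : ∀ i, ∃ w, f n i - L i = ϖ ^ n • w := fun i => by
    have h4 := hL i n
    rwa [SModEq.sub_mem, nd_mem hϖ] at h4
  choose w hw using h3
  exact ⟨w, funext fun i => hw i⟩

private theorem nd_haus {ϖ : O} (hϖ : Irreducible ϖ)
    (hsep : ∀ x : R, (∀ n : ℕ, ∃ y, x = ϖ ^ n • y) → x = 0) :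
    IsHausdorff (maximalIdeal O) R := by
  constructor
  intro x hx
  refine hsep x fun k => ?_
  have h1 := hx k
  rwa [SModEq.zero, nd_mem hϖ] at h1

/-- Separated. Proof: `R` is a noetherian domain (`R` is contained in the generic fibre, which is a domain by `Gg.isDomain`), a
uniformizer `ϖ` is not a unit in `R` because its image under `pt` is not: `Ideal.iInf_pow_eq_bot_of_isDomain`. -/
theorem crit_sep [Algebra.FiniteType O R] (htf : ∀ (c : O) (x : R), c ≠ 0 → c • x = 0 → x = 0)
    (Gg : Dg K (K ⊗[O] R)) (pt : R →ₐ[O] O) :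
    ∀ ϖ : O, Irreducible ϖ → ∀ x : R, (∀ n : ℕ, ∃ y, x = ϖ ^ n • y) → x = 0 := by
  intro ϖ hϖ x hx
  have hdom := Gg.isDomain
  have hinj : Function.Injective (Algebra.TensorProduct.includeRight : R →ₐ[O] K ⊗[O] R) := by
    rw [injective_iff_map_eq_zero]
    intro y hy
    exact gen_inj htf hy
  have hR : IsDomain R := hinj.isDomain
    (Algebra.TensorProduct.includeRight : R →ₐ[O] K ⊗[O] R).toRingHom
  have hN : IsNoetherianRing R := Algebra.FiniteType.isNoetherianRing O R
  have hne : Ideal.span {algebraMap O R ϖ} ≠ ⊤ := by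
    rw [Ne, Ideal.span_singleton_eq_top]
    intro hu
    have h1 := hu.map pt
    rw [AlgHom.commutes] at h1
    exact hϖ.not_isUnit h1
  have hbot := Ideal.iInf_pow_eq_bot_of_isDomain (Ideal.span {algebraMap O R ϖ}) hne
  have hmem : x ∈ (⨅ i : ℕ, Ideal.span {algebraMap O R ϖ} ^ i) := by
    rw [Ideal.mem_iInf]
    intro n
    obtain ⟨y, hy⟩ := hx n
    rw [Ideal.span_singleton_pow, hy, Algebra.smul_def, map_pow]
    exact Ideal.mul_mem_right _ _ (Ideal.mem_span_singleton_self _)
  rw [hbot] at hmem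
  exact hmem

private theorem nd_finite [IsAdicComplete (maximalIdeal O) O]
    (hsep : ∀ ϖ : O, Irreducible ϖ → ∀ x : R, (∀ n : ℕ, ∃ y, x = ϖ ^ n • y) → x = 0)
    (hf : Module.Finite (ResidueField O) (ResidueField O ⊗[O] R)) : Module.Finite O R := by
  obtain ⟨ϖ, hϖ⟩ := IsDiscreteValuationRing.exists_irreducible O
  obtain ⟨m, s, hs⟩ := Module.Finite.exists_fin (R := ResidueField O) (M := ResidueField O ⊗[O] R)
  choose g hg using fun i => red_surj (O := O) (s i)
  have := nd_prec (O := O) m
  have := nd_haus hϖ (hsep ϖ hϖ)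
  have hsurj : Function.Surjective (Fintype.linearCombination O g) := by
    refine surjective_of_mkQ_comp_surjective (I := maximalIdeal O) ?_
    intro y
    obtain ⟨x, rfl⟩ := Submodule.mkQ_surjective _ y
    have h0 : (1 : ResidueField O) ⊗ₜ[O] x ∈ Submodule.span (ResidueField O) (Set.range s) := by
      rw [hs]
      exact Submodule.mem_top
    obtain ⟨d, hd⟩ := (Submodule.mem_span_range_iff_exists_fun _).1 h0
    choose c hc using fun i => residue_surjective (d i)
    refine ⟨c, ?_⟩
    rw [LinearMap.comp_apply, Submodule.mkQ_apply, Submodule.mkQ_apply, Submodule.Quotient.eq]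
    have h2 : (1 : ResidueField O) ⊗ₜ[O] (Fintype.linearCombination O g c - x) = 0 := by
      rw [TensorProduct.tmul_sub, sub_eq_zero, Fintype.linearCombination_apply,
        TensorProduct.tmul_sum, ← hd]
      refine Finset.sum_congr rfl fun i _ => ?_
      rw [nd_tmul, ← hg, ← hc]
      rfl
    obtain ⟨y, hy⟩ := (red_zero hϖ).1 h2
    have h4 := nd_mem hϖ 1 (Fintype.linearCombination O g c - x)
    rw [pow_one, pow_one] at h4
    rw [h4]
    exact ⟨y, hy⟩
  exact Module.Finite.of_surjective _ hsurj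

/-- A surjection from the ring of a curve to the special fibre is injective. Proof: otherwise the special fibre is finite over
the residue field (`Dg.finite_quot`), so `R` is a finite `O`-module (completeness and `crit_sep`), and the generic fibre is a
finite `K`-algebra, which contradicts `Gg.tail`. -/
theorem crit_inj [IsAdicComplete (maximalIdeal O) O] [Algebra.FiniteType O R]
    (htf : ∀ (c : O) (x : R), c ≠ 0 → c • x = 0 → x = 0) (Gg : Dg K (K ⊗[O] R)) (pt : R →ₐ[O] O)
    {B : Type} [CommRing B] [Algebra (ResidueField O) B] (Gs : Dg (ResidueField O) B)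
    (β : B →ₐ[ResidueField O] ResidueField O ⊗[O] R) (hβ : Function.Surjective β) :
    Function.Injective β := by
  by_contra hcon
  rw [injective_iff_map_eq_zero] at hcon
  push Not at hcon
  obtain ⟨f, hf, hf0⟩ := hcon
  have h1 := Gs.finite_quot hf0
  have h2 : Module.Finite (ResidueField O) (ResidueField O ⊗[O] R) := by
    have hle : ∀ a ∈ Ideal.span {f}, β a = 0 := by
      intro a ha
      obtain ⟨b, rfl⟩ := Ideal.mem_span_singleton'.1 ha
      rw [map_mul, hf, mul_zero]
    refine Module.Finite.of_surjective (Ideal.Quotient.liftₐ (Ideal.span {f}) β hle).toLinearMap ?_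
    intro y
    obtain ⟨x, hx⟩ := hβ y
    exact ⟨Ideal.Quotient.mk _ x, hx⟩
  have h3 : Module.Finite O R := nd_finite (crit_sep htf Gg pt) h2
  have h4 : Module.Finite K (K ⊗[O] R) := inferInstance
  obtain ⟨N, hN⟩ := Gg.tail
  have h5 := Gg.finrank_L_add hN (Module.finrank K (K ⊗[O] R) + 1)
  have h6 := Submodule.finrank_le (Gg.L (N + (Module.finrank K (K ⊗[O] R) + 1)))
  omega

end DK
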