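import Mathlib

/-! Smooth algebras over a discrete valuation ring. -/

open TensorProduct IsLocalRing

namespace DK

private theorem ne_bc {O κ₁ κ₂ R : Type} [CommRing O] [CommRing κ₁] [CommRing κ₂] [CommRing R]
    [Algebra O κ₁] [Algebra O κ₂] [Algebra O R] (φ : κ₁ →ₐ[O] κ₂)
    (h : Algebra.FormallySmooth κ₁ (κ₁ ⊗[O] R)) : Algebra.FormallySmooth κ₂ (κ₂ ⊗[O] R) := by
  let := φ.toRingHom.toAlgebra
  have : IsScalarTower O κ₁ κ₂ := IsScalarTower.of_algebraMap_eq fun x => (φ.commutes x).symm
  have h2 : Algebra.FormallySmooth κ₂ (κ₂ ⊗[κ₁] (κ₁ ⊗[O] R)) := inferInstance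
  exact .of_equiv (Algebra.TensorProduct.cancelBaseChange O κ₁ κ₂ κ₂ R)

/-- **Smooth fibres.** Proof: `Algebra.Smooth.of_formallySmooth_fiber`: `R` is flat and finitely presented (`O` is noetherian);
the prime ideals of `O` are `⊥` (the residue field is isomorphic to `K`) and the maximal ideal. -/
theorem crit_smooth {O K R : Type} [CommRing O] [IsDomain O] [IsDiscreteValuationRing O] [Field K]
    [Algebra O K] [IsFractionRing O K] [CommRing R] [Algebra O R] [Algebra.FiniteType O R]
    (htf : ∀ (c : O) (x : R), c ≠ 0 → c • x = 0 → x = 0)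
    (hK : Algebra.FormallySmooth K (K ⊗[O] R))
    (hk : Algebra.FormallySmooth (ResidueField O) (ResidueField O ⊗[O] R)) :
    Algebra.Smooth O R := by
  have hflat : Module.Flat O R := by
    rw [IsDedekindDomain.flat_iff_torsion_eq_bot, eq_bot_iff]
    intro x hx
    obtain ⟨a, ha⟩ := (Submodule.mem_torsion_iff x).1 hx
    exact htf a x (nonZeroDivisors.coe_ne_zero a) ha
  have hfp : Algebra.FinitePresentation O R := Algebra.FinitePresentation.of_finiteType.1 inferInstance
  refine Algebra.Smooth.of_formallySmooth_fiber fun I hI => ?_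
  have hker : ∀ x : O, algebraMap O I.ResidueField x = 0 ↔ x ∈ I := fun x =>
    Ideal.algebraMap_residueField_eq_zero
  by_cases h0 : I = ⊥
  · have hinj : Function.Injective (Algebra.ofId O I.ResidueField) := by
      rw [injective_iff_map_eq_zero]
      intro x hx
      have := (hker x).1 hx
      rwa [h0] at this
    exact ne_bc (IsFractionRing.liftAlgHom (K := K) hinj) hK
  · have hmax : I = maximalIdeal O := eq_maximalIdeal (hI.isMaximal h0)
    refine ne_bc (κ₁ := ResidueField O) (Ideal.Quotient.liftₐ (maximalIdeal O) (Algebra.ofId O I.ResidueField) ?_) hk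
    intro x hx
    exact (hker x).2 (hmax ▸ hx)

end DK
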