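import Pool.Agent.Lib.MP_f80667_ag.Dk.Nc
import Pool.Agent.Lib.MP_f80667_ag.Dk.Nd
import Pool.Agent.Lib.MP_f80667_ag.Dk.Ne

/-! A criterion of good reduction. -/

open TensorProduct IsLocalRing CV Module

namespace DK

/-- Transport of a degree function. -/
private noncomputable def nfDg {K A B : Type} [Field K] [CommRing A] [Algebra K A] [CommRing B]
    [Algebra K B] (G : Dg K B) (e : A ≃ₐ[K] B) : Dg K A where
  d x := G.d (e x)
  bot x := by rw [G.bot, map_eq_zero_iff _ e.injective]
  mul x y := by rw [map_mul, G.mul]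
  add x y := by rw [map_add]; exact G.add _ _
  lead x y hy h := by
    obtain ⟨c, hc⟩ := G.lead (e x) (e y)
      (fun h => hy ((map_eq_zero_iff _ e.injective).1 h)) h
    exact ⟨c, by rw [map_sub, map_smul]; exact hc⟩
  tail := by
    obtain ⟨n₀, h⟩ := G.tail
    refine ⟨n₀, fun n hn => ?_⟩
    obtain ⟨x, hx⟩ := h n hn
    exact ⟨e.symm x, by rw [e.apply_symm_apply]; exact hx⟩

private theorem nf_finrank {K A B : Type} [Field K] [CommRing A] [Algebra K A] [CommRing B]
    [Algebra K B] (G : Dg K B) (e : A ≃ₐ[K] B) (n : ℕ) :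
    finrank K ((nfDg G e).L n) = finrank K (G.L n) := by
  have h : (G.L n) = ((nfDg G e).L n).map (e.toLinearEquiv : A →ₗ[K] B) := by
    ext x
    constructor
    · intro hx
      refine ⟨e.symm x, ?_, e.apply_symm_apply x⟩
      change G.d (e (e.symm x)) ≤ n
      rw [e.apply_symm_apply]
      exact hx
    · rintro ⟨y, hy, rfl⟩
      exact hy
  rw [h]
  exact (LinearEquiv.finrank_map_eq e.toLinearEquiv _).symm

/-- **Criterion of good reduction.** `O` a complete discrete valuation ring, `R` a torsion free `O`-algebra of finite type with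
generic fibre the affine ring of the curve `C` and with a point over `O`, `B` the affine ring of a smooth curve over the residue
field of the same genus with a surjection to the special fibre of `R`. Then `R` is a smooth model. Proof: `crit_inj`: `β` is an
isomorphism; the orders `C.G` and `Gs` transported by `e` and `β`; `crit_smooth`, `exists_adp` (`crit_sep`). -/
theorem mod_crit {O K : Type} [CommRing O] [IsDomain O] [IsDiscreteValuationRing O]
    [IsAdicComplete (maximalIdeal O) O] [Field K] [Algebra O K] [IsFractionRing O K]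
    (C : Crv K) {R : Type} [CommRing R] [Algebra O R] [Algebra.FiniteType O R]
    (htf : ∀ (c : O) (x : R), c ≠ 0 → c • x = 0 → x = 0) (e : K ⊗[O] R ≃ₐ[K] C.A)
    {B : Type} [CommRing B] [Algebra (ResidueField O) B] (sB : Algebra.Smooth (ResidueField O) B)
    (Gs : Dg (ResidueField O) B) (β : B →ₐ[ResidueField O] ResidueField O ⊗[O] R)
    (hβ : Function.Surjective β) (pt : R →ₐ[O] O)
    (hg : ∃ n₀ : ℕ, ∀ n, n₀ ≤ n →
      finrank K (C.G.L n) = finrank (ResidueField O) (Gs.L n)) : Nonempty (Mod C O K) := by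
  obtain ⟨Gg, hGg⟩ : ∃ G, G = nfDg C.G e := ⟨_, rfl⟩
  have hinj : Function.Injective β := crit_inj htf Gg pt Gs β hβ
  let b' : B ≃ₐ[ResidueField O] ResidueField O ⊗[O] R := AlgEquiv.ofBijective β ⟨hinj, hβ⟩
  obtain ⟨Gt, hGt⟩ : ∃ G, G = nfDg Gs b'.symm := ⟨_, rfl⟩
  have hg' : ∃ n₀ : ℕ, ∀ n, n₀ ≤ n → finrank K (Gg.L n) = finrank (ResidueField O) (Gt.L n) := by
    obtain ⟨n₀, h⟩ := hg
    refine ⟨n₀, fun n hn => ?_⟩
    rw [hGg, hGt, nf_finrank, nf_finrank]
    exact h n hn
  obtain ⟨k, N, b, lo, hi⟩ := exists_adp htf Gg Gt (crit_sep htf Gg pt) hg'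
  have hsm := C.sm
  have hK : Algebra.FormallySmooth K (K ⊗[O] R) := Algebra.FormallySmooth.of_equiv e.symm
  have hk : Algebra.FormallySmooth (ResidueField O) (ResidueField O ⊗[O] R) :=
    Algebra.FormallySmooth.of_equiv b'
  exact ⟨{
    R := R
    sm := crit_smooth htf hK hk
    iso := e.trans (Algebra.TensorProduct.lid K C.A).symm
    Gg := Gg
    Gs := Gt
    h := k
    N := N
    b := b
    lo := lo
    hi := hi }⟩

end DK
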