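import Pool.Agent.Lib.MP_f80667_ag.Dk.Rs
import Pool.Agent.Lib.MP_f80667_ag.Dk.Mg
import Pool.Agent.Lib.MP_f80667_ag.Dk.Mr
import Pool.Agent.Lib.MP_f80667_ag.Dk.Md
import Pool.Agent.Lib.MP_f80667_ag.Dk.Nf

/-! Good reduction of the curve `v ^ p = u ^ a (1 + u)` in residue characteristic `p`. -/

open TensorProduct IsLocalRing CV Polynomial Module

namespace DK

/-- **Good reduction.** Proof: `mod_crit` with `Rm K R`: `rm_ft`, `rm_tf`, `rm_iso`, `rm_pt`, `qa_smooth`, `exists_tb2`,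
`exists_beta`, `mt_rank`, `gen_eq`, `tbl_S`. -/
theorem mod_ca {O : Type} (K : Type) [CommRing O] [IsDomain O] [IsDiscreteValuationRing O]
    [IsAdicComplete (maximalIdeal O) O] [Field K] [Algebra O K] [IsFractionRing O K] [CharZero K]
    {p a : ℕ} (R : Rp O p a) (hp : p.Prime) (ha : 0 < a) (h : a + 1 < p)
    (hm : (p : O) ∈ maximalIdeal O) : Nonempty (Mod (Ca K hp ha h) O K) := by
  have hk : (p : ResidueField O) = 0 := by
    have h1 := (residue_eq_zero_iff (p : O)).2 hm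
    rwa [map_natCast] at h1
  obtain ⟨T, hT⟩ := exists_tb2 hp ha h hk
  obtain ⟨e⟩ := rm_iso K R hp ha h hm
  obtain ⟨pt⟩ := rm_pt K R hp ha h hm
  obtain ⟨β, hβ⟩ := exists_beta K R hp ha h hm
  have hft := rm_ft K R
  refine mod_crit (Ca K hp ha h) (R := Rm K R) (fun c x hc hx => rm_tf K R c x hc hx) e
    (qa_smooth hp ha h hk) T.dg β hβ pt ⟨p, fun n hn => ?_⟩
  have h1 : finrank K ((Ca K hp ha h).G.L n) = {k : ℕ | k ∈ (tbl K hp h).S ∧ k ≤ n}.ncard :=
    mt_rank (tbl K hp h) n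
  rw [h1, mt_rank T n, tbl_S, hT]
  exact gen_eq hp ha h hn

end DK
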