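import Pool.Agent.Lib.MP_f80667_ag.Dk.Ma
import Pool.Agent.Lib.MP_f80667_ag.Dk.Na

/-! The generic fibre and the point of the model. -/

open TensorProduct IsLocalRing CV Polynomial

namespace DK

variable {O : Type} (K : Type) [CommRing O] [Field K] [Algebra O K] {p a : ℕ} (R : Rp O p a)
  [IsDomain O] [IsDiscreteValuationRing O] [IsFractionRing O K] [CharZero K]
  (hp : p.Prime) (ha : 0 < a) (h : a + 1 < p) (hm : (p : O) ∈ maximalIdeal O)

include hp ha h hm in
private theorem mi_uu : uu K p a ∈ Rm K R := by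
  rw [uu_eq K R hp ha h hm]
  refine add_mem (Subalgebra.algebraMap_mem _ _) (mul_mem (Subalgebra.algebraMap_mem _ _) ?_)
  exact Algebra.subset_adjoin (Or.inl (Or.inl rfl))

include hp ha h hm in
/-- All monomials are in the model. Proof: `mon (i, j) = u ^ m * mon (i', j')` up to `t ^ p = 1 + u`, `i', j' < p`. -/
theorem mon_mem (q : Ex p a) : mon K q ∈ Rm K R := by
  have hu := mi_uu K R hp ha h hm
  obtain ⟨⟨i, j⟩, hq⟩ := q
  have hq' : i ≡ a * j [MOD p] := hq
  have hr : ((i % p, j % p) : ℕ × ℕ) ∈ Ex p a := by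
    rw [mem_Ex]
    change i % p ≡ a * (j % p) [MOD p]
    exact (Nat.mod_modEq i p).trans (hq'.trans ((Nat.mod_modEq j p).symm.mul_left a))
  have e1 : mon K ⟨(i, j), hq⟩ = uu K p a ^ (i / p) * (1 + uu K p a) ^ (j / p) *
      mon K ⟨(i % p, j % p), hr⟩ := by
    refine Subtype.ext ?_
    change sx K p ^ i * tx K p ^ j = (sx K p ^ p * tx K p ^ 0) ^ (i / p) *
      (1 + sx K p ^ p * tx K p ^ 0) ^ (j / p) * (sx K p ^ (i % p) * tx K p ^ (j % p))
    have e2 : sx K p ^ i = (sx K p ^ p) ^ (i / p) * sx K p ^ (i % p) := by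
      rw [← pow_mul, ← pow_add, Nat.div_add_mod]
    have e3 : tx K p ^ j = (tx K p ^ p) ^ (j / p) * tx K p ^ (j % p) := by
      rw [← pow_mul, ← pow_add, Nat.div_add_mod]
    rw [e2, e3, tx_pow, pow_zero, mul_one]
    ring
  rw [e1]
  refine mul_mem (mul_mem (pow_mem hu _) (pow_mem (add_mem (one_mem _) hu) _)) ?_
  exact Algebra.subset_adjoin (Or.inr ⟨_, Nat.mod_lt _ hp.pos, Nat.mod_lt _ hp.pos, rfl⟩)

/-- Torsion free. -/
theorem rm_tf (c : O) (x : Rm K R) (hc : c ≠ 0) (hx : c • x = 0) : x = 0 := by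
  have h1 : algebraMap O K c • (x : Aa K p a) = 0 := by
    rw [algebraMap_smul]
    have h2 := congrArg (fun z : Rm K R => (z : Aa K p a)) hx
    exact h2
  have hc' : algebraMap O K c ≠ 0 := by
    rwa [Ne, FaithfulSMul.algebraMap_eq_zero_iff]
  have h3 := congrArg (fun z => (algebraMap O K c)⁻¹ • z) h1
  beta_reduce at h3
  rw [smul_smul, inv_mul_cancel₀ hc', one_smul, smul_zero] at h3
  exact Subtype.ext h3

include hp ha h hm in
/-- **The generic fibre.** Proof: `mon_mem`, `aa_span`: every element of `Aa K p a` has a multiple by `c ≠ 0` in `O` in the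
model; the map `K ⊗ Rm → Aa K p a` is injective because every element of `K ⊗ Rm` has a multiple `1 ⊗ x`. -/
theorem rm_iso : Nonempty (K ⊗[O] (Rm K R) ≃ₐ[K] Aa K p a) := by
  obtain ⟨φ, hφ⟩ : ∃ φ : K ⊗[O] (Rm K R) →ₐ[K] Aa K p a,
      ∀ x : Rm K R, φ ((1 : K) ⊗ₜ[O] x) = (x : Aa K p a) := by
    refine ⟨Algebra.TensorProduct.lift (Algebra.ofId K (Aa K p a)) (Rm K R).val
      (fun _ _ => mul_comm _ _), fun x => ?_⟩
    rw [Algebra.TensorProduct.lift_tmul, map_one, one_mul]
    rfl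
  refine ⟨AlgEquiv.ofBijective φ ⟨?_, ?_⟩⟩
  · rw [injective_iff_map_eq_zero]
    intro y hy
    obtain ⟨c, x, hc, hx⟩ := gen_surj (O := O) y
    have h1 := hφ x
    rw [← hx, map_smul, hy, smul_zero] at h1
    have h2 : x = 0 := Subtype.ext h1.symm
    rw [h2, tmul_zero] at hx
    have hc' : algebraMap O K c ≠ 0 := by
      rwa [Ne, FaithfulSMul.algebraMap_eq_zero_iff]
    have h3 := congrArg (fun z => (algebraMap O K c)⁻¹ • z) hx
    beta_reduce at h3
    rw [smul_smul, inv_mul_cancel₀ hc', one_smul, smul_zero] at h3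
    exact h3
  · intro y
    have h1 : (⊤ : Submodule K (Aa K p a)) ≤ LinearMap.range φ.toLinearMap := by
      rw [← aa_span K, Submodule.span_le]
      rintro _ ⟨q, rfl⟩
      exact ⟨(1 : K) ⊗ₜ[O] ⟨mon K q, mon_mem K R hp ha h hm q⟩, hφ _⟩
    obtain ⟨z, hz⟩ := h1 (Submodule.mem_top : y ∈ ⊤)
    exact ⟨z, hz⟩

include hp ha h hm in
/-- **The point.** Proof: `exists_aa` with `x = s₀`, `y = t₀` in `K`; `z`, `w` go to `0`, the monomials to `O`. -/
theorem rm_pt : Nonempty (Rm K R →ₐ[O] O) := by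
  have hrel : (algebraMap O K R.t) ^ p = 1 + (algebraMap O K R.s) ^ p := by
    rw [← map_pow, R.ht, map_add, map_one, map_pow]
  obtain ⟨φ, hφ⟩ := exists_aa (a := a) K hrel
  have hs0 : algebraMap O K R.s ≠ 0 := by
    rw [Ne, FaithfulSMul.algebraMap_eq_zero_iff]
    exact (R.s_unit hp hm ha h).ne_zero
  have ht0 : algebraMap O K R.t ≠ 0 := by
    rw [Ne, FaithfulSMul.algebraMap_eq_zero_iff]
    exact (R.t_unit hp hm ha h).ne_zero
  have hz : φ (zM K R) = 0 := by
    unfold zM uu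
    rw [map_smul, map_sub, hφ, AlgHom.commutes, map_pow]
    change _ • (algebraMap O K R.s ^ p * algebraMap O K R.t ^ 0 - algebraMap O K R.s ^ p) = _
    rw [pow_zero, mul_one, sub_self, smul_zero]
  have hw : φ (wM K R) = 0 := by
    unfold wM vv
    rw [map_smul, map_sub, map_smul, hφ, map_one, map_mul, map_pow]
    change _ • ((algebraMap O K R.s ^ a * algebraMap O K R.t)⁻¹ •
      (algebraMap O K R.s ^ a * algebraMap O K R.t ^ 1) - 1) = _
    rw [pow_one, smul_eq_mul, smul_eq_mul, inv_mul_cancel₀ (mul_ne_zero (pow_ne_zero _ hs0) ht0),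
      sub_self, mul_zero]
  have hle : Rm K R ≤ (⊥ : Subalgebra O K).comap (φ.restrictScalars O) := by
    refine Algebra.adjoin_le ?_
    rintro x ((hx | hx) | ⟨q, -, -, rfl⟩)
    · rw [hx]
      change φ (zM K R) ∈ (⊥ : Subalgebra O K)
      rw [hz]
      exact zero_mem _
    · rw [hx]
      change φ (wM K R) ∈ (⊥ : Subalgebra O K)
      rw [hw]
      exact zero_mem _
    · change φ (mon K q) ∈ (⊥ : Subalgebra O K)
      rw [hφ]
      exact mul_mem (pow_mem (Subalgebra.algebraMap_mem _ _) _)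
        (pow_mem (Subalgebra.algebraMap_mem _ _) _)
  exact ⟨((Algebra.botEquivOfInjective (FaithfulSMul.algebraMap_injective O K)).toAlgHom).comp
    (((φ.restrictScalars O).comp (Rm K R).val).codRestrict ⊥ fun x => hle x.2)⟩

end DK
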