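import Pool.Agent.Lib.MP_f80667_ag.Dk.Mi
import Pool.Agent.Lib.MP_f80667_ag.Dk.Mb
import Pool.Agent.Lib.MP_f80667_ag.Cv.SeD

/-! The equation of the special fibre. -/

open TensorProduct IsLocalRing CV Polynomial

namespace DK

variable {O : Type} (K : Type) [CommRing O] [Field K] [Algebra O K] {p a : ℕ} (R : Rp O p a)
  [IsDomain O] [IsDiscreteValuationRing O] [IsFractionRing O K] [CharZero K]
  (hp : p.Prime) (ha : 0 < a) (h : a + 1 < p) (hm : (p : O) ∈ maximalIdeal O)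
  {ϖ : O} (hϖ : Irreducible ϖ)

private theorem mz_lo (c : O) (hp : p.Prime) : ∃ H : O[X], Se.lo p c = X + C c * H := by
  have h2 := hp.two_le
  refine ⟨∑ k ∈ Finset.Ico 2 p, C (((p.choose k / p : ℕ) : O) * c ^ (k - 2)) * X ^ k, ?_⟩
  have h3 : Finset.Ico 1 p = insert 1 (Finset.Ico 2 p) := by
    ext k
    rw [Finset.mem_insert, Finset.mem_Ico, Finset.mem_Ico]
    omega
  have h4 : (1 : ℕ) ∉ Finset.Ico 2 p := by
    rw [Finset.mem_Ico]
    omega
  rw [Se.lo, h3, Finset.sum_insert h4, Finset.mul_sum]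
  congr 1
  · rw [Nat.choose_one_right, Nat.div_self hp.pos, Nat.cast_one, Nat.sub_self, pow_zero, mul_one,
      C_1, one_mul, pow_one]
  · refine Finset.sum_congr rfl fun k hk => ?_
    obtain ⟨h5, h6⟩ := Finset.mem_Ico.1 hk
    have h7 : k - 1 = (k - 2) + 1 := by omega
    rw [h7, pow_succ, ← mul_assoc (C c), ← C_mul]
    congr 2
    ring

include hp ha h hm in
private theorem mz_one : ((a : Aa K p a)) ^ a * (1 + algebraMap O (Aa K p a) R.l * wM K R) ^ p =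
    ((a : Aa K p a) - ((a : Aa K p a) + 1) * (algebraMap O (Aa K p a) R.π * zM K R)) ^ a *
      (1 + ((a : Aa K p a) + 1) * (algebraMap O (Aa K p a) R.π * zM K R)) := by
  have e1 := vv_pow K p a
  rw [uu_eq K R hp ha h hm, vv_eq K R hp ha h hm] at e1
  have hs : ((a : Aa K p a) + 1) * algebraMap O (Aa K p a) (R.s ^ p) = -(a : Aa K p a) := by
    have h1 := congrArg (algebraMap O (Aa K p a)) R.hs
    rw [map_mul, map_add, map_neg, map_natCast, map_one] at h1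
    exact h1
  have ht : algebraMap O (Aa K p a) (R.s ^ a * R.t) ^ p =
      algebraMap O (Aa K p a) (R.s ^ p) ^ a * (1 + algebraMap O (Aa K p a) (R.s ^ p)) := by
    rw [← map_pow, ← map_pow, ← map_one (algebraMap O (Aa K p a)), ← map_add, ← map_mul]
    congr 1
    rw [mul_pow, R.ht, ← pow_mul, ← pow_mul, mul_comm a p]
  rw [mul_pow, ht] at e1
  obtain ⟨q, hq⟩ : ∃ q, q = algebraMap O (Aa K p a) (R.s ^ p) := ⟨_, rfl⟩
  obtain ⟨x, hx⟩ : ∃ x, x = algebraMap O (Aa K p a) R.π * zM K R := ⟨_, rfl⟩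
  obtain ⟨W, hW⟩ : ∃ W, W = (1 + algebraMap O (Aa K p a) R.l * wM K R) ^ p := ⟨_, rfl⟩
  obtain ⟨b, hb⟩ : ∃ b : Aa K p a, b = (a : Aa K p a) := ⟨_, rfl⟩
  rw [← hq, ← hx, ← hW] at e1
  rw [← hq, ← hb] at hs
  rw [← hx, ← hW, ← hb]
  have e2 : ((b + 1) * q) ^ a * ((b + 1) * (1 + q)) * W =
      ((b + 1) * (q + x)) ^ a * ((b + 1) * (1 + (q + x))) := by
    calc ((b + 1) * q) ^ a * ((b + 1) * (1 + q)) * W
        = (b + 1) ^ a * (b + 1) * (q ^ a * (1 + q) * W) := by rw [mul_pow]; ring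
      _ = (b + 1) ^ a * (b + 1) * ((q + x) ^ a * (1 + (q + x))) := by rw [e1]
      _ = _ := by rw [mul_pow (b + 1) (q + x)]; ring
  have e3 : (b + 1) * (1 + q) = 1 := by linear_combination hs
  have e4 : (b + 1) * (q + x) = -(b - (b + 1) * x) := by linear_combination hs
  have e5 : (b + 1) * (1 + (q + x)) = 1 + (b + 1) * x := by linear_combination hs
  rw [hs, e3, e4, e5, neg_pow b, neg_pow (b - (b + 1) * x), mul_one] at e2
  have e6 : ((-1 : Aa K p a) ^ a) * (-1) ^ a = 1 := by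
    rw [← mul_pow, neg_one_mul, neg_neg, one_pow]
  calc b ^ a * W = ((-1) ^ a * (-1) ^ a) * (b ^ a * W) := by rw [e6, one_mul]
    _ = (-1) ^ a * ((-1) ^ a * b ^ a * W) := by ring
    _ = (-1) ^ a * ((-1) ^ a * (b - (b + 1) * x) ^ a * (1 + (b + 1) * x)) := by rw [e2]
    _ = ((-1) ^ a * (-1) ^ a) * ((b - (b + 1) * x) ^ a * (1 + (b + 1) * x)) := by ring
    _ = _ := by rw [e6, one_mul]

include hp ha h hm hϖ in
/-- **The equation of the special fibre.** Proof: `v ^ p = u ^ a (1 + u)` with `u = s₀ ^ p + π z`, `v = s₀ ^ a t₀ (1 + l w)`: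
`(1 + l w) ^ p = (1 + π z / x₀) ^ a (1 + π z / (1 + x₀))`, `x₀ = s₀ ^ p`; `taylor` for `x = π z`; `Se.Ep_eq`:
`(1 + l w) ^ p - 1 = l ^ p (w ^ p + w + ..)`, the other coefficients of `Se.Ep` are divisible by `l` (`Se.lo_coeff`); divide by
`l ^ p = π ^ 2` and by the unit `a ^ (a - 1)`. -/
theorem rel_zw : ∃ y : Rm K R,
    2 * (a : Rm K R) * (wR K R ^ p + wR K R) + ((a : Rm K R) + 1) ^ 3 * zR K R ^ 2 = ϖ • y := by
  obtain ⟨W, hW⟩ : ∃ W, W = wR K R := ⟨_, rfl⟩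
  obtain ⟨Z, hZ⟩ : ∃ Z, Z = zR K R := ⟨_, rfl⟩
  obtain ⟨L, hL⟩ : ∃ L, L = algebraMap O (Rm K R) R.l := ⟨_, rfl⟩
  obtain ⟨P, hP⟩ : ∃ P, P = algebraMap O (Rm K R) R.π := ⟨_, rfl⟩
  have e1 : (a : Rm K R) ^ a * (1 + L * W) ^ p =
      ((a : Rm K R) - ((a : Rm K R) + 1) * (P * Z)) ^ a *
        (1 + ((a : Rm K R) + 1) * (P * Z)) := by
    have h1 := mz_one K R hp ha h hm
    have h2 : Function.Injective (Rm K R).val := Subtype.val_injective
    apply h2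
    rw [hL, hP, hW, hZ]
    simp only [map_mul, map_pow, map_add, map_sub, map_one, map_natCast, AlgHom.commutes]
    exact h1
  obtain ⟨G, hG⟩ := taylor a ha
  have e2 := congrArg (aeval (P * Z)) hG
  simp only [map_mul, map_pow, map_add, map_sub, map_one, map_ofNat, map_natCast, aeval_X, aeval_C,
    eq_intCast, Int.cast_natCast, Int.cast_mul, Int.cast_pow, Int.cast_add, Int.cast_one,
    Int.cast_ofNat] at e2
  rw [← e1] at e2
  have e3 := congrArg (aeval W) (Se.Ep_eq p hp R.l R.hl)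
  simp only [map_mul, map_pow, map_add, map_sub, map_one, aeval_X, aeval_C] at e3
  obtain ⟨H, hH⟩ := mz_lo R.l hp
  rw [Se.Ep, hH] at e3
  simp only [map_mul, map_pow, map_add, aeval_X, aeval_C] at e3
  rw [← hL] at e3
  have e4 : P ^ 2 = L ^ p := by
    rw [hP, hL, ← map_pow, ← map_pow, R.hπ]
  obtain ⟨Γ, hΓ⟩ : ∃ Γ, Γ = aeval (P * Z) G := ⟨_, rfl⟩
  obtain ⟨Λ, hΛ⟩ : ∃ Λ, Λ = aeval W H := ⟨_, rfl⟩
  rw [← hΓ] at e2
  rw [← hΛ] at e3
  -- the unit
  have hna : ¬ p ∣ a := fun h1 => by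
    have := Nat.le_of_dvd ha h1
    omega
  obtain ⟨ε, hε⟩ := (nat_unit hp hm hna).pow (a - 1)
  obtain ⟨η, hη⟩ : ∃ η, η = algebraMap O (Rm K R) ((ε⁻¹ : Oˣ) : O) := ⟨_, rfl⟩
  have e5 : η * (a : Rm K R) ^ (a - 1) = 1 := by
    have h1 : ((ε⁻¹ : Oˣ) : O) * (a : O) ^ (a - 1) = 1 := by
      rw [← hε]
      exact ε.inv_mul
    have h2 := congrArg (algebraMap O (Rm K R)) h1
    rw [map_mul, map_pow, map_natCast, map_one] at h2
    rw [hη]
    exact h2
  have e6 : (a : Rm K R) ^ a = (a : Rm K R) * (a : Rm K R) ^ (a - 1) := by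
    rw [← pow_succ']
    congr 1
    omega
  -- cancel
  have hl0 : R.l ^ p ≠ 0 := by
    intro h0
    have h1 : R.l = 0 := by
      by_contra hne
      exact pow_ne_zero p hne h0
    have h2 := R.hl
    rw [h1, zero_pow (by have := hp.two_le; omega)] at h2
    have h3 := congrArg (algebraMap O K) h2
    rw [map_zero, map_natCast] at h3
    exact hp.ne_zero (Nat.cast_eq_zero.1 h3.symm)
  have e7 : 2 * (a : Rm K R) * (W ^ p + (W + L * Λ)) + ((a : Rm K R) + 1) ^ 3 * Z ^ 2 -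
      η * P * Z ^ 3 * Γ = 0 := by
    refine rm_tf K R (R.l ^ p) _ hl0 ?_
    rw [Algebra.smul_def, map_pow, ← hL]
    have h1 : L ^ p * (W ^ p + (W + L * Λ)) = (L * W + 1) ^ p - 1 := e3
    have h2 : (a : Rm K R) ^ (a - 1) * (L ^ p * (2 * (a : Rm K R) * (W ^ p + (W + L * Λ)) +
        ((a : Rm K R) + 1) ^ 3 * Z ^ 2)) = L ^ p * P * Z ^ 3 * Γ := by
      have h3 : (1 + L * W) ^ p = (L * W + 1) ^ p := by rw [add_comm (1 : Rm K R) (L * W)]
      rw [h3, e6] at e2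
      linear_combination (2 * (a : Rm K R) * (a : Rm K R) ^ (a - 1)) * h1 + e2 +
        (-(a : Rm K R) ^ (a - 1) * ((a : Rm K R) + 1) ^ 3 * Z ^ 2 + P * Z ^ 3 * Γ) * e4
    calc L ^ p * (2 * (a : Rm K R) * (W ^ p + (W + L * Λ)) +
          ((a : Rm K R) + 1) ^ 3 * Z ^ 2 - η * P * Z ^ 3 * Γ)
        = (1 : Rm K R) * (L ^ p * (2 * (a : Rm K R) * (W ^ p + (W + L * Λ)) +
          ((a : Rm K R) + 1) ^ 3 * Z ^ 2)) - η * (L ^ p * P * Z ^ 3 * Γ) := by ring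
      _ = η * (a : Rm K R) ^ (a - 1) * (L ^ p * (2 * (a : Rm K R) * (W ^ p + (W + L * Λ)) +
          ((a : Rm K R) + 1) ^ 3 * Z ^ 2)) - η * (L ^ p * P * Z ^ 3 * Γ) := by rw [e5]
      _ = 0 := by rw [mul_assoc η, h2, sub_self]
  obtain ⟨l', hl'⟩ : ∃ l', R.l = ϖ * l' := by
    have h1 := R.l_mem hp hm
    rw [hϖ.maximalIdeal_eq] at h1
    exact Ideal.mem_span_singleton.1 h1
  obtain ⟨π', hπ'⟩ : ∃ π', R.π = ϖ * π' := by
    have h1 := R.π_mem hp hm
    rw [hϖ.maximalIdeal_eq] at h1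
    exact Ideal.mem_span_singleton.1 h1
  refine ⟨η * algebraMap O (Rm K R) π' * Z ^ 3 * Γ -
    2 * (a : Rm K R) * (algebraMap O (Rm K R) l' * Λ), ?_⟩
  rw [Algebra.smul_def, ← hW, ← hZ]
  have h8 : L = algebraMap O (Rm K R) ϖ * algebraMap O (Rm K R) l' := by
    rw [hL, hl', map_mul]
  have h9 : P = algebraMap O (Rm K R) ϖ * algebraMap O (Rm K R) π' := by
    rw [hP, hπ', map_mul]
  rw [h8, h9] at e7
  linear_combination e7

end DK
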