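import Pool.Agent.Lib.MP_f80667_ag.Dk.Ns

/-! The elements of bounded degree are a free module whose reduction is everything of bounded degree. -/

open TensorProduct IsLocalRing CV Module

set_option linter.unusedSectionVars false

namespace DK

variable {O K R : Type} [CommRing O] [IsDomain O] [IsDiscreteValuationRing O] [Field K]
  [Algebra O K] [IsFractionRing O K] [CommRing R] [Algebra O R]
  (htf : ∀ (c : O) (x : R), c ≠ 0 → c • x = 0 → x = 0) (Gg : Dg K (K ⊗[O] R))
  (Gs : Dg (ResidueField O) (ResidueField O ⊗[O] R))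

/-- The elements whose degree in the generic fibre is less than `n`. -/
def Lo (n : ℕ) : Submodule O R where
  carrier := {x | Gg.d ((1 : K) ⊗ₜ[O] x) < (n : ℕ)}
  zero_mem' := by
    change Gg.d ((1 : K) ⊗ₜ[O] (0 : R)) < (n : ℕ)
    rw [tmul_zero, Gg.zero]
    exact WithBot.bot_lt_coe _
  add_mem' := by
    intro x y hx hy
    change Gg.d ((1 : K) ⊗ₜ[O] (x + y)) < (n : ℕ)
    rw [tmul_add]
    exact (Gg.add _ _).trans_lt (max_lt hx hy)
  smul_mem' := by
    intro c x hx
    change Gg.d ((1 : K) ⊗ₜ[O] (c • x)) < (n : ℕ)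
    have h : (1 : K) ⊗ₜ[O] (c • x) = algebraMap O K c • ((1 : K) ⊗ₜ[O] x) := by
      rw [algebraMap_smul, tmul_smul]
    rw [h]
    exact (Gg.smul_le _ _).trans_lt hx

private theorem nb_tmul (A : Type) [CommRing A] [Algebra O A] (c : O) (x : R) :
    (1 : A) ⊗ₜ[O] (c • x) = algebraMap O A c • ((1 : A) ⊗ₜ[O] x) := by
  rw [algebraMap_smul, tmul_smul]

private theorem nb_smul_mem {n : ℕ} {c : O} (hc : c ≠ 0) {y : R} (h : c • y ∈ Lo Gg n) :
    y ∈ Lo Gg n := by
  change Gg.d ((1 : K) ⊗ₜ[O] (c • y)) < (n : ℕ) at h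
  have hc' : algebraMap O K c ≠ 0 := by
    rwa [Ne, FaithfulSMul.algebraMap_eq_zero_iff]
  rw [nb_tmul, Gg.smul hc'] at h
  exact h

private theorem nb_mem {M : Type} [AddCommGroup M] [Module O M] {ϖ : O} (hϖ : Irreducible ϖ)
    (n : ℕ) (x : M) : x ∈ ((maximalIdeal O) ^ n • ⊤ : Submodule O M) ↔ ∃ w, x = ϖ ^ n • w := by
  rw [hϖ.maximalIdeal_eq, Ideal.span_singleton_pow, Submodule.ideal_span_singleton_smul,
    Submodule.mem_smul_pointwise_iff_exists]
  constructor
  · rintro ⟨w, -, h⟩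
    exact ⟨w, h.symm⟩
  · rintro ⟨w, h⟩
    exact ⟨w, Submodule.mem_top, h.symm⟩

private theorem nb_prec [IsAdicComplete (maximalIdeal O) O] (m : ℕ) :
    IsPrecomplete (maximalIdeal O) (Fin m → O) := by
  obtain ⟨ϖ, hϖ⟩ := IsDiscreteValuationRing.exists_irreducible O
  constructor
  intro f hf
  have h1 : ∀ i, ∃ L : O, ∀ n, f n i ≡ L [SMOD ((maximalIdeal O) ^ n • ⊤ : Submodule O O)] := by
    intro i
    refine IsPrecomplete.prec' (fun n => f n i) fun {a b} hab => ?_
    have h2 := hf hab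
    rw [SModEq.sub_mem, nb_mem hϖ] at h2 ⊢
    obtain ⟨w, hw⟩ := h2
    exact ⟨w i, congrFun hw i⟩
  choose L hL using h1
  refine ⟨L, fun n => ?_⟩
  rw [SModEq.sub_mem, nb_mem hϖ]
  have h3 : ∀ i, ∃ w, f n i - L i = ϖ ^ n • w := fun i => by
    have h4 := hL i n
    rwa [SModEq.sub_mem, nb_mem hϖ] at h4
  choose w hw using h3
  exact ⟨w, funext fun i => hw i⟩

private theorem nb_haus {ϖ : O} (hϖ : Irreducible ϖ)
    (hsep : ∀ x : R, (∀ n : ℕ, ∃ y, x = ϖ ^ n • y) → x = 0) (n : ℕ) :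
    IsHausdorff (maximalIdeal O) (Lo Gg n) := by
  constructor
  intro x hx
  refine Subtype.ext (hsep x fun k => ?_)
  have h1 := hx k
  rw [SModEq.zero, nb_mem hϖ] at h1
  obtain ⟨y, hy⟩ := h1
  exact ⟨y, by rw [hy]; rfl⟩

/-- The reductions of the elements of `Lo`. -/
private def nbW (n : ℕ) : Submodule (ResidueField O) (ResidueField O ⊗[O] R) where
  carrier := {y | ∃ x ∈ Lo Gg n, y = (1 : ResidueField O) ⊗ₜ[O] x}
  zero_mem' := ⟨0, zero_mem _, by rw [tmul_zero]⟩
  add_mem' := by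
    rintro _ _ ⟨x, hx, rfl⟩ ⟨y, hy, rfl⟩
    exact ⟨x + y, add_mem hx hy, by rw [tmul_add]⟩
  smul_mem' := by
    rintro c _ ⟨x, hx, rfl⟩
    obtain ⟨a, rfl⟩ := residue_surjective c
    refine ⟨a • x, Submodule.smul_mem _ a hx, ?_⟩
    rw [nb_tmul]
    rfl

include htf in
private theorem nb_rank {n r : ℕ} (b : Basis (Fin r) O (Lo Gg (n + 1))) :
    r = finrank K (Gg.L n) := by
  have hmem : ∀ x : Lo Gg (n + 1), (1 : K) ⊗ₜ[O] (x : R) ∈ Gg.L n := fun x =>
    Gg.mem_L.2 (Gg.lt_succ.1 x.2)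
  have hli : LinearIndependent K (fun i => (⟨(1 : K) ⊗ₜ[O] (b i : R), hmem (b i)⟩ : Gg.L n)) := by
    rw [← LinearIndependent.iff_fractionRing (R := O) (K := K)]
    rw [Fintype.linearIndependent_iff]
    intro g hg i
    have h1 : (1 : K) ⊗ₜ[O] ((∑ i, g i • b i : Lo Gg (n + 1)) : R) = 0 := by
      have h2 := congrArg (fun z : Gg.L n => (z : K ⊗[O] R)) hg
      simp only [AddSubmonoidClass.coe_finsetSum, Submodule.coe_zero] at h2
      rw [← h2, Submodule.coe_sum, tmul_sum]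
      refine Finset.sum_congr rfl fun i _ => ?_
      rw [Submodule.coe_smul, tmul_smul]
      rfl
    have h3 : (∑ i, g i • b i : Lo Gg (n + 1)) = 0 := Subtype.ext (gen_inj htf h1)
    exact Fintype.linearIndependent_iff.1 b.linearIndependent g h3 i
  have hsp : ⊤ ≤ Submodule.span K
      (Set.range fun i => (⟨(1 : K) ⊗ₜ[O] (b i : R), hmem (b i)⟩ : Gg.L n)) := by
    rintro ⟨y, hy⟩ -
    obtain ⟨c, x, hc, hx⟩ := gen_surj (O := O) y
    have hc' : algebraMap O K c ≠ 0 := by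
      rwa [Ne, FaithfulSMul.algebraMap_eq_zero_iff]
    have hxL : x ∈ Lo Gg (n + 1) := by
      change Gg.d ((1 : K) ⊗ₜ[O] x) < ((n + 1 : ℕ) : WithBot ℕ)
      rw [← hx, Gg.smul hc']
      exact Gg.lt_succ.2 (Gg.mem_L.1 hy)
    have h1 : (⟨y, hy⟩ : Gg.L n) = (algebraMap O K c)⁻¹ • ∑ i, algebraMap O K (b.repr ⟨x, hxL⟩ i) •
        (⟨(1 : K) ⊗ₜ[O] (b i : R), hmem (b i)⟩ : Gg.L n) := by
      refine Subtype.ext ?_
      rw [Submodule.coe_smul, Submodule.coe_sum]
      change y = (algebraMap O K c)⁻¹ • ∑ i, algebraMap O K (b.repr ⟨x, hxL⟩ i) •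
        ((1 : K) ⊗ₜ[O] (b i : R))
      have h2 : x = ∑ i, b.repr ⟨x, hxL⟩ i • (b i : R) := by
        have h3 := congrArg (fun z : Lo Gg (n + 1) => (z : R)) (b.sum_repr ⟨x, hxL⟩)
        simp only [Submodule.coe_sum, Submodule.coe_smul] at h3
        exact h3.symm
      have h4 : ∑ i, algebraMap O K (b.repr ⟨x, hxL⟩ i) • ((1 : K) ⊗ₜ[O] (b i : R)) =
          (1 : K) ⊗ₜ[O] x := by
        conv_rhs => rw [h2]
        rw [tmul_sum]
        exact Finset.sum_congr rfl fun i _ => (nb_tmul K _ _).symm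
      rw [h4, ← hx, smul_smul, inv_mul_cancel₀ hc', one_smul]
    rw [h1]
    refine Submodule.smul_mem _ _ (Submodule.sum_mem _ fun i _ => Submodule.smul_mem _ _ ?_)
    exact Submodule.subset_span ⟨i, rfl⟩
  have h5 := finrank_eq_card_basis (Basis.mk hli hsp)
  rw [Fintype.card_fin] at h5
  exact h5.symm

include htf in
/-- For large `n` the module `Lo n` is free of rank `dim L(n - 1)` and its reduction is everything of degree less than `n` in
the special fibre. Proof: lift a basis of the image of `Lo n` in the special fibre (contained in the space of the elements of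
degree `< n`: `semi`): `Lo n = ⊕ O f_i + ϖ Lo n`, independent; by completeness and `hsep` every element of `Lo n` is a
combination of the `f_i`; so `Lo n` is free and its rank is the dimension of the generic space (`gen_surj`), which is the
dimension of the special space by `hn`. -/
theorem lo_free [IsAdicComplete (maximalIdeal O) O]
    (hsep : ∀ ϖ : O, Irreducible ϖ → ∀ x : R, (∀ n : ℕ, ∃ y, x = ϖ ^ n • y) → x = 0) {n : ℕ}
    (hn : finrank K (Gg.L n) = finrank (ResidueField O) (Gs.L n)) :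
    ∃ b : Basis (Fin (finrank K (Gg.L n))) O (Lo Gg (n + 1)),
      ∀ y, Gs.d y < ((n + 1 : ℕ) : WithBot ℕ) → ∃ x ∈ Lo Gg (n + 1), y = (1 : ResidueField O) ⊗ₜ[O] x := by
  obtain ⟨ϖ, hϖ⟩ := IsDiscreteValuationRing.exists_irreducible O
  have hWle : nbW Gg (n + 1) ≤ Gs.L n := by
    rintro _ ⟨x, hx, rfl⟩
    exact Gs.mem_L.2 (Gs.lt_succ.1 ((semi htf Gg Gs x).trans_lt hx))
  have := Gs.finite_L n
  have hWf : Module.Finite (ResidueField O) (nbW Gg (n + 1)) :=
    Submodule.finiteDimensional_of_le hWle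
  obtain ⟨m, hm⟩ : ∃ m, m = finrank (ResidueField O) (nbW Gg (n + 1)) := ⟨_, rfl⟩
  have bW := finBasisOfFinrankEq (ResidueField O) (nbW Gg (n + 1)) hm.symm
  have hlift : ∀ i, ∃ x : Lo Gg (n + 1), (bW i : ResidueField O ⊗[O] R) =
      (1 : ResidueField O) ⊗ₜ[O] (x : R) := fun i => by
    obtain ⟨x, hx, h⟩ := (bW i).2
    exact ⟨⟨x, hx⟩, h⟩
  choose g hg using hlift
  have := nb_prec (O := O) m
  have := nb_haus Gg hϖ (hsep ϖ hϖ) (n + 1)
  have hsurj : Function.Surjective (Fintype.linearCombination O g) := by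
    refine surjective_of_mkQ_comp_surjective (I := maximalIdeal O) ?_
    intro y
    obtain ⟨x, rfl⟩ := Submodule.mkQ_surjective _ y
    have h1 := bW.sum_repr ⟨(1 : ResidueField O) ⊗ₜ[O] (x : R), x, x.2, rfl⟩
    obtain ⟨c, hc⟩ : ∃ c : Fin m → O, ∀ i, residue O (c i) =
        bW.repr ⟨(1 : ResidueField O) ⊗ₜ[O] (x : R), x, x.2, rfl⟩ i := by
      choose c hc using fun i => residue_surjective
        (bW.repr ⟨(1 : ResidueField O) ⊗ₜ[O] (x : R), x, x.2, rfl⟩ i)
      exact ⟨c, hc⟩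
    refine ⟨c, ?_⟩
    rw [LinearMap.comp_apply, Submodule.mkQ_apply, Submodule.mkQ_apply, Submodule.Quotient.eq]
    have h2 : (1 : ResidueField O) ⊗ₜ[O]
        (((Fintype.linearCombination O g c - x : Lo Gg (n + 1)) : R)) = 0 := by
      rw [Submodule.coe_sub, tmul_sub, sub_eq_zero, Fintype.linearCombination_apply,
        Submodule.coe_sum, tmul_sum]
      have h3 := congrArg (fun z : nbW Gg (n + 1) => (z : ResidueField O ⊗[O] R)) h1
      simp only [Submodule.coe_sum, Submodule.coe_smul] at h3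
      rw [← h3]
      refine Finset.sum_congr rfl fun i _ => ?_
      rw [Submodule.coe_smul, nb_tmul, ← hg, ← hc]
      rfl
    obtain ⟨y, hy⟩ := (red_zero hϖ).1 h2
    have h4 := nb_mem hϖ 1 (Fintype.linearCombination O g c - x : Lo Gg (n + 1))
    rw [pow_one, pow_one] at h4
    rw [h4]
    refine ⟨⟨y, nb_smul_mem Gg hϖ.ne_zero ?_⟩, Subtype.ext hy⟩
    rw [← hy]
    exact SetLike.coe_mem _
  have hfin : Module.Finite O (Lo Gg (n + 1)) := Module.Finite.of_surjective _ hsurj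
  have htfl : Module.IsTorsionFree O (Lo Gg (n + 1)) := by
    rw [Module.isTorsionFree_iff_smul_eq_zero]
    intro c x hcx
    by_contra hcon
    rw [not_or] at hcon
    have h5 := htf c (x : R) hcon.1 (by
      have h6 := congrArg (fun z : Lo Gg (n + 1) => (z : R)) hcx
      exact h6)
    exact hcon.2 (Subtype.ext h5)
  have hfree : Module.Free O (Lo Gg (n + 1)) := inferInstance
  have b0 := finBasis O (Lo Gg (n + 1))
  have hr := nb_rank htf Gg b0
  refine ⟨b0.reindex (finCongr hr), fun y hy => ?_⟩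
  have h6 : finrank O (Lo Gg (n + 1)) ≤ m := by
    have h7 := LinearMap.finrank_le_finrank_of_surjective hsurj
    rwa [Module.finrank_fin_fun] at h7
  have h8 : nbW Gg (n + 1) = Gs.L n :=
    Submodule.eq_of_le_of_finrank_le hWle (by rw [← hm, ← hn, ← hr]; exact h6)
  have h9 : y ∈ nbW Gg (n + 1) := by
    rw [h8]
    exact Gs.mem_L.2 (Gs.lt_succ.1 hy)
  obtain ⟨x, hx, h10⟩ := h9
  exact ⟨x, hx, h10⟩

end DK
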