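import Pool.Agent.Lib.MP_f80667_ag.Dk.Nb

/-! A basis which is adapted to both fibres. -/

open TensorProduct IsLocalRing CV Module

namespace DK

variable {O K R : Type} [CommRing O] [IsDomain O] [IsDiscreteValuationRing O] [Field K]
  [Algebra O K] [IsFractionRing O K] [CommRing R] [Algebra O R]
  (htf : ∀ (c : O) (x : R), c ≠ 0 → c • x = 0 → x = 0) (Gg : Dg K (K ⊗[O] R))
  (Gs : Dg (ResidueField O) (ResidueField O ⊗[O] R))

omit [IsDomain O] [IsDiscreteValuationRing O] in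
private theorem nc_tmul (A : Type) [CommRing A] [Algebra O A] (c : O) (x : R) :
    (1 : A) ⊗ₜ[O] (c • x) = algebraMap O A c • ((1 : A) ⊗ₜ[O] x) := by
  rw [algebraMap_smul, tmul_smul]

omit [IsDiscreteValuationRing O] [IsDomain O] [IsFractionRing O K] in
private theorem nc_mono {m n : ℕ} (h : m ≤ n) : Lo Gg m ≤ Lo Gg n := by
  intro x hx
  change Gg.d ((1 : K) ⊗ₜ[O] x) < (n : ℕ)
  exact lt_of_lt_of_le hx (by exact_mod_cast h)

include htf in
/-- the step of the filtration -/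
private theorem nc_step {n : ℕ} {e : R} (hg : Gg.d ((1 : K) ⊗ₜ[O] e) = (n : ℕ))
    (hs : Gs.d ((1 : ResidueField O) ⊗ₜ[O] e) = (n : ℕ)) {x : R} (hx : x ∈ Lo Gg (n + 1)) :
    ∃ c : O, x - c • e ∈ Lo Gg n := by
  have hx' : Gg.d ((1 : K) ⊗ₜ[O] x) ≤ (n : ℕ) := Gg.lt_succ.1 hx
  rcases hx'.lt_or_eq with h1 | h1
  · exact ⟨0, by rw [zero_smul, sub_zero]; exact h1⟩
  obtain ⟨c, hc⟩ := Gg.lead _ _ (Gg.ne_zero hg) (h1.trans hg.symm)
  rw [hg] at hc
  have hint : ∀ a : O, algebraMap O K a = c → ∃ c : O, x - c • e ∈ Lo Gg n := by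
    intro a ha
    refine ⟨a, ?_⟩
    change Gg.d ((1 : K) ⊗ₜ[O] (x - a • e)) < (n : ℕ)
    rw [tmul_sub, nc_tmul, ha]
    exact hc
  rcases ValuationRing.isInteger_or_isInteger O c with ⟨a, ha⟩ | ⟨u, hu⟩
  · exact hint a ha
  by_cases hc0 : c = 0
  · exact hint 0 (by rw [map_zero, hc0])
  by_cases hun : IsUnit u
  · obtain ⟨w, rfl⟩ := hun
    refine hint ((w⁻¹ : Oˣ) : O) ?_
    have h2 : algebraMap O K (w : O) * algebraMap O K ((w⁻¹ : Oˣ) : O) = 1 := by
      rw [← map_mul, Units.mul_inv, map_one]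
    rw [hu] at h2
    exact ((inv_mul_eq_one₀ hc0).1 h2).symm
  · exfalso
    have hu0 : algebraMap O K u ≠ 0 := by
      rw [hu]
      exact inv_ne_zero hc0
    have h2 : u • x - e ∈ Lo Gg n := by
      change Gg.d ((1 : K) ⊗ₜ[O] (u • x - e)) < (n : ℕ)
      have h3 : (1 : K) ⊗ₜ[O] (u • x - e) =
          algebraMap O K u • ((1 : K) ⊗ₜ[O] x - c • ((1 : K) ⊗ₜ[O] e)) := by
        rw [tmul_sub, nc_tmul, smul_sub, smul_smul, hu, inv_mul_cancel₀ hc0, one_smul]
      rw [h3, Gg.smul hu0]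
      exact hc
    have h4 : (1 : ResidueField O) ⊗ₜ[O] (u • x - e) = -((1 : ResidueField O) ⊗ₜ[O] e) := by
      have h5 : algebraMap O (ResidueField O) u = 0 := by
        change residue O u = 0
        rw [residue_eq_zero_iff, mem_maximalIdeal]
        exact hun
      rw [tmul_sub, nc_tmul, h5, zero_smul, zero_sub]
    have h6 := (semi htf Gg Gs (u • x - e)).trans_lt h2
    rw [h4, Gs.neg, hs] at h6
    exact lt_irrefl _ h6

/-- a combination of elements of different degrees -/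
private theorem nc_comb {N : ℕ} {e : ℕ → R} (hg : ∀ j, Gg.d ((1 : K) ⊗ₜ[O] e j) = (N + j : ℕ))
    (g : ℕ →₀ O) (h : Finsupp.linearCombination O e g ∈ Lo Gg N) : g = 0 := by
  classical
  by_contra hne
  have hsup : g.support.Nonempty := Finsupp.support_nonempty_iff.2 hne
  obtain ⟨j, hj⟩ : ∃ j, j = g.support.max' hsup := ⟨_, rfl⟩
  have hjs : j ∈ g.support := by
    rw [hj]
    exact Finset.max'_mem _ _
  have hgj : g j ≠ 0 := Finsupp.mem_support_iff.1 hjs
  have hmem : ∀ i, e i ∈ Lo Gg (N + i + 1) := by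
    intro i
    change Gg.d ((1 : K) ⊗ₜ[O] e i) < ((N + i + 1 : ℕ) : WithBot ℕ)
    rw [hg i]
    exact_mod_cast Nat.lt_succ_self (N + i)
  have hrest : ∑ i ∈ g.support.erase j, g i • e i ∈ Lo Gg (N + j) := by
    refine Submodule.sum_mem _ fun i hi => Submodule.smul_mem _ _ ?_
    rw [Finset.mem_erase] at hi
    have h1 : i ≤ j := by
      rw [hj]
      exact Finset.le_max' _ _ hi.2
    have h2 := hi.1
    exact nc_mono Gg (show N + i + 1 ≤ N + j by omega) (hmem i)
  have hsum : Finsupp.linearCombination O e g = g j • e j +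
      ∑ i ∈ g.support.erase j, g i • e i := by
    rw [Finsupp.linearCombination_apply, Finsupp.sum]
    exact (Finset.add_sum_erase g.support (fun i => g i • e i) hjs).symm
  have h3 : g j • e j ∈ Lo Gg (N + j) := by
    have h4 : g j • e j = Finsupp.linearCombination O e g -
        ∑ i ∈ g.support.erase j, g i • e i := by
      rw [hsum, add_sub_cancel_right]
    rw [h4]
    exact sub_mem (nc_mono Gg (Nat.le_add_right N j) h) hrest
  change Gg.d ((1 : K) ⊗ₜ[O] (g j • e j)) < ((N + j : ℕ) : WithBot ℕ) at h3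
  have hgj' : algebraMap O K (g j) ≠ 0 := by
    rwa [Ne, FaithfulSMul.algebraMap_eq_zero_iff]
  rw [nc_tmul, Gg.smul hgj', hg j] at h3
  exact lt_irrefl _ h3

include htf in
/-- **The adapted basis.** Proof: `N` such that all `m ≥ N` are degrees in both fibres and `lo_free` holds for `n ≥ N - 1`:
the basis of `Lo N`; `e j ∈ Lo (N + j + 1)` with an image of degree `N + j` in the special fibre (`Dg.tail`, `lo_free`), its
degree in the generic fibre is `N + j` by `semi`. Generation: `Lo (N + j + 1) = Lo (N + j) + O e j` modulo `ϖ Lo (N + j + 1)`,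
Nakayama. -/
theorem exists_adp [IsAdicComplete (maximalIdeal O) O]
    (hsep : ∀ ϖ : O, Irreducible ϖ → ∀ x : R, (∀ n : ℕ, ∃ y, x = ϖ ^ n • y) → x = 0)
    (hg : ∃ n₀ : ℕ, ∀ n, n₀ ≤ n → finrank K (Gg.L n) = finrank (ResidueField O) (Gs.L n)) :
    ∃ (h N : ℕ) (b : Basis (Fin h ⊕ ℕ) O R),
      (∀ i : Fin h, Gg.d ((1 : K) ⊗ₜ[O] b (.inl i)) < (N : ℕ) ∧
        Gs.d ((1 : ResidueField O) ⊗ₜ[O] b (.inl i)) < (N : ℕ)) ∧
      ∀ j : ℕ, Gg.d ((1 : K) ⊗ₜ[O] b (.inr j)) = (N + j : ℕ) ∧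
        Gs.d ((1 : ResidueField O) ⊗ₜ[O] b (.inr j)) = (N + j : ℕ) := by
  obtain ⟨n₀, hn₀⟩ := hg
  obtain ⟨n₁, hn₁⟩ := Gs.tail
  obtain ⟨N', hN'⟩ : ∃ N', N' = n₀ + n₁ := ⟨_, rfl⟩
  obtain ⟨b0, -⟩ := lo_free htf Gg Gs hsep (hn₀ N' (by omega))
  have hex : ∀ j : ℕ, ∃ e : R, Gg.d ((1 : K) ⊗ₜ[O] e) = (N' + 1 + j : ℕ) ∧
      Gs.d ((1 : ResidueField O) ⊗ₜ[O] e) = (N' + 1 + j : ℕ) := by
    intro j
    obtain ⟨y, hy⟩ := hn₁ (N' + 1 + j) (by omega)
    obtain ⟨-, hb⟩ := lo_free htf Gg Gs hsep (hn₀ (N' + 1 + j) (by omega))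
    obtain ⟨x, hx, hxy⟩ := hb y (by
      rw [hy]
      exact_mod_cast Nat.lt_succ_self (N' + 1 + j))
    rw [hxy] at hy
    refine ⟨x, le_antisymm (Gg.lt_succ.1 hx) ?_, hy⟩
    rw [← hy]
    exact semi htf Gg Gs x
  choose e heg hes using hex
  have hli0 : LinearIndependent O (fun i => (b0 i : R)) :=
    b0.linearIndependent.map' (Submodule.subtype _) (Submodule.ker_subtype _)
  have hsp0 : Submodule.span O (Set.range fun i => (b0 i : R)) ≤ Lo Gg (N' + 1) := by
    rw [Submodule.span_le]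
    rintro _ ⟨i, rfl⟩
    exact (b0 i).2
  have hli1 : LinearIndependent O e := by
    rw [linearIndependent_iff]
    intro g hg0
    refine nc_comb Gg heg g ?_
    rw [hg0]
    exact zero_mem _
  have hdis : Disjoint (Submodule.span O (Set.range fun i => (b0 i : R)))
      (Submodule.span O (Set.range e)) := by
    rw [Submodule.disjoint_def]
    intro x hx hx'
    rw [Finsupp.mem_span_range_iff_exists_finsupp] at hx'
    obtain ⟨g, hgx⟩ := hx'
    have h1 : Finsupp.linearCombination O e g = x := by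
      rw [Finsupp.linearCombination_apply]
      exact hgx
    have h2 := nc_comb Gg heg g (by
      rw [h1]
      exact hsp0 hx)
    rw [← h1, h2, map_zero]
  have hli := hli0.sum_type hli1 hdis
  have hspan : ∀ k : ℕ, Lo Gg (N' + 1 + k) ≤
      Submodule.span O (Set.range (Sum.elim (fun i => (b0 i : R)) e)) := by
    intro k
    induction k with
    | zero =>
      intro x hx
      have h1 := b0.sum_repr ⟨x, hx⟩
      have h2 : x = ∑ i, b0.repr ⟨x, hx⟩ i • (b0 i : R) := by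
        have h3 := congrArg (fun z : Lo Gg (N' + 1) => (z : R)) h1
        simp only [Submodule.coe_sum, Submodule.coe_smul] at h3
        exact h3.symm
      rw [h2]
      exact Submodule.sum_mem _ fun i _ => Submodule.smul_mem _ _
        (Submodule.subset_span ⟨Sum.inl i, rfl⟩)
    | succ k ih =>
      intro x hx
      obtain ⟨c, hc⟩ := nc_step htf Gg Gs (heg k) (hes k) hx
      have h1 := add_mem (ih hc) (Submodule.smul_mem _ c
        (Submodule.subset_span ⟨Sum.inr k, rfl⟩ : e k ∈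
          Submodule.span O (Set.range (Sum.elim (fun i => (b0 i : R)) e))))
      rwa [sub_add_cancel] at h1
  have hsp : ⊤ ≤ Submodule.span O (Set.range (Sum.elim (fun i => (b0 i : R)) e)) := by
    intro x _
    obtain ⟨n, hn⟩ := Gg.exists_mem_L ((1 : K) ⊗ₜ[O] x)
    refine hspan n ?_
    change Gg.d ((1 : K) ⊗ₜ[O] x) < ((N' + 1 + n : ℕ) : WithBot ℕ)
    refine (Gg.mem_L.1 hn).trans_lt ?_
    exact_mod_cast (show n < N' + 1 + n by omega)
  refine ⟨_, N' + 1, Basis.mk hli hsp, fun i => ?_, fun j => ?_⟩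
  · rw [Basis.mk_apply]
    exact ⟨(b0 i).2, (semi htf Gg Gs _).trans_lt (b0 i).2⟩
  · rw [Basis.mk_apply]
    exact ⟨heg j, hes j⟩

end DK
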