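import Pool.Agent.Lib.MP_f80667_ag.Dk.Na
import Pool.Agent.Lib.MP_f80667_ag.Cv.DgQ

/-!
A torsion free algebra `R` over a discrete valuation ring `O`: the degree at infinity of the special fibre is at most the degree
at infinity of the generic fibre.
-/

open TensorProduct IsLocalRing CV

namespace DK

variable {O K R : Type} [CommRing O] [IsDomain O] [IsDiscreteValuationRing O] [Field K]
  [Algebra O K] [IsFractionRing O K] [CommRing R] [Algebra O R]

/-- `R / x R` is torsion free -/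
private theorem semi_div (htf : ∀ (c : O) (x : R), c ≠ 0 → c • x = 0 → x = 0)
    [IsDomain (ResidueField O ⊗[O] R)] {ϖ : O} (hϖ : Irreducible ϖ) {x : R}
    (hx : (1 : ResidueField O) ⊗ₜ[O] x ≠ 0) {y g : R} (h : ϖ • y = x * g) : ∃ g', y = x * g' := by
  have h1 : (1 : ResidueField O) ⊗ₜ[O] (x * g) = 0 := (red_zero hϖ).2 ⟨y, h.symm⟩
  have h2 : ((1 : ResidueField O) ⊗ₜ[O] x) * ((1 : ResidueField O) ⊗ₜ[O] g) = 0 := by
    rw [Algebra.TensorProduct.tmul_mul_tmul, one_mul, h1]
  have h3 : (1 : ResidueField O) ⊗ₜ[O] g = 0 := (mul_eq_zero.1 h2).resolve_left hx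
  obtain ⟨g', hg'⟩ := (red_zero hϖ).1 h3
  refine ⟨g', ?_⟩
  have h4 : ϖ • (y - x * g') = 0 := by
    rw [smul_sub, h, hg', mul_smul_comm, sub_self]
  exact sub_eq_zero.1 (htf ϖ _ hϖ.ne_zero h4)

/-- the lifts of a basis of the special fibre modulo `x` are independent modulo `x` -/
private theorem semi_pow (htf : ∀ (c : O) (x : R), c ≠ 0 → c • x = 0 → x = 0)
    [IsDomain (ResidueField O ⊗[O] R)] {ϖ : O} (hϖ : Irreducible ϖ) {x : R}
    (hx : (1 : ResidueField O) ⊗ₜ[O] x ≠ 0) {n : ℕ} (y : Fin n → R)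
    (hy : ∀ b : Fin n → ResidueField O, ((1 : ResidueField O) ⊗ₜ[O] x) ∣
      ∑ i, b i • ((1 : ResidueField O) ⊗ₜ[O] y i) → ∀ i, b i = 0) (N : ℕ) :
    ∀ (b : Fin n → O) (g : R), ∑ i, b i • y i = x * g → ∀ i, ϖ ^ N ∣ b i := by
  induction N with
  | zero =>
    intro b g _ i
    rw [pow_zero]
    exact one_dvd _
  | succ N ih =>
    intro b g hb
    have h1 : ∀ i, ϖ ∣ b i := by
      have h2 : ((1 : ResidueField O) ⊗ₜ[O] x) ∣
          ∑ i, (residue O (b i)) • ((1 : ResidueField O) ⊗ₜ[O] y i) := by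
        refine ⟨(1 : ResidueField O) ⊗ₜ[O] g, ?_⟩
        rw [Algebra.TensorProduct.tmul_mul_tmul, one_mul, ← hb, TensorProduct.tmul_sum]
        refine Finset.sum_congr rfl fun i _ => ?_
        rw [TensorProduct.tmul_smul, ← IsLocalRing.ResidueField.algebraMap_eq, algebraMap_smul]
      intro i
      have h3 := hy _ h2 i
      rw [residue_eq_zero_iff, (IsDiscreteValuationRing.irreducible_iff_uniformizer ϖ).1 hϖ,
        Ideal.mem_span_singleton] at h3
      exact h3
    choose b' hb' using h1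
    have h2 : ϖ • ∑ i, b' i • y i = x * g := by
      rw [← hb, Finset.smul_sum]
      refine Finset.sum_congr rfl fun i _ => ?_
      rw [smul_smul, ← hb' i]
    obtain ⟨g', hg'⟩ := semi_div htf hϖ hx h2
    intro i
    rw [hb' i, pow_succ, mul_comm]
    exact mul_dvd_mul_left _ (ih b' g' hg' i)

private theorem semi_zero {ϖ : O} (hϖ : Irreducible ϖ) {b : O} (h : ∀ N : ℕ, ϖ ^ N ∣ b) : b = 0 := by
  by_contra hb
  obtain ⟨n, hn⟩ := FiniteMultiplicity.of_not_isUnit hϖ.not_isUnit hb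
  exact hn (h (n + 1))

/-- **Semicontinuity.** Proof: let `x ≠ 0` in the special fibre (a domain), `N = R / x R`: `N` is torsion free over `O`
(`ϖ y = x g` gives `g = ϖ g'` because the special fibre is a domain, so `y = x g'`), so a basis of `N / ϖ N` lifts to elements
which are linearly independent over `O`: `dim (special fibre / x) ≤ dim (generic fibre / x)`, and these are the degrees
(`Dg.finrank_quot`, `Dg.finite_quot`). -/
theorem semi (htf : ∀ (c : O) (x : R), c ≠ 0 → c • x = 0 → x = 0) (Gg : Dg K (K ⊗[O] R))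
    (Gs : Dg (ResidueField O) (ResidueField O ⊗[O] R)) (x : R) :
    Gs.d ((1 : ResidueField O) ⊗ₜ[O] x) ≤ Gg.d ((1 : K) ⊗ₜ[O] x) := by
  classical
  by_cases hx : (1 : ResidueField O) ⊗ₜ[O] x = 0
  · rw [hx, Gs.zero]
    exact bot_le
  have hdom := Gs.isDomain
  obtain ⟨ϖ, hϖ⟩ := IsDiscreteValuationRing.exists_irreducible O
  have hx0 : x ≠ 0 := fun h => hx (by rw [h, TensorProduct.tmul_zero])
  have hxg : (1 : K) ⊗ₜ[O] x ≠ 0 := fun h => hx0 (gen_inj htf h)
  obtain ⟨m, hm⟩ := Gs.exists_nat hx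
  obtain ⟨m', hm'⟩ := Gg.exists_nat hxg
  have hfin := Gs.finite_quot hx
  have hfing := Gg.finite_quot hxg
  have hrk := Gs.finrank_quot hm
  have hrkg := Gg.finrank_quot hm'
  rw [hm, hm']
  -- the basis and its lift
  set e := Module.finBasis (ResidueField O)
    ((ResidueField O ⊗[O] R) ⧸ Ideal.span {(1 : ResidueField O) ⊗ₜ[O] x}) with he
  have hl : ∀ i, ∃ y : R, Ideal.Quotient.mkₐ (ResidueField O)
      (Ideal.span {(1 : ResidueField O) ⊗ₜ[O] x}) ((1 : ResidueField O) ⊗ₜ[O] y) = e i := by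
    intro i
    obtain ⟨z, hz⟩ := Ideal.Quotient.mk_surjective (e i)
    obtain ⟨y, hy⟩ := red_surj z
    refine ⟨y, ?_⟩
    rw [← hy]
    exact hz
  choose y hy using hl
  have hy2 : ∀ b : Fin _ → ResidueField O, ((1 : ResidueField O) ⊗ₜ[O] x) ∣
      ∑ i, b i • ((1 : ResidueField O) ⊗ₜ[O] y i) → ∀ i, b i = 0 := by
    intro b hb
    have h1 : Ideal.Quotient.mkₐ (ResidueField O) (Ideal.span {(1 : ResidueField O) ⊗ₜ[O] x})
        (∑ i, b i • ((1 : ResidueField O) ⊗ₜ[O] y i)) = 0 := by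
      rw [Ideal.Quotient.mkₐ_eq_mk, Ideal.Quotient.eq_zero_iff_mem, Ideal.mem_span_singleton]
      exact hb
    rw [map_sum] at h1
    have h2 : ∑ i, b i • e i = 0 := by
      rw [← h1]
      refine Finset.sum_congr rfl fun i _ => ?_
      rw [map_smul, hy]
    exact Fintype.linearIndependent_iff.1 e.linearIndependent b h2
  have hli : LinearIndependent K (fun i => Ideal.Quotient.mkₐ K
      (Ideal.span {(1 : K) ⊗ₜ[O] x}) ((1 : K) ⊗ₜ[O] y i)) := by
    rw [Fintype.linearIndependent_iff]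
    intro c hc
    have h1 : Ideal.Quotient.mkₐ K (Ideal.span {(1 : K) ⊗ₜ[O] x})
        (∑ i, c i • ((1 : K) ⊗ₜ[O] y i)) = 0 := by
      rw [map_sum, ← hc]
      refine Finset.sum_congr rfl fun i _ => ?_
      rw [map_smul]
    rw [Ideal.Quotient.mkₐ_eq_mk, Ideal.Quotient.eq_zero_iff_mem, Ideal.mem_span_singleton] at h1
    obtain ⟨g, hg⟩ := h1
    obtain ⟨a, g', ha, hg'⟩ := gen_surj (O := O) g
    obtain ⟨b, hb⟩ := IsLocalization.exist_integer_multiples (nonZeroDivisors O) Finset.univ c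
    have hb' : ∀ i, ∃ d : O, algebraMap O K d = (b : O) • c i := fun i => hb i (Finset.mem_univ i)
    choose d hd using hb'
    have hb0 : (b : O) ≠ 0 := nonZeroDivisors.ne_zero b.2
    have h2 : ∑ i, (a * d i) • y i = x * ((b : O) • g') := by
      have h3 : (1 : K) ⊗ₜ[O] (∑ i, (a * d i) • y i - x * ((b : O) • g')) = 0 := by
        rw [TensorProduct.tmul_sub, TensorProduct.tmul_sum, sub_eq_zero]
        have h4 : (1 : K) ⊗ₜ[O] (x * ((b : O) • g')) =
            (a * (b : O)) • (((1 : K) ⊗ₜ[O] x) * g) := by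
          rw [mul_smul_comm, TensorProduct.tmul_smul, mul_comm a, mul_smul, ← mul_smul_comm a,
            ← algebraMap_smul K a g, hg', Algebra.TensorProduct.tmul_mul_tmul, one_mul]
        rw [h4, ← hg, Finset.smul_sum]
        refine Finset.sum_congr rfl fun i _ => ?_
        rw [TensorProduct.tmul_smul, mul_smul, mul_smul, ← algebraMap_smul K (d i), hd i, smul_assoc]
      exact sub_eq_zero.1 (gen_inj htf h3)
    intro i
    have h5 : a * d i = 0 := semi_zero hϖ fun N => semi_pow htf hϖ hx y hy2 N _ _ h2 i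
    have h6 : d i = 0 := (mul_eq_zero.1 h5).resolve_left ha
    have h7 := hd i
    rw [h6, map_zero, Algebra.smul_def] at h7
    refine (mul_eq_zero.1 h7.symm).resolve_left ?_
    exact (map_ne_zero_iff _ (IsFractionRing.injective O K)).2 hb0
  have hcard := hli.fintype_card_le_finrank
  rw [Fintype.card_fin, hrk, hrkg] at hcard
  exact_mod_cast hcard

end DK
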