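import Pool.Agent.Lib.MP_f80667_ag.Cv.SeB

/-!
The part of weight zero of the ring `S[s, t] / (t ^ p - s ^ p - 1)`: the span of the monomials `s ^ i t ^ j` with
`i ≡ a j` modulo `p`. It is the affine ring of the curve `v ^ p = u ^ a (1 + u)`, `u = s ^ p`, `v = s ^ a t`; the pole at
infinity of `s ^ i t ^ j` has order `i + j`.

* `Ex p a`: the exponents `(i, j)` with `i ≡ a j` modulo `p`. `Sx p a`: the numbers `i + j`.
* `Aa S p a`: the ring. `mon q`: the monomials.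
-/

open Polynomial CV

namespace DK

/-- The exponents. -/
def Ex (p a : ℕ) : AddSubmonoid (ℕ × ℕ) where
  carrier := {q | q.1 ≡ a * q.2 [MOD p]}
  zero_mem' := by
    change 0 ≡ a * 0 [MOD p]
    rw [mul_zero]
  add_mem' := by
    intro q r hq hr
    change q.1 + r.1 ≡ a * (q.2 + r.2) [MOD p]
    rw [mul_add]
    exact Nat.ModEq.add hq hr

theorem mem_Ex {p a : ℕ} {q : ℕ × ℕ} : q ∈ Ex p a ↔ q.1 ≡ a * q.2 [MOD p] := Iff.rfl

/-- The degrees. -/
def Sx (p a : ℕ) : AddSubmonoid ℕ where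
  carrier := {m | ∃ q ∈ Ex p a, q.1 + q.2 = m}
  zero_mem' := ⟨0, zero_mem _, rfl⟩
  add_mem' := by
    rintro _ _ ⟨q, hq, rfl⟩ ⟨r, hr, rfl⟩
    exact ⟨q + r, add_mem hq hr, by rw [Prod.fst_add, Prod.snd_add]; ring⟩

theorem mem_Sx {p a m : ℕ} : m ∈ Sx p a ↔ ∃ q ∈ Ex p a, q.1 + q.2 = m := Iff.rfl

private theorem ra_ne {p a : ℕ} [Fact p.Prime] (h : a + 1 < p) : (a : ZMod p) + 1 ≠ 0 := by
  intro h0
  have h1 : ((a + 1 : ℕ) : ZMod p) = 0 := by
    push_cast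
    exact h0
  rw [ZMod.natCast_eq_zero_iff] at h1
  exact absurd (Nat.le_of_dvd (Nat.succ_pos a) h1) (by omega)

/-- the second exponent of the degree `m` -/
private noncomputable def raJ (p a m : ℕ) [Fact p.Prime] : ℕ := ((m : ZMod p) / ((a : ZMod p) + 1)).val

private theorem raJ_lt (p a m : ℕ) [Fact p.Prime] : raJ p a m < p := ZMod.val_lt _

private theorem raJ_mem {p a m : ℕ} [Fact p.Prime] (h : a + 1 < p) (hJ : raJ p a m ≤ m) :
    ((m - raJ p a m, raJ p a m) : ℕ × ℕ) ∈ Ex p a := by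
  have h0 := ra_ne (p := p) h
  rw [mem_Ex, ← ZMod.natCast_eq_natCast_iff]
  change ((m - raJ p a m : ℕ) : ZMod p) = ((a * raJ p a m : ℕ) : ZMod p)
  rw [Nat.cast_sub hJ, Nat.cast_mul]
  have h1 : ((raJ p a m : ℕ) : ZMod p) = (m : ZMod p) / ((a : ZMod p) + 1) := by
    unfold raJ
    exact ZMod.natCast_zmod_val _
  rw [h1]
  field_simp
  ring

private theorem raJ_uniq {p a m : ℕ} [Fact p.Prime] (h : a + 1 < p) {q : ℕ × ℕ}
    (hq : q ∈ Ex p a) (hm : q.1 + q.2 = m) : raJ p a m = q.2 % p := by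
  have h0 := ra_ne (p := p) h
  rw [mem_Ex, ← ZMod.natCast_eq_natCast_iff, Nat.cast_mul] at hq
  have h1 : (m : ZMod p) / ((a : ZMod p) + 1) = ((q.2 : ℕ) : ZMod p) := by
    rw [div_eq_iff h0, ← hm, Nat.cast_add, hq]
    ring
  unfold raJ
  rw [h1, ZMod.val_natCast]

/-- The exponent of a degree. Proof: existence: replace `(i, j)` by `(i + p, j - p)`; uniqueness: `i + j ≡ (a + 1) j`, `a + 1` is
prime to `p`. -/
theorem sx_uniq {p a : ℕ} (hp : p.Prime) (h : a + 1 < p) {m : ℕ} (hm : m ∈ Sx p a) :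
    ∃! q : ℕ × ℕ, q ∈ Ex p a ∧ q.2 < p ∧ q.1 + q.2 = m := by
  have hF : Fact p.Prime := ⟨hp⟩
  obtain ⟨q, hq, hqm⟩ := mem_Sx.1 hm
  have h1 := raJ_uniq h hq hqm
  have h2 : raJ p a m ≤ m := by
    rw [h1]
    have := Nat.mod_le q.2 p
    omega
  refine ⟨(m - raJ p a m, raJ p a m), ⟨raJ_mem h h2, raJ_lt p a m, Nat.sub_add_cancel h2⟩, ?_⟩
  rintro ⟨i, j⟩ ⟨h3, h4, h5⟩
  have h6 := raJ_uniq h h3 h5
  change j < p at h4
  change raJ p a m = j % p at h6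
  change i + j = m at h5
  rw [Nat.mod_eq_of_lt h4] at h6
  refine Prod.ext ?_ h6.symm
  change i = m - raJ p a m
  omega

/-- All numbers `m ≥ p - 1` are degrees. -/
theorem sx_large {p a : ℕ} (hp : p.Prime) (h : a + 1 < p) {m : ℕ} (hm : p - 1 ≤ m) : m ∈ Sx p a := by
  have hF : Fact p.Prime := ⟨hp⟩
  have h1 : raJ p a m < p := raJ_lt p a m
  have h2 : raJ p a m ≤ m := by omega
  exact ⟨_, raJ_mem h h2, Nat.sub_add_cancel h2⟩

section ring

variable (S : Type) [CommRing S] (p a : ℕ)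

/-- The ring `S[s, t] / (t ^ p - s ^ p - 1)`. -/
abbrev Bf : Type := Se.Rg p (1 + X ^ p : S[X])

/-- The element `s`. -/
noncomputable def sx : Bf S p := Se.gx p _

/-- The element `t`. -/
noncomputable def tx : Bf S p := Se.gu p _

theorem tx_pow : tx S p ^ p = 1 + sx S p ^ p := by
  have h := Se.gu_pow p (1 + X ^ p : S[X])
  rw [map_add, map_one, map_pow, aeval_X] at h
  exact h

/-- The part of weight zero. -/
noncomputable def Aa : Subalgebra S (Bf S p) :=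
  Algebra.adjoin S {x | ∃ q ∈ Ex p a, x = sx S p ^ q.1 * tx S p ^ q.2}

variable {p a}

/-- The monomials. -/
noncomputable def mon (q : Ex p a) : Aa S p a :=
  ⟨sx S p ^ (q : ℕ × ℕ).1 * tx S p ^ (q : ℕ × ℕ).2, Algebra.subset_adjoin ⟨q, q.2, rfl⟩⟩

theorem mon_zero : mon S (0 : Ex p a) = 1 := by
  refine Subtype.ext ?_
  change sx S p ^ 0 * tx S p ^ 0 = 1
  rw [pow_zero, pow_zero, mul_one]

theorem mon_add (q r : Ex p a) : mon S (q + r) = mon S q * mon S r := by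
  refine Subtype.ext ?_
  change sx S p ^ ((q : ℕ × ℕ).1 + (r : ℕ × ℕ).1) * tx S p ^ ((q : ℕ × ℕ).2 + (r : ℕ × ℕ).2) =
    (sx S p ^ (q : ℕ × ℕ).1 * tx S p ^ (q : ℕ × ℕ).2) *
      (sx S p ^ (r : ℕ × ℕ).1 * tx S p ^ (r : ℕ × ℕ).2)
  rw [pow_add, pow_add]
  ring

/-- The relation `t ^ p = 1 + s ^ p`. -/
theorem mon_rel (q : Ex p a) {r r' : Ex p a} (h : (r : ℕ × ℕ) = (q : ℕ × ℕ) + (0, p))
    (h' : (r' : ℕ × ℕ) = (q : ℕ × ℕ) + (p, 0)) : mon S r = mon S q + mon S r' := by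
  refine Subtype.ext ?_
  change sx S p ^ (r : ℕ × ℕ).1 * tx S p ^ (r : ℕ × ℕ).2 =
    sx S p ^ (q : ℕ × ℕ).1 * tx S p ^ (q : ℕ × ℕ).2 +
      sx S p ^ (r' : ℕ × ℕ).1 * tx S p ^ (r' : ℕ × ℕ).2
  rw [h, h', Prod.fst_add, Prod.snd_add, Prod.fst_add, Prod.snd_add]
  change sx S p ^ ((q : ℕ × ℕ).1 + 0) * tx S p ^ ((q : ℕ × ℕ).2 + p) =
    sx S p ^ (q : ℕ × ℕ).1 * tx S p ^ (q : ℕ × ℕ).2 +
      sx S p ^ ((q : ℕ × ℕ).1 + p) * tx S p ^ ((q : ℕ × ℕ).2 + 0)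
  rw [add_zero, add_zero, pow_add, pow_add, tx_pow]
  ring

/-- The monomials generate the ring as an algebra. -/
theorem aa_gen : Algebra.adjoin S (Set.range fun q : Ex p a => mon S q) = ⊤ := by
  have h : (Set.range fun q : Ex p a => mon S q) =
      ((↑) : Algebra.adjoin S {x | ∃ q ∈ Ex p a, x = sx S p ^ q.1 * tx S p ^ q.2} → Bf S p) ⁻¹'
        {x | ∃ q ∈ Ex p a, x = sx S p ^ q.1 * tx S p ^ q.2} := by
    ext z
    constructor
    · rintro ⟨q, rfl⟩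
      exact ⟨q, q.2, rfl⟩
    · rintro ⟨q, hq, h⟩
      exact ⟨⟨q, hq⟩, Subtype.ext h.symm⟩
  rw [h]
  exact Algebra.adjoin_adjoin_coe_preimage

/-- Proof: `aa_gen`, `mon_add`. -/
theorem aa_span : Submodule.span S (Set.range fun q : Ex p a => mon S q) = ⊤ := by
  rw [eq_top_iff]
  intro z _
  have h1 : z ∈ Subalgebra.toSubmodule
      (Algebra.adjoin S (Set.range fun q : Ex p a => mon S q)) := by
    rw [aa_gen]
    trivial
  rw [Algebra.adjoin_eq_span] at h1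
  refine Submodule.span_le.2 ?_ h1
  intro y hy
  refine Submodule.subset_span ?_
  induction hy using Submonoid.closure_induction with
  | mem y hy => exact hy
  | one => exact ⟨0, mon_zero S⟩
  | mul y y' _ _ h2 h3 =>
    obtain ⟨q, rfl⟩ := h2
    obtain ⟨r, rfl⟩ := h3
    exact ⟨q + r, mon_add S q r⟩

/-- Homomorphisms are determined by the values of the monomials. Proof: `aa_gen`. -/
theorem aa_ext {B : Type*} [Semiring B] [Algebra S B] {φ ψ : Aa S p a →ₐ[S] B}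
    (h : ∀ q, φ (mon S q) = ψ (mon S q)) : φ = ψ := by
  refine AlgHom.ext_of_adjoin_eq_top (aa_gen S) ?_
  rintro _ ⟨q, rfl⟩
  exact h q

/-- Homomorphisms from values `x`, `y` of `s`, `t`. Proof: `Se.lift` restricted to the subalgebra. -/
theorem exists_aa {B : Type} [CommRing B] [Algebra S B] {x y : B} (h : y ^ p = 1 + x ^ p) :
    ∃ φ : Aa S p a →ₐ[S] B, ∀ q : Ex p a,
      φ (mon S q) = x ^ (q : ℕ × ℕ).1 * y ^ (q : ℕ × ℕ).2 := by
  have h' : y ^ p = aeval x (1 + X ^ p : S[X]) := by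
    rw [map_add, map_one, map_pow, aeval_X]
    exact h
  refine ⟨(Se.lift h').comp (Aa S p a).val, fun q => ?_⟩
  change Se.lift h' (sx S p ^ (q : ℕ × ℕ).1 * tx S p ^ (q : ℕ × ℕ).2) = _
  rw [map_mul, map_pow, map_pow]
  unfold sx tx
  rw [Se.lift_gx, Se.lift_gu]

end ring

end DK
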