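import Mathlib

/-! Formally smooth localizations. -/

namespace DK

/-- Localizations at the same element. Proof: `Localization.Away (φ r)` is a localization of `R` at `r` (`h`, `hφ`), so it is
isomorphic to `Localization.Away r`. -/
theorem loc_fs {S R A : Type} [CommRing S] [CommRing R] [CommRing A] [Algebra S R] [Algebra S A]
    (φ : R →ₐ[S] A) (hφ : Function.Injective φ) (r : R)
    (h : ∀ x : A, ∃ (n : ℕ) (y : R), φ r ^ n * x = φ y)
    (hf : Algebra.FormallySmooth S (Localization.Away r)) :
    Algebra.FormallySmooth S (Localization.Away (φ r)) := by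
  let : Algebra R (Localization.Away (φ r)) :=
    ((algebraMap A (Localization.Away (φ r))).comp φ.toRingHom).toAlgebra
  have hm : ∀ y : R, algebraMap R (Localization.Away (φ r)) y =
      algebraMap A (Localization.Away (φ r)) (φ y) := fun y => rfl
  have : IsScalarTower S R (Localization.Away (φ r)) := by
    refine IsScalarTower.of_algebraMap_eq fun s => ?_
    rw [hm, AlgHom.commutes, ← IsScalarTower.algebraMap_apply]
  have hu : IsUnit (algebraMap A (Localization.Away (φ r)) (φ r)) :=
    IsLocalization.Away.algebraMap_isUnit (φ r)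
  have : IsLocalization (Submonoid.powers r) (Localization.Away (φ r)) := by
    rw [isLocalization_iff]
    refine ⟨?_, ?_, ?_⟩
    · rintro ⟨_, n, rfl⟩
      show IsUnit (algebraMap A (Localization.Away (φ r)) (φ (r ^ n)))
      rw [map_pow, map_pow]
      exact hu.pow n
    · intro z
      obtain ⟨⟨x, ⟨_, m, rfl⟩⟩, hx⟩ := IsLocalization.surj (Submonoid.powers (φ r)) z
      obtain ⟨n, y, hy⟩ := h x
      refine ⟨⟨y, ⟨r ^ (n + m), n + m, rfl⟩⟩, ?_⟩
      show z * algebraMap A (Localization.Away (φ r)) (φ (r ^ (n + m))) =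
        algebraMap A (Localization.Away (φ r)) (φ y)
      rw [← hy, map_mul, ← hx, map_pow, pow_add, map_mul]
      show _ = _ * (z * algebraMap A (Localization.Away (φ r)) (φ r ^ m))
      ring
    · intro x y hxy
      have hxy' : algebraMap A (Localization.Away (φ r)) (φ x) =
          algebraMap A (Localization.Away (φ r)) (φ y) := hxy
      obtain ⟨⟨_, n, rfl⟩, hc⟩ := IsLocalization.exists_of_eq (M := Submonoid.powers (φ r)) hxy'
      refine ⟨⟨r ^ n, n, rfl⟩, hφ ?_⟩
      have hc' : φ r ^ n * φ x = φ r ^ n * φ y := hc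
      show φ (r ^ n * x) = φ (r ^ n * y)
      rw [map_mul, map_mul, map_pow, hc']
  exact Algebra.FormallySmooth.of_equiv
    ((IsLocalization.algEquiv (Submonoid.powers r) (Localization.Away r)
      (Localization.Away (φ r))).restrictScalars S)

/-- Two charts. Proof: `Algebra.smoothLocus_eq_univ_iff`, `Algebra.basicOpen_subset_smoothLocus_iff`. -/
theorem fs_cover {S A : Type} [CommRing S] [CommRing A] [Algebra S A]
    [Algebra.FinitePresentation S A] {x y : A} (h : x + y = 1)
    (hx : Algebra.FormallySmooth S (Localization.Away x))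
    (hy : Algebra.FormallySmooth S (Localization.Away y)) : Algebra.Smooth S A := by
  refine ⟨?_, inferInstance⟩
  rw [← Algebra.smoothLocus_eq_univ_iff, Set.eq_univ_iff_forall]
  intro p
  by_cases hp : x ∈ p.asIdeal
  · refine (Algebra.basicOpen_subset_smoothLocus_iff.mpr hy) ?_
    show y ∉ p.asIdeal
    intro hq
    exact p.2.ne_top ((Ideal.eq_top_iff_one _).mpr (h ▸ p.asIdeal.add_mem hp hq))
  · exact (Algebra.basicOpen_subset_smoothLocus_iff.mpr hx) hp

end DK
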