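import Pool.Agent.Lib.MP_f80667_ag.Dk.Ra

/-! The elements `u`, `v` of the ring `Aa K p a`. -/

open Polynomial CV

namespace DK

variable (K : Type) [Field K] {p a : ℕ}

/-- The element `u = s ^ p`. -/
noncomputable def uu (p a : ℕ) : Aa K p a :=
  mon K ⟨(p, 0), by change p ≡ a * 0 [MOD p]; rw [mul_zero]; exact Nat.mod_self p⟩

/-- The element `v = s ^ a t`. -/
noncomputable def vv (p a : ℕ) : Aa K p a :=
  mon K ⟨(a, 1), by change a ≡ a * 1 [MOD p]; rw [mul_one]⟩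

private theorem rc_uu (p a : ℕ) : ((uu K p a : Aa K p a) : Bf K p) = sx K p ^ p := by
  change sx K p ^ p * tx K p ^ 0 = sx K p ^ p
  rw [pow_zero, mul_one]

theorem vv_pow (p a : ℕ) : vv K p a ^ p = uu K p a ^ a * (1 + uu K p a) := by
  refine Subtype.ext ?_
  change (sx K p ^ a * tx K p ^ 1) ^ p =
    ((uu K p a : Aa K p a) : Bf K p) ^ a * (1 + ((uu K p a : Aa K p a) : Bf K p))
  rw [rc_uu, pow_one, mul_pow, tx_pow, ← pow_mul, ← pow_mul, Nat.mul_comm a p]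

private theorem rc_mem {i j : ℕ} (h : i ≡ a * j [MOD p]) : ((i, j) : ℕ × ℕ) ∈ Ex p a := h

/-- The ring is finitely presented. Proof: it is generated by `u` and the monomials `(a j mod p, j)`, `j < p`; `K` is
noetherian. -/
theorem aa_fp (hp : p.Prime) : Algebra.FinitePresentation K (Aa K p a) := by
  classical
  have hm : ∀ j : ℕ, ((a * j % p, j) : ℕ × ℕ) ∈ Ex p a := fun j =>
    rc_mem (Nat.mod_modEq (a * j) p)
  have h1 : Algebra.FiniteType K (Aa K p a) := by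
    refine ⟨⟨insert (uu K p a) ((Finset.range p).image fun j => mon K ⟨_, hm j⟩), ?_⟩⟩
    rw [eq_top_iff, ← aa_gen K (p := p) (a := a)]
    refine Algebra.adjoin_le ?_
    rintro _ ⟨⟨⟨i, j⟩, hq⟩, rfl⟩
    have hq' : i ≡ a * j [MOD p] := hq
    have hjp : j % p < p := Nat.mod_lt _ hp.pos
    have hjd : j = j % p + p * (j / p) := (Nat.mod_add_div j p).symm
    have hi : i % p = a * (j % p) % p := by
      rw [hq', Nat.mul_mod, Nat.mul_mod a (j % p), Nat.mod_mod]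
    have hid : i = a * (j % p) % p + p * (i / p) := by
      rw [← hi]
      exact (Nat.mod_add_div i p).symm
    have h2 : mon K ⟨(i, j), hq⟩ =
        mon K ⟨_, hm (j % p)⟩ * uu K p a ^ (i / p) * (1 + uu K p a) ^ (j / p) := by
      refine Subtype.ext ?_
      change sx K p ^ i * tx K p ^ j = (sx K p ^ (a * (j % p) % p) * tx K p ^ (j % p)) *
        ((uu K p a : Aa K p a) : Bf K p) ^ (i / p) *
          (1 + ((uu K p a : Aa K p a) : Bf K p)) ^ (j / p)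
      rw [rc_uu, ← tx_pow, ← pow_mul, ← pow_mul]
      conv_lhs => rw [hjd, hid]
      rw [pow_add, pow_add]
      ring
    have hu : uu K p a ∈ Algebra.adjoin K ((insert (uu K p a)
        ((Finset.range p).image fun j => mon K ⟨_, hm j⟩) : Finset (Aa K p a)) :
          Set (Aa K p a)) :=
      Algebra.subset_adjoin (by
        rw [Finset.coe_insert]
        exact Set.mem_insert _ _)
    change mon K ⟨(i, j), hq⟩ ∈ _
    rw [h2]
    refine mul_mem (mul_mem (Algebra.subset_adjoin ?_) (pow_mem hu _))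
      (pow_mem (add_mem (one_mem _) hu) _)
    rw [Finset.coe_insert]
    refine Set.mem_insert_of_mem _ ?_
    exact Finset.mem_coe.2 (Finset.mem_image.2 ⟨j % p, Finset.mem_range.2 hjp, rfl⟩)
  exact Algebra.FinitePresentation.of_finiteType.1 h1

private theorem rc_sw {a' : ℕ} (h : a * a' ≡ 1 [MOD p]) {q : ℕ × ℕ} (hq : q ∈ Ex p a) :
    ((q.2, q.1) : ℕ × ℕ) ∈ Ex p a' := by
  have h1 : q.1 ≡ a * q.2 [MOD p] := hq
  refine rc_mem ?_
  have h2 : a' * q.1 ≡ a' * (a * q.2) [MOD p] := Nat.ModEq.mul_left a' h1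
  have h3 : a' * (a * q.2) = (a * a') * q.2 := by ring
  have h4 : (a * a') * q.2 ≡ 1 * q.2 [MOD p] := Nat.ModEq.mul_right q.2 h
  rw [one_mul] at h4
  rw [h3] at h2
  exact (h2.trans h4).symm

private theorem rc_map {a' : ℕ} (hp : p.Prime) (h2 : p ≠ 2) (h : a * a' ≡ 1 [MOD p]) :
    ∃ φ : Aa K p a →ₐ[K] Aa K p a', ∀ q : Ex p a,
      φ (mon K q) = (-1) ^ ((q : ℕ × ℕ).1 + (q : ℕ × ℕ).2) * mon K ⟨_, rc_sw h q.2⟩ := by
  have ho : Odd p := hp.odd_of_ne_two h2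
  obtain ⟨φ, hφ⟩ := exists_aa K (p := p) (a := a) (B := Bf K p) (x := -tx K p) (y := -sx K p) (by
    rw [ho.neg_pow, ho.neg_pow, tx_pow]
    ring)
  have h3 : ∀ q : Ex p a, φ (mon K q) =
      (((-1) ^ ((q : ℕ × ℕ).1 + (q : ℕ × ℕ).2) * mon K ⟨_, rc_sw h q.2⟩ : Aa K p a') :
        Bf K p) := by
    intro q
    rw [hφ]
    change _ = (-1 : Bf K p) ^ ((q : ℕ × ℕ).1 + (q : ℕ × ℕ).2) *
      (sx K p ^ (q : ℕ × ℕ).2 * tx K p ^ (q : ℕ × ℕ).1)
    rw [neg_pow (tx K p), neg_pow (sx K p), pow_add]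
    ring
  have h4 : (⊤ : Subalgebra K (Aa K p a)) ≤ (Aa K p a').comap φ := by
    rw [← aa_gen K (p := p) (a := a)]
    refine Algebra.adjoin_le ?_
    rintro _ ⟨q, rfl⟩
    change φ (mon K q) ∈ Aa K p a'
    rw [h3]
    exact SetLike.coe_mem _
  refine ⟨φ.codRestrict (Aa K p a') fun x => h4 (Algebra.mem_top (x := x)), fun q => ?_⟩
  exact Subtype.ext (h3 q)

private theorem rc_comp {a' : ℕ} (h : a * a' ≡ 1 [MOD p]) (h' : a' * a ≡ 1 [MOD p])
    {φ : Aa K p a →ₐ[K] Aa K p a'} {ψ : Aa K p a' →ₐ[K] Aa K p a}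
    (hφ : ∀ q : Ex p a, φ (mon K q) =
      (-1) ^ ((q : ℕ × ℕ).1 + (q : ℕ × ℕ).2) * mon K ⟨_, rc_sw h q.2⟩)
    (hψ : ∀ q : Ex p a', ψ (mon K q) =
      (-1) ^ ((q : ℕ × ℕ).1 + (q : ℕ × ℕ).2) * mon K ⟨_, rc_sw h' q.2⟩) :
    ψ.comp φ = AlgHom.id K (Aa K p a) := by
  refine aa_ext K fun q => ?_
  change ψ (φ (mon K q)) = mon K q
  rw [hφ, map_mul, map_pow, map_neg, map_one, hψ]
  change (-1 : Aa K p a) ^ ((q : ℕ × ℕ).1 + (q : ℕ × ℕ).2) *
    ((-1) ^ ((q : ℕ × ℕ).2 + (q : ℕ × ℕ).1) * mon K q) = mon K q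
  rw [← mul_assoc, add_comm (q : ℕ × ℕ).2, ← pow_add, (Even.neg_one_pow ⟨_, rfl⟩), one_mul]

/-- Exchange of `s` and `t`. Proof: `exists_aa` for `x = - t`, `y = - s` (`p` is odd), in both directions, `aa_ext`. -/
theorem exists_swap {a' : ℕ} (hp : p.Prime) (h2 : p ≠ 2) (h : a * a' ≡ 1 [MOD p]) :
    ∃ e : Aa K p a ≃ₐ[K] Aa K p a', e (1 + uu K p a) = - uu K p a' := by
  have h' : a' * a ≡ 1 [MOD p] := by
    rw [mul_comm]
    exact h
  have ho : Odd p := hp.odd_of_ne_two h2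
  obtain ⟨φ, hφ⟩ := rc_map K hp h2 h
  obtain ⟨ψ, hψ⟩ := rc_map K hp h2 h'
  refine ⟨AlgEquiv.ofAlgHom φ ψ (rc_comp K h' h hψ hφ) (rc_comp K h h' hφ hψ), ?_⟩
  change φ (1 + uu K p a) = _
  rw [map_add, map_one]
  unfold uu
  rw [hφ]
  change 1 + (-1 : Aa K p a') ^ (p + 0) * mon K ⟨(0, p), _⟩ = - uu K p a'
  refine Subtype.ext ?_
  change 1 + (-1 : Bf K p) ^ (p + 0) * (sx K p ^ 0 * tx K p ^ p) =
    - ((uu K p a' : Aa K p a') : Bf K p)
  rw [rc_uu, add_zero, ho.neg_one_pow, tx_pow]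
  ring

end DK
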