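import Pool.Agent.Lib.MP_f80667_ag.Dk.Rs
import Pool.Agent.Lib.MP_f80667_ag.Dk.Gb
import Pool.Agent.Lib.MP_f80667_ag.Dh.Bh

/-!
The maps from the Fermat curve `D` to the curves `C_a : v ^ p = u ^ a (1 + u)`: `s = c_0 / c_2`, `t = - c_1 / c_2`.
-/

open ZC BE PE CV QS Polynomial TensorProduct DH

namespace DK

variable {M : Type} [Field M] [CharZero M] {p a : ℕ} {ε : M} {D : Crv M} (c : Cu D p (Af p ε))
  (hp : p.Prime) (ha : 0 < a) (h : a + 1 < p) (hε : ε ^ p = -1)

include hp ha h hε in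
/-- The homomorphism. Proof: `exists_aa` with `x = c_0 / c_2`, `y = - c_1 / c_2` in the localization (`sc_sum`; `c_2` divides
`sb c`, so it is a unit there; `p` is odd). -/
theorem exists_hom : ∃ φ : Aa M p a →ₐ[M] Localization.Away (sb c), ∀ q : Ex p a,
    φ (mon M q) * algebraMap D.A (Localization.Away (sb c)) (sc c 2) ^
        ((q : ℕ × ℕ).1 + (q : ℕ × ℕ).2) =
      algebraMap D.A (Localization.Away (sb c))
        (sc c 0 ^ (q : ℕ × ℕ).1 * (-sc c 1) ^ (q : ℕ × ℕ).2) := by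
  have hsb : sb c = sc c 0 * sc c 1 * sc c 2 := Fin.prod_univ_three _
  have hodd : Odd p := hp.odd_of_ne_two (by omega)
  have hu : IsUnit (algebraMap D.A (Localization.Away (sb c)) (sc c 2)) := by
    have h1 : IsUnit (algebraMap D.A (Localization.Away (sb c)) (sb c)) :=
      IsLocalization.Away.algebraMap_isUnit (sb c)
    have h2 : algebraMap D.A (Localization.Away (sb c)) (sb c) =
        algebraMap D.A (Localization.Away (sb c)) (sc c 0 * sc c 1) *
          algebraMap D.A (Localization.Away (sb c)) (sc c 2) := by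
      rw [← map_mul, ← hsb]
    rw [h2] at h1
    exact isUnit_of_mul_isUnit_right h1
  obtain ⟨w, hw⟩ := hu.exists_right_inv
  have hsum : algebraMap D.A (Localization.Away (sb c)) (sc c 0) ^ p +
      algebraMap D.A (Localization.Away (sb c)) (sc c 1) ^ p +
      algebraMap D.A (Localization.Away (sb c)) (sc c 2) ^ p = 0 := by
    have h1 := congrArg (algebraMap D.A (Localization.Away (sb c))) (sc_sum c hε)
    rw [Fin.sum_univ_three, map_add, map_add, map_pow, map_pow, map_pow, map_zero] at h1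
    exact h1
  have hrel : (-algebraMap D.A (Localization.Away (sb c)) (sc c 1) * w) ^ p =
      1 + (algebraMap D.A (Localization.Away (sb c)) (sc c 0) * w) ^ p := by
    have h1 : (algebraMap D.A (Localization.Away (sb c)) (sc c 2) * w) ^ p = 1 := by
      rw [hw, one_pow]
    rw [mul_pow] at h1
    rw [mul_pow, mul_pow, hodd.neg_pow]
    linear_combination (-(w ^ p)) * hsum + h1
  obtain ⟨φ, hφ⟩ := exists_aa M (p := p) (a := a) hrel
  refine ⟨φ, fun q => ?_⟩
  rw [hφ, mul_pow, mul_pow, map_mul, map_pow, map_pow, map_neg, pow_add]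
  have h2 : ∀ n : ℕ, w ^ n * algebraMap D.A (Localization.Away (sb c)) (sc c 2) ^ n = 1 := by
    intro n
    rw [← mul_pow, mul_comm w, hw, one_pow]
  have h3 := h2 (q : ℕ × ℕ).1
  have h4 := h2 (q : ℕ × ℕ).2
  linear_combination (algebraMap D.A (Localization.Away (sb c)) (sc c 0) ^ (q : ℕ × ℕ).1 *
    (-algebraMap D.A (Localization.Away (sb c)) (sc c 1)) ^ (q : ℕ × ℕ).2 *
      (w ^ (q : ℕ × ℕ).2 * algebraMap D.A (Localization.Away (sb c)) (sc c 2) ^ (q : ℕ × ℕ).2)) * h3 +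
    (algebraMap D.A (Localization.Away (sb c)) (sc c 0) ^ (q : ℕ × ℕ).1 *
    (-algebraMap D.A (Localization.Away (sb c)) (sc c 1)) ^ (q : ℕ × ℕ).2) * h4

/-- The map. -/
noncomputable def ga : Gr D (Ca M hp ha h) where
  b := sb c
  ne := sb_ne c hp.two_le hε
  h := (exists_hom c hp ha h hε).choose

/-- The values. Proof: `f_gn`, `exists_hom` (for a monomial: `Rl` with `k = i + j` and the numerator
`c_0 ^ i (- c_1) ^ j (c_0 c_1) ^ (i + j)`). -/
theorem ga_val {L : Type} [Field L] [Algebra M L] {φ : D.A →ₐ[M] L} (hφ : φ (sb c) ≠ 0) :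
    ∃ ψ : (Ca M hp ha h).A →ₐ[M] L, (ga c hp ha h hε).f (some φ : D.V.pt L) = some ψ ∧
      ∀ q : Ex p a, ψ (mon M q) = (φ (sc c 0) / φ (sc c 2)) ^ (q : ℕ × ℕ).1 *
        (-φ (sc c 1) / φ (sc c 2)) ^ (q : ℕ × ℕ).2 := by
  have hsb : sb c = sc c 0 * sc c 1 * sc c 2 := Fin.prod_univ_three _
  have hs := (sb_val c φ).1 hφ
  obtain ⟨ψ, h1, h2⟩ := (ga c hp ha h hε).f_gn hφ
  refine ⟨ψ, h1, fun q => ?_⟩
  have h3 : (ga c hp ha h hε).Rl (mon M q : Aa M p a)
      ((sc c 0 * sc c 1) ^ ((q : ℕ × ℕ).1 + (q : ℕ × ℕ).2) *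
        (sc c 0 ^ (q : ℕ × ℕ).1 * (-sc c 1) ^ (q : ℕ × ℕ).2))
      ((q : ℕ × ℕ).1 + (q : ℕ × ℕ).2) := by
    have h4 := (exists_hom c hp ha h hε).choose_spec q
    have h6 : algebraMap D.A (Localization.Away (sb c)) (sb c) =
        algebraMap D.A (Localization.Away (sb c)) (sc c 0 * sc c 1) *
          algebraMap D.A (Localization.Away (sb c)) (sc c 2) := by
      rw [← map_mul, ← hsb]
    have key : algebraMap D.A (Localization.Away (sb c))
        ((sc c 0 * sc c 1) ^ ((q : ℕ × ℕ).1 + (q : ℕ × ℕ).2) *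
          (sc c 0 ^ (q : ℕ × ℕ).1 * (-sc c 1) ^ (q : ℕ × ℕ).2)) =
        algebraMap D.A (Localization.Away (sb c)) (sb c) ^ ((q : ℕ × ℕ).1 + (q : ℕ × ℕ).2) *
          (exists_hom c hp ha h hε).choose (mon M q) := by
      rw [map_mul, ← h4, h6, map_pow,
        mul_pow (algebraMap D.A (Localization.Away (sb c)) (sc c 0 * sc c 1))
          (algebraMap D.A (Localization.Away (sb c)) (sc c 2)), mul_assoc]
      exact congrArg _ (mul_comm _ _)
    exact key
  have h5 := h2 _ _ _ h3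
  change φ _ = φ (sb c) ^ _ * ψ (mon M q) at h5
  have h0 := hs 0
  have h1' := hs 1
  have h2' := hs 2
  have e0 : φ (sb c) = φ (sc c 0) * φ (sc c 1) * φ (sc c 2) := by rw [hsb, map_mul, map_mul]
  rw [e0, map_mul, map_pow, map_mul, map_mul, map_pow, map_pow, map_neg] at h5
  have h6 : (φ (sc c 0) * φ (sc c 1)) ^ ((q : ℕ × ℕ).1 + (q : ℕ × ℕ).2) ≠ 0 :=
    pow_ne_zero _ (mul_ne_zero h0 h1')
  rw [mul_pow (φ (sc c 0) * φ (sc c 1)) (φ (sc c 2)), mul_assoc] at h5
  have h7 := mul_left_cancel₀ h6 h5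
  rw [div_pow, div_pow, div_mul_div_comm, ← pow_add, eq_div_iff (pow_ne_zero _ h2'), h7]
  ring

end DK
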