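import Mathlib
import Pool.Agent.Lib.MP_f80667_ag.Dk.Gn

open DH DK QS PE BE ZC IsDedekindDomain NumberField

/-- Zero-cycles on diagonal hypersurfaces over number fields.
Let `F` be a number field, `d ≥ 2`, `n ≥ 2`, `a_0, ..., a_(n+1) ∈ F` not `0`, and let `X` (`Xd d a`) be the hypersurface
`∑ a_i x_i ^ d = 0` in `P^(n+1)`. For a prime number `l` and a finite place `v` consider the condition (`Cd d a l v`):
`l ^ d ∉ v ^ (l - 1)`, or `l ∉ v ^ (l - 1)` and the valuations at `v` of the coefficients `a_i` are congruent modulo `d`.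
It holds if `v` is not above `l`, and for all `v` if `l > d [F : ℚ] + 1`.
(1) Let `v` be a finite place which is not above `d`, and `m ≠ 0` a number such that every prime factor `l` of `m` is prime to
`d` and satisfies the condition at `v`. Then the group `A₀(X_v)` of zero-cycles of degree `0` modulo rational equivalence is
divisible by `m`. If `Λ` is a set of prime numbers which do not divide `2 d` and satisfy the condition at all `v`, such that
`A₀(X_v)` is divisible by all `l ∈ Λ` for the places `v` above `d`, then the group `F^1_A(X)` (families of zero-cycles of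
degree `0` over all places, modulo rational equivalence and, at the infinite places, norms) is divisible by all `m ≠ 0` with
prime factors in `Λ`, and the components at all `l ∈ Λ` of every element of the completion of `F^1_A(X)` are in the image of
`Δ`.
(2) Let `d = 4` or let `d` be an odd prime number. Then `A₀(X_v)` is divisible by `m` at all finite places `v`, those above `d`
included, if every prime factor of `m` is prime to `2 d`, prime to `d - 1` if `d ≠ 4`, and satisfies the condition at `v`; and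
the conclusions of (1) hold for the set `Λ` (`Ls d a`) of all the prime numbers which do not divide `2 d`, do not divide
`d - 1` if `d ≠ 4`, and satisfy the condition at all `v`. This set contains all the prime numbers `l > d [F : ℚ] + 1`. -/
theorem DK.res :
    (∀ (F : Type) [Field F] [NumberField F] (d n : ℕ) (a : Fin (n + 2) → F), 2 ≤ d → 2 ≤ n →
      (∀ i, a i ≠ 0) →
        (∀ l : ℕ, l.Prime → ∀ v : HeightOneSpectrum (𝓞 F),
          (l : 𝓞 F) ∉ v.asIdeal ∨ d * Module.finrank ℚ F + 1 < l → Cd d a l v) ∧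
        (∀ v : HeightOneSpectrum (𝓞 F), v.valuation F (d : F) = 1 → ∀ m : ℕ, m ≠ 0 →
          (∀ l : ℕ, l.Prime → l ∣ m → ¬ l ∣ d ∧ Cd d a l v) →
            Dq (Xd d a) (FK F v) (AlgebraicClosure (FK F v)) m) ∧
        ∀ Λ : Set ℕ, (∀ l ∈ Λ, l.Prime ∧ ¬ l ∣ 2 * d ∧ (∀ v, Cd d a l v) ∧
            ∀ v : HeightOneSpectrum (𝓞 F), v.valuation F (d : F) < 1 →
              Dq (Xd d a) (FK F v) (AlgebraicClosure (FK F v)) l) →
          (∀ m : ℕ, m ≠ 0 → Sf Λ m → ∀ c : Fam (Xd d a), ∃ c' : Fam (Xd d a), c.cl = m • c'.cl) ∧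
            ∀ z : LHat (FA (Xd d a)), ImDeS Λ z) ∧
    ∀ (F : Type) [Field F] [NumberField F] (d n : ℕ) (a : Fin (n + 2) → F),
      (d = 4 ∨ (d.Prime ∧ d ≠ 2)) → 2 ≤ n → (∀ i, a i ≠ 0) →
        (∀ v : HeightOneSpectrum (𝓞 F), ∀ m : ℕ, m ≠ 0 →
          (∀ l : ℕ, l.Prime → l ∣ m → ¬ l ∣ 2 * d ∧ (d ≠ 4 → ¬ l ∣ d - 1) ∧ Cd d a l v) →
            Dq (Xd d a) (FK F v) (AlgebraicClosure (FK F v)) m) ∧
        (∀ m : ℕ, m ≠ 0 → Sf (DK.Ls d a) m → ∀ c : Fam (Xd d a), ∃ c' : Fam (Xd d a),
          c.cl = m • c'.cl) ∧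
        (∀ z : LHat (FA (Xd d a)), ImDeS (DK.Ls d a) z) ∧
        ∀ l : ℕ, l.Prime → d * Module.finrank ℚ F + 1 < l → l ∈ DK.Ls d a :=
  ⟨fun _ _ _ _ _ _ hd hn ha =>
    ⟨fun _ hl v h => h.elim (gp_off hl) fun h => gp_of (by omega) hl h v, main_D hd hn ha⟩,
    fun _ _ _ _ _ _ hd hn ha => main_P hd hn ha⟩
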