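import Pool.Agent.Lib.MP_f80667_ag.Dk.Rd
import Pool.Agent.Lib.MP_f80667_ag.Dk.Gd

/-! The fibres of the maps to the curves `C_a`. -/

open ZC BE PE CV QS Polynomial TensorProduct DH

namespace DK

/-- The multiplication of the coordinates which does not change the image. -/
def hz {Ω : Type} [Field Ω] (p a : ℕ) (ζ : Ω) : Fin 3 → Ω := ![ζ, ζ ^ (p - a), 1]

variable {M : Type} [Field M] [CharZero M] {p a : ℕ} {ε : M} {D : Crv M} (c : Cu D p (Af p ε))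
  (hp : p.Prime) (ha : 0 < a) (h : a + 1 < p) (hε : ε ^ p = -1)
  {Ω : Type} [Field Ω] [Algebra M Ω] [IsAlgClosed Ω]

omit [IsAlgClosed Ω] in
private theorem hz_pow {ζ : Ω} (hζ : ζ ^ p = 1) (m : Fin 3) : hz p a ζ m ^ p = 1 := by
  fin_cases m
  · exact hζ
  · change (ζ ^ (p - a)) ^ p = 1
    rw [← pow_mul, mul_comm, pow_mul, hζ, one_pow]
  · exact one_pow p

omit [IsAlgClosed Ω] in
private theorem rf_eps (hp : p.Prime) (hε : ε ^ p = -1) : ε ≠ 0 := by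
  rintro rfl
  rw [zero_pow hp.ne_zero] at hε
  exact one_ne_zero (neg_eq_zero.1 hε.symm)

omit [IsAlgClosed Ω] in
/-- the images in terms of the coordinates -/
private theorem rf_eq {φ φ' : D.A →ₐ[M] Ω} (hφ : φ (sb c) ≠ 0) (hφ' : φ' (sb c) ≠ 0) :
    (ga c hp ha h hε).f (some φ' : D.V.pt Ω) = (ga c hp ha h hε).f (some φ : D.V.pt Ω) ↔
      ∀ q : Ex p a, (φ' (sc c 0) / φ' (sc c 2)) ^ (q : ℕ × ℕ).1 *
          (-φ' (sc c 1) / φ' (sc c 2)) ^ (q : ℕ × ℕ).2 =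
        (φ (sc c 0) / φ (sc c 2)) ^ (q : ℕ × ℕ).1 *
          (-φ (sc c 1) / φ (sc c 2)) ^ (q : ℕ × ℕ).2 := by
  obtain ⟨ψ, h1, h2⟩ := ga_val c hp ha h hε hφ
  obtain ⟨ψ', h1', h2'⟩ := ga_val c hp ha h hε hφ'
  constructor
  · intro he q
    rw [h1, h1'] at he
    obtain rfl : ψ' = ψ := Option.some_injective _ he
    rw [← h2 q, ← h2' q]
  · intro he
    rw [h1, h1']
    have h3 : ψ' = ψ := aa_ext M (B := Ω) (φ := ψ') (ψ := ψ) fun q =>
      (h2' q).trans ((he q).trans (h2 q).symm)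
    rw [h3]

omit [IsAlgClosed Ω] in
/-- the root of unity -/
private theorem rf_alg (ha' : a < p) {x y z x' y' z' : Ω} (hx : x ≠ 0) (hz : z ≠ 0)
    (hx' : x' ≠ 0) (hz' : z' ≠ 0) (h1 : (x' / z') ^ p = (x / z) ^ p)
    (h2 : (x' / z') ^ a * (-y' / z') = (x / z) ^ a * (-y / z)) :
    ∃ ζ : Ω, ζ ^ p = 1 ∧ ∃ r : Ω, x' = r * (ζ * x) ∧ y' = r * (ζ ^ (p - a) * y) ∧
      z' = r * (1 * z) := by
  have hs : x / z ≠ 0 := div_ne_zero hx hz
  have hs' : x' / z' ≠ 0 := div_ne_zero hx' hz'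
  obtain ⟨ζ, hζ⟩ : ∃ ζ : Ω, ζ = (x' / z') / (x / z) := ⟨_, rfl⟩
  have hζ0 : ζ ≠ 0 := by
    rw [hζ]
    exact div_ne_zero hs' hs
  have hζp : ζ ^ p = 1 := by
    rw [hζ, div_pow, h1, div_self (pow_ne_zero _ hs)]
  have e1 : x' / z' = ζ * (x / z) := by
    rw [hζ, div_mul_cancel₀ _ hs]
  have e2 : ζ ^ (p - a) * ζ ^ a = 1 := by
    rw [← pow_add, Nat.sub_add_cancel ha'.le, hζp]
  have e3 : y' / z' = ζ ^ (p - a) * (y / z) := by
    rw [e1, mul_pow] at h2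
    have e4 : ζ ^ a * (y' / z') = y / z := by
      refine mul_left_cancel₀ (pow_ne_zero a hs) ?_
      linear_combination -h2
    rw [← e4, ← mul_assoc, e2, one_mul]
  refine ⟨ζ, hζp, z' / z, ?_, ?_, ?_⟩
  · have e5 : x' = x' / z' * z' := by
      field_simp
    rw [e5, e1]
    field_simp
  · have e5 : y' = y' / z' * z' := by
      field_simp
    rw [e5, e3]
    field_simp
  · field_simp

open Classical in
/-- **The fibre.** Proof: `ga_val`, `aa_ext`: the images are the same if and only if `s ^ p`, `s ^ a t` are the same (then all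
monomials are: `s ^ i t ^ j = (s ^ a t) ^ j s ^ (i - a j)`, `p` divides `i - a j`); `ζ` is the quotient of the two values of `s`;
`sc_ext`, `zs_spec`. -/
theorem ga_fb {φ : D.A →ₐ[M] Ω} (hφ : φ (sb c) ≠ 0) :
    (ga c hp ha h hε).Fb ((ga c hp ha h hε).f (some φ : D.V.pt Ω)) =
      (((nthRootsFinset p (1 : Ω)).image fun ζ => (some (zs c φ (hz p a ζ)) : D.V.pt Ω) :
        Finset (D.V.pt Ω)) : Set (D.V.pt Ω)) := by
  have hs := (sb_val c φ).1 hφ
  have hap : a < p := by omega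
  ext P
  rw [Finset.coe_image, Set.mem_image]
  constructor
  · rintro ⟨⟨φ', rfl, h'⟩, hf⟩
    change φ' (sb c) ≠ 0 at h'
    have hs' := (sb_val c φ').1 h'
    have he := (rf_eq c hp ha h hε hφ h').1 hf
    have h1 := he ⟨(p, 0), by change p ≡ a * 0 [MOD p]; rw [mul_zero]; exact Nat.mod_self p⟩
    have h2 := he ⟨(a, 1), by change a ≡ a * 1 [MOD p]; rw [mul_one]⟩
    rw [pow_zero, pow_zero, mul_one, mul_one] at h1
    rw [pow_one, pow_one] at h2
    obtain ⟨ζ, hζ, r, e0, e1, e2⟩ := rf_alg hap (hs 0) (hs 2) (hs' 0) (hs' 2) h1 h2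
    refine ⟨ζ, ?_, ?_⟩
    · rw [Finset.mem_coe, mem_nthRootsFinset hp.pos]
      exact hζ
    · have hr : ∀ m, φ' (sc c m) = r * (hz p a ζ m * φ (sc c m)) := by
        intro m
        fin_cases m
        · exact e0
        · exact e1
        · exact e2
      obtain ⟨t, ht, hzt⟩ := zs_spec c hε hp.pos hφ (hz_pow (a := a) hζ)
      have : φ' = zs c φ (hz p a ζ) := by
        refine (sc_ext c (rf_eps hp hε) (r := r / t) fun m => ?_).2
        rw [hr m, hzt m]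
        field_simp
      rw [this]
  · rintro ⟨ζ, hζ, rfl⟩
    rw [Finset.mem_coe, mem_nthRootsFinset hp.pos] at hζ
    have hg := zs_gn c hε hp.pos hφ (hz_pow (a := a) hζ)
    refine ⟨⟨_, rfl, hg⟩, (rf_eq c hp ha h hε hφ hg).2 fun q => ?_⟩
    obtain ⟨t, ht, hzt⟩ := zs_spec c hε hp.pos hφ (hz_pow (a := a) hζ)
    rw [hzt, hzt, hzt]
    change (t * (ζ * φ (sc c 0)) / (t * (1 * φ (sc c 2)))) ^ (q : ℕ × ℕ).1 *
      (-(t * (ζ ^ (p - a) * φ (sc c 1))) / (t * (1 * φ (sc c 2)))) ^ (q : ℕ × ℕ).2 = _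
    have h2 := hs 2
    have e1 : t * (ζ * φ (sc c 0)) / (t * (1 * φ (sc c 2))) = ζ * (φ (sc c 0) / φ (sc c 2)) := by
      field_simp
    have e2 : -(t * (ζ ^ (p - a) * φ (sc c 1))) / (t * (1 * φ (sc c 2))) =
        ζ ^ (p - a) * (-φ (sc c 1) / φ (sc c 2)) := by
      field_simp
    have e3 : ζ ^ (q : ℕ × ℕ).1 * (ζ ^ (p - a)) ^ (q : ℕ × ℕ).2 = 1 := by
      have h3 := mem_Ex.1 q.2
      have h4 : (q : ℕ × ℕ).1 + (p - a) * (q : ℕ × ℕ).2 ≡ 0 [MOD p] := by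
        have h5 : (q : ℕ × ℕ).1 + (p - a) * (q : ℕ × ℕ).2 ≡
            a * (q : ℕ × ℕ).2 + (p - a) * (q : ℕ × ℕ).2 [MOD p] := h3.add_right _
        rw [← add_mul, Nat.add_sub_cancel' hap.le] at h5
        exact h5.trans (Nat.modEq_zero_iff_dvd.2 (dvd_mul_right p _))
      obtain ⟨k, hk⟩ := Nat.modEq_zero_iff_dvd.1 h4
      rw [← pow_mul, ← pow_add, hk, pow_mul, hζ, one_pow]
    rw [e1, e2, mul_pow, mul_pow]
    linear_combination (φ (sc c 0) / φ (sc c 2)) ^ (q : ℕ × ℕ).1 *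
      (-φ (sc c 1) / φ (sc c 2)) ^ (q : ℕ × ℕ).2 * e3

/-- Proof: `psi_fin`, `ga_fb`, the `p` points are distinct (`zs_eq`). -/
theorem ga_psi {φ : D.A →ₐ[M] Ω} (hφ : φ (sb c) ≠ 0) :
    (ga c hp ha h hε).psi p (Finsupp.single ((ga c hp ha h hε).f (some φ : D.V.pt Ω)) 1) =
      ∑ ζ ∈ nthRootsFinset p (1 : Ω),
        (Finsupp.single (some (zs c φ (hz p a ζ))) 1 : D.V.pt Ω →₀ ℤ) := by
  classical
  have : CharZero Ω := charZero_of_injective_algebraMap (algebraMap M Ω).injective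
  have hinj : Set.InjOn (fun ζ => (some (zs c φ (hz p a ζ)) : D.V.pt Ω))
      (nthRootsFinset p (1 : Ω) : Set Ω) := by
    intro ζ hζ ζ' hζ' he
    rw [Finset.mem_coe, mem_nthRootsFinset hp.pos] at hζ hζ'
    obtain ⟨r, hr⟩ := (zs_eq c hε hp.pos hφ (hz_pow (a := a) hζ) (hz_pow (a := a) hζ')).1
      (Option.some_injective _ he)
    have h0 : ζ' = r * ζ := hr 0
    have h1 : (1 : Ω) = r * 1 := hr 2
    rw [h0]
    linear_combination ζ * h1
  have hcard : (nthRootsFinset p (1 : Ω)).card = p := by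
    have : NeZero ((p : ℕ) : Ω) := ⟨Nat.cast_ne_zero.2 hp.ne_zero⟩
    obtain ⟨z, hz⟩ := HasEnoughRootsOfUnity.exists_primitiveRoot Ω p
    exact hz.card_nthRootsFinset
  have key : ∀ F : Ω → D.V.pt Ω, Set.InjOn F (nthRootsFinset p (1 : Ω) : Set Ω) →
      ((ga c hp ha h hε).Fb ((ga c hp ha h hε).f (some φ : D.V.pt Ω)) =
        (((nthRootsFinset p (1 : Ω)).image F : Finset (D.V.pt Ω)) : Set (D.V.pt Ω))) →
      (ga c hp ha h hε).psi p (Finsupp.single ((ga c hp ha h hε).f (some φ : D.V.pt Ω)) 1) =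
        ∑ ζ ∈ nthRootsFinset p (1 : Ω), Finsupp.single (F ζ) 1 := by
    intro F hF hf
    rw [(ga c hp ha h hε).psi_fin p _ hf, Finset.card_image_of_injOn hF, hcard,
      Finset.sum_image hF]
    simp
  exact key _ hinj (ga_fb c hp ha h hε hφ)

end DK
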