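import Pool.Agent.Lib.MP_f80667_ag.Cv.SeB

/-! Smooth localizations of `S[x, u] / (u ^ n - a(x))`. -/

open Polynomial CV

namespace DK

/-- The Jacobian criterion where `x ≠ 0`. Proof: as `Se.smooth`: lift `x`, `u` to `B` (`I ^ 2 = 0`), the defect
`P = u ^ n - a(x)` is in `I`; the relation, multiplied by `P`, gives the corrections of `x` and `u` after division by the unit
`x ^ N`; the lift of `x` is a unit because it is one modulo `I`. -/
theorem fs_chart {S : Type} [CommRing S] {n : ℕ} (hn : 0 < n) {a : S[X]} {N : ℕ}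
    {b c : Se.Rg n a}
    (h : Se.gx n a ^ N = b * ((n : Se.Rg n a) * Se.gu n a ^ (n - 1)) +
      c * aeval (Se.gx n a) (derivative a)) :
    Algebra.FormallySmooth S (Localization.Away (Se.gx n a)) := by
  refine .of_comp_surjective fun B _ _ I hI f => ?_
  obtain ⟨f', hf'⟩ : ∃ f' : Se.Rg n a →ₐ[S] B ⧸ I,
      ∀ r, f' r = f (algebraMap (Se.Rg n a) (Localization.Away (Se.gx n a)) r) :=
    ⟨f.comp (IsScalarTower.toAlgHom S (Se.Rg n a) (Localization.Away (Se.gx n a))),
      fun _ => rfl⟩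
  obtain ⟨x₀, hx₀⟩ := Ideal.Quotient.mk_surjective (f' (Se.gx n a))
  obtain ⟨u₀, hu₀⟩ := Ideal.Quotient.mk_surjective (f' (Se.gu n a))
  obtain ⟨b₀, hb₀⟩ := Ideal.Quotient.mk_surjective (f' b)
  obtain ⟨c₀, hc₀⟩ := Ideal.Quotient.mk_surjective (f' c)
  have hsq : ∀ y ∈ I, ∀ z ∈ I, y * z = 0 := fun y hy z hz => by
    have h1 := Ideal.mul_mem_mul hy hz
    rw [← sq, hI, Submodule.mem_bot] at h1
    exact h1
  have hae : ∀ g : S[X], Ideal.Quotient.mk I (aeval x₀ g) = f' (aeval (Se.gx n a) g) :=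
    fun g => by
      have h1 := aeval_algHom_apply f' (Se.gx n a) g
      rw [← h1, ← hx₀]
      exact (aeval_algHom_apply (Ideal.Quotient.mkₐ S I) x₀ g).symm
  have hxu : IsUnit x₀ := by
    rw [← IsNilpotent.isUnit_quotient_mk_iff (I := I) ⟨2, hI⟩, hx₀, hf']
    exact (IsLocalization.Away.algebraMap_isUnit (Se.gx n a)).map f
  obtain ⟨v, hv⟩ := (hxu.pow N).exists_left_inv
  -- the defect
  have hP : u₀ ^ n - aeval x₀ a ∈ I := by
    rw [← Ideal.Quotient.eq, map_pow, hu₀, hae, ← map_pow, Se.gu_pow]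
  set P := u₀ ^ n - aeval x₀ a with hPdef
  have hrel : (x₀ ^ N - (b₀ * ((n : B) * u₀ ^ (n - 1)) + c₀ * aeval x₀ (derivative a))) * P =
      0 := by
    refine hsq _ ?_ _ hP
    rw [← Ideal.Quotient.eq, map_pow, hx₀, ← map_pow, h]
    simp only [map_add, map_mul, map_pow, map_natCast, hae, hb₀, hc₀, hu₀]
  have hδ : v * c₀ * P ∈ I := Ideal.mul_mem_left _ _ hP
  have hε : -(v * b₀ * P) ∈ I := I.neg_mem (Ideal.mul_mem_left _ _ hP)
  have e1 : (u₀ + -(v * b₀ * P)) ^ n = aeval (x₀ + v * c₀ * P) a := by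
    rw [aeval_add_of_sq_eq_zero _ _ _ (by rw [sq]; exact hsq _ hδ _ hδ)]
    have h2 := aeval_add_of_sq_eq_zero (X ^ n : S[X]) u₀ (-(v * b₀ * P))
      (by rw [sq]; exact hsq _ hε _ hε)
    rw [map_pow, map_pow, aeval_X, aeval_X, derivative_X_pow, map_mul, map_pow, aeval_X,
      aeval_C, map_natCast] at h2
    rw [h2]
    have h5 : u₀ ^ n = P + aeval x₀ a := by rw [hPdef, sub_add_cancel]
    rw [h5]
    linear_combination v * hrel - P * hv
  have hxu' : IsUnit (x₀ + v * c₀ * P) := by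
    rw [← IsNilpotent.isUnit_quotient_mk_iff (I := I) ⟨2, hI⟩, map_add,
      Ideal.Quotient.eq_zero_iff_mem.2 hδ, add_zero]
    exact hxu.map _
  have hg : ∀ y : Submonoid.powers (Se.gx n a), IsUnit (Se.lift e1 y) := by
    rintro ⟨_, k, rfl⟩
    change IsUnit (Se.lift e1 (Se.gx n a ^ k))
    rw [map_pow, Se.lift_gx]
    exact hxu'.pow k
  have key : (Ideal.Quotient.mkₐ S I).comp (Se.lift e1) = f' := by
    refine AdjoinRoot.algHom_ext' ?_ ?_
    · refine Polynomial.algHom_ext ?_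
      change Ideal.Quotient.mk I (Se.lift e1 (Se.gx n a)) = f' (Se.gx n a)
      rw [Se.lift_gx, ← hx₀, Ideal.Quotient.eq, add_sub_cancel_left]
      exact hδ
    · change Ideal.Quotient.mk I (Se.lift e1 (Se.gu n a)) = f' (Se.gu n a)
      rw [Se.lift_gu, ← hu₀, Ideal.Quotient.eq, add_sub_cancel_left]
      exact hε
  refine ⟨IsLocalization.liftAlgHom (M := Submonoid.powers (Se.gx n a)) hg, ?_⟩
  refine AlgHom.coe_ringHom_injective
    (IsLocalization.ringHom_ext (Submonoid.powers (Se.gx n a)) (RingHom.ext fun r => ?_))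
  change Ideal.Quotient.mk I (IsLocalization.lift hg
    (algebraMap (Se.Rg n a) (Localization.Away (Se.gx n a)) r)) =
      f (algebraMap (Se.Rg n a) (Localization.Away (Se.gx n a)) r)
  rw [IsLocalization.lift_eq, ← hf', ← key]
  rfl

end DK
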