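import Pool.Agent.Lib.MP_f80667_ag.Dk.Ra

/-!
The monic table of the ring `Aa S p a`: `a + 1` is not divisible by `p`, so every `m ∈ Sx p a` is `i + j` for exactly one
exponent with `j < p`.
-/

open Polynomial CV

namespace DK

variable (S : Type) [CommRing S] {p a : ℕ}

private theorem rt_exp {p a : ℕ} {q : Ex p a} (h : p ≤ (q : ℕ × ℕ).2) : ∃ q' r' : Ex p a,
    (q : ℕ × ℕ) = (q' : ℕ × ℕ) + (0, p) ∧ (r' : ℕ × ℕ) = (q' : ℕ × ℕ) + (p, 0) := by
  obtain ⟨⟨i, j⟩, hq⟩ := q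
  have hq' : i ≡ a * j [MOD p] := hq
  obtain ⟨j', rfl⟩ : ∃ j', j = j' + p := ⟨j - p, (Nat.sub_add_cancel h).symm⟩
  have h1 : i ≡ a * j' [MOD p] := by
    refine hq'.trans ?_
    rw [mul_add]
    exact Nat.add_mul_mod_self_right _ _ _
  have h2 : i + p ≡ a * j' [MOD p] := by
    refine Nat.ModEq.trans ?_ h1
    exact Nat.add_mod_right _ _
  exact ⟨⟨(i, j'), h1⟩, ⟨(i + p, j'), h2⟩, rfl, rfl⟩

/-- The monomials with `j < p` are a basis. Proof: `Se.bs` for the independence, `mon_rel` for the generation. -/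
theorem exists_bas [Nontrivial S] (hp : p ≠ 0) :
    ∃ b : Module.Basis {q : Ex p a // (q : ℕ × ℕ).2 < p} S (Aa S p a), ∀ q, b q = mon S q.1 := by
  have hli : LinearIndependent S
      fun q : {q : Ex p a // (q : ℕ × ℕ).2 < p} => mon S q.1 := by
    let f : {q : Ex p a // (q : ℕ × ℕ).2 < p} → ℕ × Fin p :=
      fun q => ((q.1 : ℕ × ℕ).1, ⟨(q.1 : ℕ × ℕ).2, q.2⟩)
    have hf : Function.Injective f := by
      intro q r h
      have h1 : (q.1 : ℕ × ℕ).1 = (r.1 : ℕ × ℕ).1 :=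
        congrArg (fun z : ℕ × Fin p => z.1) h
      have h2 : (q.1 : ℕ × ℕ).2 = (r.1 : ℕ × ℕ).2 :=
        congrArg (fun z : ℕ × Fin p => (z.2 : ℕ)) h
      exact Subtype.ext (Subtype.ext (Prod.ext h1 h2))
    have h1 := (Se.bs hp (1 + X ^ p : S[X])).linearIndependent.comp f hf
    refine LinearIndependent.of_comp (Aa S p a).val.toLinearMap ?_
    have e : ((Aa S p a).val.toLinearMap ∘
        fun q : {q : Ex p a // (q : ℕ × ℕ).2 < p} => mon S q.1) =
          (Se.bs hp (1 + X ^ p : S[X])) ∘ f := by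
      funext q
      rw [Function.comp_apply, Function.comp_apply, Se.bs_apply]
      rfl
    rw [e]
    exact h1
  have hsp : ⊤ ≤ Submodule.span S
      (Set.range fun q : {q : Ex p a // (q : ℕ × ℕ).2 < p} => mon S q.1) := by
    rw [← aa_span, Submodule.span_le]
    rintro _ ⟨q, rfl⟩
    have key : ∀ n : ℕ, ∀ q : Ex p a, (q : ℕ × ℕ).2 = n → mon S q ∈ Submodule.span S
        (Set.range fun q : {q : Ex p a // (q : ℕ × ℕ).2 < p} => mon S q.1) := by
      intro n
      induction n using Nat.strong_induction_on with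
      | _ n ih =>
        intro q hq
        rcases Nat.lt_or_ge (q : ℕ × ℕ).2 p with h | h
        · exact Submodule.subset_span ⟨⟨q, h⟩, rfl⟩
        · obtain ⟨q', r', h1, h2⟩ := rt_exp h
          rw [mon_rel S q' h1 h2]
          have h3 : (q : ℕ × ℕ).2 = (q' : ℕ × ℕ).2 + p := by rw [h1]; rfl
          have h4 : (r' : ℕ × ℕ).2 = (q' : ℕ × ℕ).2 + 0 := by rw [h2]; rfl
          have hp0 : 0 < p := Nat.pos_of_ne_zero hp
          exact add_mem (ih _ (by omega) q' rfl) (ih _ (by omega) r' rfl)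
    exact key _ q rfl
  exact ⟨Module.Basis.mk hli hsp, fun q => Module.Basis.mk_apply hli hsp q⟩

/-- **The monic table.** Proof: `exists_bas` reindexed by `sx_uniq`; `mon_add`, `mon_rel`: the product of two basis elements is
the monomial of the sum of the exponents, and `mon (i, j + p) = mon (i + p, j) + mon (i, j)`; `sx_large`. -/
theorem exists_tbl [Nontrivial S] (hp : p.Prime) (h : a + 1 < p) :
    ∃ T : Mt S (Aa S p a), T.S = Sx p a ∧
      ∀ q : Ex p a, T.d (mon S q) = (((q : ℕ × ℕ).1 + (q : ℕ × ℕ).2 : ℕ) : WithBot ℕ) := by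
  obtain ⟨b, hb⟩ := exists_bas S (a := a) hp.ne_zero
  have hp0 : 0 < p := hp.pos
  let g : Ex p a → Sx p a := fun q => ⟨(q : ℕ × ℕ).1 + (q : ℕ × ℕ).2, q, q.2, rfl⟩
  let f : {q : Ex p a // (q : ℕ × ℕ).2 < p} → Sx p a := fun q => g q.1
  have hf : Function.Bijective f := by
    constructor
    · intro q r hqr
      have h1 : (q.1 : ℕ × ℕ).1 + (q.1 : ℕ × ℕ).2 = (r.1 : ℕ × ℕ).1 + (r.1 : ℕ × ℕ).2 :=
        congrArg Subtype.val hqr
      obtain ⟨z, -, hz⟩ := sx_uniq hp h (f q).2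
      have h2 := hz _ ⟨q.1.2, q.2, rfl⟩
      have h3 := hz _ ⟨r.1.2, r.2, h1.symm⟩
      exact Subtype.ext (Subtype.ext (h2.trans h3.symm))
    · rintro ⟨m, hm⟩
      obtain ⟨z, ⟨hz1, hz2, hz3⟩, -⟩ := sx_uniq hp h hm
      exact ⟨⟨⟨z, hz1⟩, hz2⟩, Subtype.ext hz3⟩
  let E : {q : Ex p a // (q : ℕ × ℕ).2 < p} ≃ Sx p a := Equiv.ofBijective f hf
  let e : Module.Basis (Sx p a) S (Aa S p a) := b.reindex E
  have he : ∀ q : Ex p a, (q : ℕ × ℕ).2 < p → e (g q) = mon S q := by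
    intro q hq
    have h1 : g q = E ⟨q, hq⟩ := rfl
    rw [h1, Module.Basis.reindex_apply, Equiv.symm_apply_apply, hb]
  have key : ∀ n : ℕ, ∀ q : Ex p a, (q : ℕ × ℕ).2 = n → mon S q - e (g q) ∈
      Submodule.span S (e '' {k | (k : ℕ) < (q : ℕ × ℕ).1 + (q : ℕ × ℕ).2}) := by
    intro n
    induction n using Nat.strong_induction_on with
    | _ n ih =>
      intro q hq
      rcases Nat.lt_or_ge (q : ℕ × ℕ).2 p with h1 | h1
      · rw [he q h1, sub_self]
        exact zero_mem _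
      · obtain ⟨q', r', h2, h3⟩ := rt_exp h1
        have h4 : (q : ℕ × ℕ).2 = (q' : ℕ × ℕ).2 + p := by rw [h2]; rfl
        have h5 : (q : ℕ × ℕ).1 = (q' : ℕ × ℕ).1 + 0 := by rw [h2]; rfl
        have h6 : (r' : ℕ × ℕ).2 = (q' : ℕ × ℕ).2 + 0 := by rw [h3]; rfl
        have h7 : (r' : ℕ × ℕ).1 = (q' : ℕ × ℕ).1 + p := by rw [h3]; rfl
        have h8 : g r' = g q := Subtype.ext (by
          change (r' : ℕ × ℕ).1 + (r' : ℕ × ℕ).2 = (q : ℕ × ℕ).1 + (q : ℕ × ℕ).2
          omega)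
        have h9 := ih _ (by omega) q' rfl
        have h10 := ih _ (by omega) r' rfl
        rw [h8] at h10
        have h11 : (r' : ℕ × ℕ).1 + (r' : ℕ × ℕ).2 = (q : ℕ × ℕ).1 + (q : ℕ × ℕ).2 := by omega
        rw [h11] at h10
        have h12 : (q' : ℕ × ℕ).1 + (q' : ℕ × ℕ).2 < (q : ℕ × ℕ).1 + (q : ℕ × ℕ).2 := by omega
        have h13 : e (g q') ∈
            Submodule.span S (e '' {k | (k : ℕ) < (q : ℕ × ℕ).1 + (q : ℕ × ℕ).2}) :=
          Submodule.subset_span ⟨g q', h12, rfl⟩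
        have h14 := Submodule.span_mono (R := S) (Set.image_mono (f := e)
          (fun (k : Sx p a) (hk : (k : ℕ) < (q' : ℕ × ℕ).1 + (q' : ℕ × ℕ).2) =>
            (lt_trans hk h12 : (k : ℕ) < (q : ℕ × ℕ).1 + (q : ℕ × ℕ).2))) h9
        have e1 : mon S q - e (g q) =
            ((mon S q' - e (g q')) + e (g q')) + (mon S r' - e (g q)) := by
          rw [mon_rel S q' h2 h3]
          abel
        rw [e1]
        exact add_mem (add_mem h14 h13) h10
  let T : Mt S (Aa S p a) :=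
    { S := Sx p a
      fin := ⟨p - 1, fun n hn => sx_large hp h hn⟩
      e := e
      one := by
        have h1 : (0 : Sx p a) = g 0 := rfl
        rw [h1, he 0 hp0, mon_zero]
      tab := by
        intro m n
        obtain ⟨q, rfl⟩ := E.surjective m
        obtain ⟨r, rfl⟩ := E.surjective n
        have h1 : e (E q) = mon S q.1 := he q.1 q.2
        have h2 : e (E r) = mon S r.1 := he r.1 r.2
        have h4 : ((q.1 + r.1 : Ex p a) : ℕ × ℕ).1 + ((q.1 + r.1 : Ex p a) : ℕ × ℕ).2 =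
            ((E q : Sx p a) : ℕ) + (E r : Sx p a) := by
          change ((q.1 : ℕ × ℕ).1 + (r.1 : ℕ × ℕ).1) + ((q.1 : ℕ × ℕ).2 + (r.1 : ℕ × ℕ).2) =
            ((q.1 : ℕ × ℕ).1 + (q.1 : ℕ × ℕ).2) + ((r.1 : ℕ × ℕ).1 + (r.1 : ℕ × ℕ).2)
          ring
        have h3 : E q + E r = g (q.1 + r.1) := Subtype.ext h4.symm
        have h5 := key _ (q.1 + r.1) rfl
        rw [h4, ← h3] at h5
        rw [h1, h2, ← mon_add]
        exact h5 }
  refine ⟨T, rfl, fun q => ?_⟩
  have h2 : mon S q - T.e (g q) ∈ T.W ((g q : Sx p a) : ℕ) := key _ q rfl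
  have h3 : mon S q ∈ T.L ((g q : Sx p a) : ℕ) := by
    have h4 := add_mem (T.W_le_L _ h2) (T.e_mem (g q))
    rwa [sub_add_cancel] at h4
  refine T.d_eq (m := g q) h3 ?_
  have h4 := T.repr_W (m := g q) h2
  rw [map_sub, Finsupp.sub_apply, T.e.repr_self, Finsupp.single_eq_same, sub_eq_zero] at h4
  rw [h4]
  exact one_ne_zero

/-- The monic table. -/
noncomputable def tbl [Nontrivial S] (hp : p.Prime) (h : a + 1 < p) : Mt S (Aa S p a) :=
  (exists_tbl S hp h).choose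

theorem tbl_S [Nontrivial S] (hp : p.Prime) (h : a + 1 < p) : (tbl S hp h).S = Sx p a :=
  (exists_tbl S hp h).choose_spec.1

theorem tbl_d [Nontrivial S] (hp : p.Prime) (h : a + 1 < p) (q : Ex p a) :
    (tbl S hp h).d (mon S q) = (((q : ℕ × ℕ).1 + (q : ℕ × ℕ).2 : ℕ) : WithBot ℕ) :=
  (exists_tbl S hp h).choose_spec.2 q

end DK
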