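import Pool.Agent.Lib.MP_f80667_ag.Dk.Rc
import Pool.Agent.Lib.MP_f80667_ag.Dk.Rt
import Pool.Agent.Lib.MP_f80667_ag.Dk.Rb
import Pool.Agent.Lib.MP_f80667_ag.Dk.Rj
import Pool.Agent.Lib.MP_f80667_ag.Qs.Cu

/-! The curve `v ^ p = u ^ a (1 + u)` over a field of characteristic zero. -/

open Polynomial CV

namespace DK

variable (K : Type) [Field K] {p a : ℕ}

private theorem rs_uu (p a : ℕ) : ((uu K p a : Aa K p a) : Bf K p) = sx K p ^ p := by
  change sx K p ^ p * tx K p ^ 0 = sx K p ^ p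
  rw [pow_zero, mul_one]

private theorem rs_vv (p a : ℕ) : ((vv K p a : Aa K p a) : Bf K p) = sx K p ^ a * tx K p := by
  change sx K p ^ a * tx K p ^ 1 = sx K p ^ a * tx K p
  rw [pow_one]

private theorem rs_rel (p a : ℕ) :
    vv K p a ^ p = aeval (uu K p a) (X ^ a * (1 + X) : K[X]) := by
  rw [vv_pow, map_mul, map_pow, map_add, map_one, aeval_X]

private theorem rs_inj (hp : p.Prime) :
    Function.Injective (Se.lift (rs_rel K p a)) := by
  set φ := Se.lift (rs_rel K p a) with hφ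
  have hp0 : p ≠ 0 := hp.ne_zero
  let g : ℕ × Fin p → ℕ × Fin p := fun q => (p * q.1 + a * (q.2 : ℕ), q.2)
  have hg : Function.Injective g := by
    rintro ⟨i, j⟩ ⟨i', j'⟩ h
    have h1 : p * i + a * (j : ℕ) = p * i' + a * (j' : ℕ) := congrArg Prod.fst h
    have h2 : j = j' := congrArg Prod.snd h
    subst h2
    have h3 : p * i = p * i' := Nat.add_right_cancel h1
    rw [Nat.eq_of_mul_eq_mul_left hp.pos h3]
  have h1 := (Se.bs hp0 (1 + X ^ p : K[X])).linearIndependent.comp g hg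
  let f : Se.Rg p (X ^ a * (1 + X) : K[X]) →ₗ[K] Bf K p := ((Aa K p a).val.comp φ).toLinearMap
  have hf : (f ∘ Se.bs hp0 (X ^ a * (1 + X) : K[X])) = Se.bs hp0 (1 + X ^ p : K[X]) ∘ g := by
    funext q
    rw [Function.comp_apply, Function.comp_apply, Se.bs_apply, Se.bs_apply]
    change ((φ (Se.gx p _ ^ q.1 * Se.gu p _ ^ (q.2 : ℕ)) : Aa K p a) : Bf K p) =
      sx K p ^ (p * q.1 + a * (q.2 : ℕ)) * tx K p ^ (q.2 : ℕ)
    rw [map_mul, map_pow, map_pow, hφ, Se.lift_gx, Se.lift_gu]
    push_cast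
    rw [rs_uu, rs_vv, pow_add, pow_mul, pow_mul, mul_pow, mul_assoc]
  have h2 : Function.Injective f := by
    rw [← hf, linearIndependent_iff_injective_finsuppLinearCombination] at h1
    intro x y hxy
    apply (Se.bs hp0 (X ^ a * (1 + X) : K[X])).repr.injective
    apply h1
    rw [← Finsupp.apply_linearCombination, ← Finsupp.apply_linearCombination,
      Module.Basis.linearCombination_repr, Module.Basis.linearCombination_repr, hxy]
  intro x y hxy
  apply h2
  change ((φ x : Aa K p a) : Bf K p) = ((φ y : Aa K p a) : Bf K p)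
  rw [hxy]

private theorem rs_den (hp : p.Prime) (x : Aa K p a) :
    ∃ (n : ℕ) (y : Se.Rg p (X ^ a * (1 + X) : K[X])),
      uu K p a ^ n * x = Se.lift (rs_rel K p a) y := by
  have hx : x ∈ Submodule.span K (Set.range fun q : Ex p a => mon K q) := by
    rw [aa_span]
    trivial
  induction hx using Submodule.span_induction with
  | mem x hx =>
    obtain ⟨⟨⟨i, j⟩, hq⟩, rfl⟩ := hx
    have hq' : i ≡ a * j [MOD p] := hq
    have h1 : a * j ≤ i + p * (a * j) := by
      have := Nat.mul_le_mul_right (a * j) hp.one_lt.le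
      omega
    have h2 : a * j ≡ i + p * (a * j) [MOD p] :=
      (hq'.symm.trans (Nat.add_mul_mod_self_left _ _ _).symm)
    obtain ⟨m, hm⟩ := (Nat.modEq_iff_dvd' h1).1 h2
    refine ⟨a * j, Se.gx p _ ^ m * Se.gu p _ ^ j, ?_⟩
    rw [map_mul, map_pow, map_pow, Se.lift_gx, Se.lift_gu]
    refine Subtype.ext ?_
    push_cast
    rw [rs_uu, rs_vv]
    change (sx K p ^ p) ^ (a * j) * (sx K p ^ i * tx K p ^ j) = _
    rw [mul_pow, ← mul_assoc, ← mul_assoc, ← pow_mul, ← pow_mul, ← pow_mul, ← pow_add, ← pow_add]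
    congr 2
    omega
  | zero => exact ⟨0, 0, by rw [mul_zero, map_zero]⟩
  | add x y _ _ hx hy =>
    obtain ⟨n, x', hx'⟩ := hx
    obtain ⟨m, y', hy'⟩ := hy
    refine ⟨n + m, Se.gx p _ ^ m * x' + Se.gx p _ ^ n * y', ?_⟩
    rw [map_add, map_mul, map_mul, map_pow, map_pow, Se.lift_gx, ← hx', ← hy']
    ring
  | smul c x _ hx =>
    obtain ⟨n, x', hx'⟩ := hx
    refine ⟨n, c • x', ?_⟩
    rw [map_smul, ← hx', mul_smul_comm]

/-- The chart `u ≠ 0`. Proof: `loc_fs` for `Se.lift : Se.Rg p (X ^ a * (1 + X)) → Aa K p a` (`vv_pow`; injective: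
the images of `x ^ i u ^ j`, `j < p`, are the distinct basis elements times powers of `u`: `u ^ m * mon (a j mod p, j) = v ^ j`),
`fs_chart`: `u ^ a = (a + 1) u ^ a (1 + u) - u * (u ^ (a - 1) (a + (a + 1) u))`, `u ^ a (1 + u) = v * v ^ (p - 1)`. -/
theorem chart_u [CharZero K] (hp : p.Prime) (ha : 0 < a) (h : a < p) :
    Algebra.FormallySmooth K (Localization.Away (uu K p a)) := by
  have hS : Algebra.FormallySmooth K
      (Localization.Away (Se.gx p (X ^ a * (1 + X) : K[X]))) := by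
    refine fs_chart hp.pos (N := a)
      (b := algebraMap K _ (((a : K) + 1) / p) * Se.gu p (X ^ a * (1 + X) : K[X]))
      (c := -Se.gx p (X ^ a * (1 + X) : K[X])) ?_
    have hu : Se.gu p (X ^ a * (1 + X) : K[X]) * Se.gu p (X ^ a * (1 + X) : K[X]) ^ (p - 1) =
        Se.gx p (X ^ a * (1 + X) : K[X]) ^ a * (1 + Se.gx p (X ^ a * (1 + X) : K[X])) := by
      rw [← pow_succ', Nat.sub_add_cancel hp.pos, Se.gu_pow, map_mul, map_pow, map_add, map_one,
        aeval_X]
    have hx : Se.gx p (X ^ a * (1 + X) : K[X]) * Se.gx p (X ^ a * (1 + X) : K[X]) ^ (a - 1) =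
        Se.gx p (X ^ a * (1 + X) : K[X]) ^ a := by
      rw [← pow_succ', Nat.sub_add_cancel ha]
    have hp' : (p : K) ≠ 0 := Nat.cast_ne_zero.2 hp.ne_zero
    have hk : algebraMap K (Se.Rg p (X ^ a * (1 + X) : K[X])) (((a : K) + 1) / p) *
        (p : Se.Rg p (X ^ a * (1 + X) : K[X])) = (a : Se.Rg p (X ^ a * (1 + X) : K[X])) + 1 := by
      rw [← map_natCast (algebraMap K (Se.Rg p (X ^ a * (1 + X) : K[X]))) p, ← map_mul,
        div_mul_cancel₀ _ hp', map_add, map_one, map_natCast]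
    have hd : aeval (Se.gx p (X ^ a * (1 + X) : K[X])) (derivative (X ^ a * (1 + X) : K[X])) =
        (a : Se.Rg p (X ^ a * (1 + X) : K[X])) * Se.gx p (X ^ a * (1 + X) : K[X]) ^ (a - 1) *
          (1 + Se.gx p (X ^ a * (1 + X) : K[X])) + Se.gx p (X ^ a * (1 + X) : K[X]) ^ a := by
      simp [derivative_mul, derivative_X_pow]
    rw [hd]
    generalize Se.gx p (X ^ a * (1 + X) : K[X]) = x at *
    generalize Se.gu p (X ^ a * (1 + X) : K[X]) = u at *
    generalize algebraMap K (Se.Rg p (X ^ a * (1 + X) : K[X])) (((a : K) + 1) / p) = k at *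
    linear_combination (-(k * (p : Se.Rg p (X ^ a * (1 + X) : K[X])))) * hu +
      (a : Se.Rg p (X ^ a * (1 + X) : K[X])) * (1 + x) * hx - x ^ a * (1 + x) * hk
  have h1 := loc_fs (Se.lift (rs_rel K p a)) (rs_inj K hp) (Se.gx p _)
    (by
      intro x
      rw [Se.lift_gx]
      exact rs_den K hp x) hS
  rw [Se.lift_gx] at h1
  exact h1

/-- The chart `1 + u ≠ 0`. Proof: `exists_swap`, `chart_u`. -/
theorem chart_v [CharZero K] (hp : p.Prime) (h2 : p ≠ 2) (ha : 0 < a) (h : a < p) :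
    Algebra.FormallySmooth K (Localization.Away (1 + uu K p a)) := by
  obtain ⟨a', ha', ha1⟩ := Nat.exists_mul_mod_eq_one_of_coprime
    (Nat.Coprime.symm ((Nat.Prime.coprime_iff_not_dvd hp).2 (Nat.not_dvd_of_pos_of_lt ha h)))
    hp.one_lt
  have ha2 : 0 < a' := by
    rcases Nat.eq_zero_or_pos a' with h0 | h0
    · rw [h0, mul_zero, Nat.zero_mod] at ha1
      exact absurd ha1 (by norm_num)
    · exact h0
  have hmod : a * a' ≡ 1 [MOD p] := by
    change a * a' % p = 1 % p
    rw [ha1, Nat.mod_eq_of_lt hp.one_lt]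
  obtain ⟨e, he⟩ := exists_swap K hp h2 hmod
  have hfp : Algebra.FinitePresentation K (Aa K p a') := aa_fp K hp
  have h3 : Algebra.FormallySmooth K (Localization.Away (-uu K p a')) := by
    rw [← Algebra.basicOpen_subset_smoothLocus_iff]
    intro q hq
    refine (Algebra.basicOpen_subset_smoothLocus_iff.2 (chart_u K hp ha2 ha')) ?_
    intro hq'
    exact hq (q.asIdeal.neg_mem hq')
  have h4 := loc_fs (e.symm : Aa K p a' →ₐ[K] Aa K p a) e.symm.injective (-uu K p a')
    (fun x => ⟨0, e x, by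
      rw [pow_zero, one_mul]
      exact (e.symm_apply_apply x).symm⟩) h3
  have h5 : (e.symm : Aa K p a' →ₐ[K] Aa K p a) (-uu K p a') = 1 + uu K p a := by
    rw [← he]
    exact e.symm_apply_apply _
  rw [h5] at h4
  exact h4

/-- **The curve is smooth.** Proof: `fs_cover` for `- u`, `1 + u`. -/
theorem aa_smooth [CharZero K] (hp : p.Prime) (ha : 0 < a) (h : a + 1 < p) :
    Algebra.Smooth K (Aa K p a) := by
  have hfp : Algebra.FinitePresentation K (Aa K p a) := aa_fp K hp
  have h1 : Algebra.FormallySmooth K (Localization.Away (-uu K p a)) := by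
    rw [← Algebra.basicOpen_subset_smoothLocus_iff]
    intro q hq
    refine (Algebra.basicOpen_subset_smoothLocus_iff.2 (chart_u K hp ha (by omega))) ?_
    intro hq'
    exact hq (q.asIdeal.neg_mem hq')
  exact fs_cover (x := -uu K p a) (y := 1 + uu K p a) (by ring) h1
    (chart_v K hp (by omega) ha (by omega))

/-- **The curve** `v ^ p = u ^ a (1 + u)`. -/
noncomputable def Ca [CharZero K] (hp : p.Prime) (ha : 0 < a) (h : a + 1 < p) : Crv K where
  A := Aa K p a
  sm := aa_smooth K hp ha h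
  G := (tbl K hp h).dg

end DK
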