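import Pool.Agent.Lib.MP_f80667_ag.Dh.Bc

/-!
Divisibility and norms for a curve `D` with correspondences to finitely many curves `E j` whose sum is `q` on the classes up
to `k`.
-/

open ZC BE PE CV Polynomial IntermediateField DH

namespace DK

/-- Maps `f j` from `D` to `E j` and pull-backs `psi j` of cycles with `∑ (psi j) (f j) = q` on the classes, up to `k`. -/
structure Tg {F : Type} [Field F] {ι : Type} [Fintype ι] (D : Crv F) (E : ι → Crv F) (K Ω : Type) [Field K] [Field Ω] [Algebra K Ω]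
    [Algebra F K] [Algebra F Ω] [IsScalarTower F K Ω] (k q : ℕ) where
  f : ∀ j, D.V.pt Ω → (E j).V.pt Ω
  psi : ∀ j, (((E j).V.pt Ω →₀ ℤ) →+ (D.V.pt Ω →₀ ℤ))
  f_act : ∀ j (γ : Ω ≃ₐ[K] Ω) P, (E j).V.act γ (f j P) = f j (D.V.act γ P)
  psi_act : ∀ j (γ : Ω ≃ₐ[K] Ω) z, Finsupp.mapDomain (D.V.act γ) (psi j z) =
    psi j (Finsupp.mapDomain ((E j).V.act γ) z)
  deg : ∀ j z, (E j).V.deg Ω z = 0 → D.V.deg Ω (psi j z) = 0
  pc : ∀ j, ∀ z ∈ Pc (E j) Ω, k • psi j z ∈ Pc D Ω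
  id : ∀ z, D.V.deg Ω z = 0 → k • (q • z - ∑ j, psi j (Finsupp.mapDomain (f j) z)) ∈ Pc D Ω

namespace Tg

variable {F : Type} [Field F] {K Ω : Type} [Field K] [Field Ω] [Algebra K Ω] [Algebra F K]
  [Algebra F Ω] [IsScalarTower F K Ω] {ι : Type} [Fintype ι] {D : Crv F} {E : ι → Crv F} {k q : ℕ}
  (T : Tg D E K Ω k q)

omit [Algebra F K] [Algebra K Ω] [IsScalarTower F K Ω] in
private theorem deg_map {V W : Vr F} (f : V.pt Ω → W.pt Ω) (z : V.pt Ω →₀ ℤ) :
    W.deg Ω (Finsupp.mapDomain f z) = V.deg Ω z := by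
  induction z using Finsupp.induction_linear with
  | zero => rw [Finsupp.mapDomain_zero, map_zero, map_zero]
  | add x y hx hy => rw [Finsupp.mapDomain_add, map_add, map_add, hx, hy]
  | single x n =>
    rw [Finsupp.mapDomain_single, Vr.deg, Vr.deg, Finsupp.liftAddHom_apply_single,
      Finsupp.liftAddHom_apply_single]

private theorem dv_alg {A : Type} [AddCommGroup A] {k q l : ℕ} {u v : ℤ}
    (huv : u * (k * q : ℕ) + v * l = 1) (z S1 S2 : A) :
    z - l • (u • S2 + v • z) = u • (k • (q • z - S1) + (k • S1 - l • S2)) := by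
  push_cast at huv
  simp only [← natCast_zsmul]
  linear_combination (norm := module) -(huv • z)

private theorem nm_alg {A : Type} [AddCommGroup A] {k q l : ℕ} {u v : ℤ}
    (huv : u * (k * q : ℕ) + v * l = 1) (z S1 S2 S3 : A) :
    z - u • S3 - l • (u • S2 + v • z) =
      u • (k • (q • z - S1) + (k • S1 - S3 - l • S2)) := by
  push_cast at huv
  simp only [← natCast_zsmul]
  linear_combination (norm := module) -(huv • z)

private theorem zd_up {V : Vr F} {M N : IntermediateField K Ω} (h : M ≤ N) {z : V.pt Ω →₀ ℤ}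
    (hz : z ∈ Zd V M) : z ∈ Zd V N :=
  ⟨fun γ hγ => hz.1 γ (IntermediateField.fixingSubgroup_le h hγ), hz.2⟩

theorem f_zd {M : IntermediateField K Ω} {z : D.V.pt Ω →₀ ℤ} (hz : z ∈ Zd D.V M) (j : ι) :
    Finsupp.mapDomain (T.f j) z ∈ Zd (E j).V M := by
  refine ⟨fun γ hγ => ?_, ?_⟩
  · have h1 : (E j).V.act γ ∘ T.f j = T.f j ∘ D.V.act γ := funext fun P => T.f_act j γ P
    rw [← Finsupp.mapDomain_comp, h1, Finsupp.mapDomain_comp, hz.1 γ hγ]
  · rw [deg_map]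
    exact hz.2

theorem psi_zd {M : IntermediateField K Ω} {j : ι} {z : (E j).V.pt Ω →₀ ℤ} (hz : z ∈ Zd (E j).V M) :
    T.psi j z ∈ Zd D.V M := by
  refine ⟨fun γ hγ => ?_, T.deg j z hz.2⟩
  rw [T.psi_act, hz.1 γ hγ]

variable [CharZero K] [IsAlgClosure K Ω] {L : Ld K Ω} {l : ℕ}

/-- Proof: `rtr_eq`, `hom_nm`. -/
theorem psi_rtr {M M' : IntermediateField K Ω} (h : M ≤ M') [FiniteDimensional K M']
    {j : ι} (z : (E j).V.pt Ω →₀ ℤ) :
    T.psi j (rtr (E j).V M M' z) = rtr D.V M M' (T.psi j z) := by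
  rw [rtr_eq h, rtr_eq h]
  exact hom_nm (T.psi j) h (fun γ _ a => (T.psi_act j γ a).symm) z

include T in
/-- Proof: `f j z` is `l`-divisible over `L.Ur M N_j`; `N = ∏ N_j`; `k q z = ∑ k psi (f z) = l (∑ k psi c_j)` modulo `Pc`;
`u k q + v l = 1`: `z = l (u ∑ k psi c_j + v z)`. -/
theorem dvL (hl : Nat.Coprime (k * q) l) (h : ∀ j, DvL L (E j) l) : DvL L D l := by
  intro M hM z hz
  obtain ⟨u, v, huv⟩ : ∃ u v : ℤ, u * (k * q : ℕ) + v * l = 1 :=
    Nat.isCoprime_iff_coprime.2 hl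
  have h1 : ∀ j, ∃ N : ℕ, N ≠ 0 ∧ ∀ N' : ℕ, N' ≠ 0 → N ∣ N' →
      ∃ z' ∈ Zd (E j).V (L.Ur M N'), Finsupp.mapDomain (T.f j) z - l • z' ∈ Pc (E j) Ω := fun j =>
    h j M hM _ (T.f_zd hz j)
  choose N hN hN' using h1
  refine ⟨∏ j, N j, Finset.prod_ne_zero_iff.2 fun j _ => hN j, fun N' h0 hd => ?_⟩
  have h2 : ∀ j, ∃ z' ∈ Zd (E j).V (L.Ur M N'),
      Finsupp.mapDomain (T.f j) z - l • z' ∈ Pc (E j) Ω := fun j =>
    hN' j N' h0 ((Finset.dvd_prod_of_mem N (Finset.mem_univ j)).trans hd)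
  choose c hc hc' using h2
  refine ⟨u • (∑ j, k • T.psi j (c j)) + v • z, ?_, ?_⟩
  · refine add_mem (zsmul_mem (sum_mem fun j _ => nsmul_mem (T.psi_zd (hc j)) k) u)
      (zsmul_mem (zd_up Ld.ur_le hz) v)
  · have h3 : ∑ j, k • T.psi j (Finsupp.mapDomain (T.f j) z - l • c j) ∈ Pc D Ω :=
      sum_mem fun j _ => T.pc j _ (hc' j)
    have h4 := zsmul_mem (add_mem (T.id z hz.2) h3) u
    have h5 : z - l • (u • (∑ j, k • T.psi j (c j)) + v • z) =
        u • (k • (q • z - ∑ j, T.psi j (Finsupp.mapDomain (T.f j) z)) +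
          ∑ j, k • T.psi j (Finsupp.mapDomain (T.f j) z - l • c j)) := by
      have h6 : ∑ j, k • T.psi j (Finsupp.mapDomain (T.f j) z - l • c j) =
          k • (∑ j, T.psi j (Finsupp.mapDomain (T.f j) z)) - l • ∑ j, k • T.psi j (c j) := by
        rw [Finset.smul_sum, Finset.smul_sum, ← Finset.sum_sub_distrib]
        refine Finset.sum_congr rfl fun j _ => ?_
        rw [map_sub, map_nsmul, smul_sub, smul_comm]
      rw [h6]
      exact dv_alg huv z _ _
    rw [h5]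
    exact h4

include T in
/-- Proof: `f j z = rtr c_j + l c'_j`, `psi_rtr`, as in `dvL`. -/
theorem nmL (hl : Nat.Coprime (k * q) l) (h : ∀ j, NmL L (E j) l) : NmL L D l := by
  intro M hM z hz N hN
  obtain ⟨u, v, huv⟩ : ∃ u v : ℤ, u * (k * q : ℕ) + v * l = 1 :=
    Nat.isCoprime_iff_coprime.2 hl
  have hfd : FiniteDimensional K (L.Ur M N) := L.ur_fin M N hN
  have h1 : ∀ j, ∃ z' ∈ Zd (E j).V (L.Ur M N), ∃ z'' ∈ Zd (E j).V M,
      Finsupp.mapDomain (T.f j) z - rtr (E j).V M (L.Ur M N) z' - l • z'' ∈ Pc (E j) Ω := fun j =>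
    h j M hM _ (T.f_zd hz j) N hN
  choose c hc d hd hcd using h1
  refine ⟨u • ∑ j, k • T.psi j (c j), zsmul_mem (sum_mem fun j _ =>
    nsmul_mem (T.psi_zd (hc j)) k) u, u • (∑ j, k • T.psi j (d j)) + v • z,
    add_mem (zsmul_mem (sum_mem fun j _ => nsmul_mem (T.psi_zd (hd j)) k) u)
      (zsmul_mem hz v), ?_⟩
  have h3 : ∑ j, k • T.psi j (Finsupp.mapDomain (T.f j) z - rtr (E j).V M (L.Ur M N) (c j) -
      l • d j) ∈ Pc D Ω := sum_mem fun j _ => T.pc j _ (hcd j)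
  have h4 := zsmul_mem (add_mem (T.id z hz.2) h3) u
  have h5 : z - rtr D.V M (L.Ur M N) (u • ∑ j, k • T.psi j (c j)) -
      l • (u • (∑ j, k • T.psi j (d j)) + v • z) =
      u • (k • (q • z - ∑ j, T.psi j (Finsupp.mapDomain (T.f j) z)) +
        ∑ j, k • T.psi j (Finsupp.mapDomain (T.f j) z - rtr (E j).V M (L.Ur M N) (c j) -
          l • d j)) := by
    have h6 : ∑ j, k • T.psi j (Finsupp.mapDomain (T.f j) z - rtr (E j).V M (L.Ur M N) (c j) -
        l • d j) = k • (∑ j, T.psi j (Finsupp.mapDomain (T.f j) z)) -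
        (∑ j, k • rtr D.V M (L.Ur M N) (T.psi j (c j))) - l • ∑ j, k • T.psi j (d j) := by
      rw [Finset.smul_sum, Finset.smul_sum, ← Finset.sum_sub_distrib, ← Finset.sum_sub_distrib]
      refine Finset.sum_congr rfl fun j _ => ?_
      rw [map_sub, map_sub, map_nsmul, smul_sub, smul_sub, smul_comm k l,
        T.psi_rtr Ld.ur_le]
    have h7 : rtr D.V M (L.Ur M N) (u • ∑ j, k • T.psi j (c j)) =
        u • ∑ j, k • rtr D.V M (L.Ur M N) (T.psi j (c j)) := by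
      rw [map_zsmul, map_sum]
      congr 1
      exact Finset.sum_congr rfl fun j _ => map_nsmul _ _ _
    rw [h6, h7]
    exact nm_alg huv z _ _ _
  rw [h5]
  exact h4

end Tg

end DK
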